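import Pool.Agent.P.MP_1206ce_ag.AH.Basic

/-! The cancellation lemma (ALG). -/

noncomputable section

open MvPolynomial

namespace Pool.Agent.HK

section der

variable {R : Type} [CommRing R] [Algebra ℂ R] (d : Derivation ℂ R R)

theorem ALG_succ (n : ℕ) (y : R) : (d.toLinearMap ^ (n + 1)) y = d ((d.toLinearMap ^ n) y) := by
  rw [pow_succ']
  rfl

theorem ALG_leibniz (n : ℕ) (a b : R) : (d.toLinearMap ^ n) (a * b) =
    ∑ ij ∈ Finset.HasAntidiagonal.antidiagonal n,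
      n.choose ij.1 • ((d.toLinearMap ^ ij.1) a * (d.toLinearMap ^ ij.2) b) := by
  induction n with
  | zero => simp
  | succ n ih =>
    rw [Finset.sum_antidiagonal_choose_succ_nsmul
      (fun i j => (d.toLinearMap ^ i) a * (d.toLinearMap ^ j) b) n]
    simp only [ALG_succ, ih, map_sum, map_nsmul, Derivation.leibniz, smul_eq_mul, smul_add,
      Finset.sum_add_distrib, add_right_inj]
    refine Finset.sum_congr rfl fun ij hij => ?_
    rw [n.choose_symm_of_eq_add (Finset.HasAntidiagonal.mem_antidiagonal.1 hij).symm, mul_comm]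

theorem ALG_pow_mem {J : Ideal R} (hJ : ∀ y ∈ J, d y ∈ J) {y : R} {m n : ℕ} (h : m ≤ n)
    (hy : (d.toLinearMap ^ m) y ∈ J) : (d.toLinearMap ^ n) y ∈ J := by
  induction n, h using Nat.le_induction with
  | base => exact hy
  | succ n _ ih =>
    rw [ALG_succ]
    exact hJ _ ih

theorem ALG_pow_zero {y : R} {m n : ℕ} (h : m ≤ n) (hy : (d.toLinearMap ^ m) y = 0) :
    (d.toLinearMap ^ n) y = 0 :=
  ALG_pow_mem d (J := ⊥) (fun y hy => by rw [Ideal.mem_bot.1 hy, map_zero]; exact zero_mem _) h hy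

theorem ALG_unit {J : Ideal R} {c : ℂ} (hc : c ≠ 0) {y : R} (h : c • y ∈ J) : y ∈ J := by
  have h1 := J.mul_mem_left (algebraMap ℂ R c⁻¹) h
  rwa [← Algebra.smul_def, smul_smul, inv_mul_cancel₀ hc, one_smul] at h1

/-- The elements of `J` whose derivative lies in `J`. -/
def ALG_St (J : Ideal R) : Ideal R where
  carrier := {y | y ∈ J ∧ d y ∈ J}
  add_mem' := fun ha hb => ⟨add_mem ha.1 hb.1, by rw [map_add]; exact add_mem ha.2 hb.2⟩
  zero_mem' := ⟨zero_mem _, by rw [map_zero]; exact zero_mem _⟩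
  smul_mem' := fun c y hy => ⟨J.smul_mem c hy.1, by
    rw [smul_eq_mul, d.leibniz]
    exact add_mem (J.smul_mem c hy.2) (J.mul_mem_right _ hy.1)⟩

variable {d}

theorem ALG_St_mono {J K : Ideal R} (h : J ≤ K) : ALG_St d J ≤ ALG_St d K :=
  fun _ hy => ⟨h hy.1, h hy.2⟩

theorem ALG_St_span {S : Set R} (h : ∀ y ∈ S, d y = 0) :
    Ideal.span S ≤ ALG_St d (Ideal.span S) :=
  Ideal.span_le.2 fun y hy => ⟨Ideal.subset_span hy, by rw [h y hy]; exact zero_mem _⟩

theorem ALG_St_mul {J K : Ideal R} (hJ : J ≤ ALG_St d J) (hK : K ≤ ALG_St d K) :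
    J * K ≤ ALG_St d (J * K) :=
  Ideal.mul_le.2 fun r hr s hs => ⟨Ideal.mul_mem_mul hr hs, by
    rw [d.leibniz, smul_eq_mul, smul_eq_mul, mul_comm s]
    exact add_mem (Ideal.mul_mem_mul hr (hK hs).2) (Ideal.mul_mem_mul (hJ hr).2 hs)⟩

theorem ALG_prod_zero {ι : Type} {s : Finset ι} {f : ι → R} (h : ∀ i ∈ s, d (f i) = 0) :
    d (∏ i ∈ s, f i) = 0 :=
  Finset.prod_induction f (fun x => d x = 0)
    (fun a b ha hb => by rw [d.leibniz, ha, hb, smul_zero, smul_zero, add_zero]) d.map_one_eq_zero h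

theorem ALG_prod_nzd {ι : Type} {s : Finset ι} {f : ι → R} {J : Ideal R}
    (h : ∀ i ∈ s, ∀ y, f i * y ∈ J → y ∈ J) : ∀ y, (∏ i ∈ s, f i) * y ∈ J → y ∈ J :=
  Finset.prod_induction f (fun x => ∀ y, x * y ∈ J → y ∈ J)
    (fun a b ha hb y hy => hb y (ha _ (by rwa [← mul_assoc]))) (fun y hy => by rwa [one_mul] at hy) h

end der

namespace HD

variable {β I Ar τ Λ Λ' : Type} [Fintype β] [DecidableEq β] [Fintype I] [DecidableEq I] [Fintype Ar]
  [DecidableEq Ar] [Fintype τ] [DecidableEq τ] [DecidableEq Λ] [DecidableEq Λ'] (D : HD β I Ar τ)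

omit [DecidableEq β] [Fintype τ] [DecidableEq τ] [Fintype β] in
/-- (NZD). -/
theorem nzd {R : Type} [CommRing R] [Algebra ℂ R] (d : Derivation ℂ R R)
    (hd : ∀ y : R, ∃ m : ℕ, (d.toLinearMap ^ m) y = 0) {J : Ideal R} (hJ : ∀ y ∈ J, d y ∈ J)
    {s : R} {n : ℕ} {c : ℂ} (hc : c ≠ 0) (hs : (d.toLinearMap ^ n) s = algebraMap ℂ R c) {y : R}
    (hy : s * y ∈ J) : y ∈ J := by
  have key : ∀ m, (d.toLinearMap ^ (m + 1)) y ∈ J → (d.toLinearMap ^ m) y ∈ J := by
    intro m hm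
    have h1 : (d.toLinearMap ^ (n + m)) (s * y) ∈ J := ALG_pow_mem d hJ (Nat.zero_le _) hy
    have h2 : (n, m) ∈ Finset.HasAntidiagonal.antidiagonal (n + m) :=
      Finset.HasAntidiagonal.mem_antidiagonal.2 rfl
    rw [ALG_leibniz, ← Finset.add_sum_erase _ _ h2, Ideal.add_mem_iff_left] at h1
    · rw [hs, ← Algebra.smul_def, ← Nat.cast_smul_eq_nsmul ℂ, smul_smul] at h1
      exact ALG_unit (mul_ne_zero (Nat.cast_ne_zero.2 (Nat.choose_pos (Nat.le_add_right n m)).ne')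
        hc) h1
    · refine sum_mem fun ij hij => nsmul_mem ?_ _
      obtain ⟨h3, h4⟩ := Finset.mem_erase.1 hij
      have h5 := Finset.HasAntidiagonal.mem_antidiagonal.1 h4
      by_cases h6 : m + 1 ≤ ij.2
      · exact J.mul_mem_left _ (ALG_pow_mem d hJ h6 hm)
      · have h7 : n + 1 ≤ ij.1 := by
          by_contra h8
          exact h3 (Prod.ext (by simp only; omega) (by simp only; omega))
        rw [ALG_pow_zero d h7 (by rw [ALG_succ, hs, d.map_algebraMap]), zero_mul]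
        exact zero_mem _
  obtain ⟨m, hm⟩ := hd y
  have h : (d.toLinearMap ^ m) y ∈ J := hm ▸ zero_mem J
  clear hm
  induction m with
  | zero => exact h
  | succ m ih => exact ih (key m h)

/-- The derivation `∑_{k ∈ q} ∂/∂x_k`. -/
def ALG_d (τ : Type) (q : Finset β) :
    Derivation ℂ (MvPolynomial (β ⊕ τ) ℂ) (MvPolynomial (β ⊕ τ) ℂ) :=
  mkDerivation ℂ (Sum.elim (fun k => if k ∈ q then 1 else 0) fun _ => 0)

omit [Fintype β] [Fintype τ] [DecidableEq τ] in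
theorem ALG_d_nil (q : Finset β) (y : MvPolynomial (β ⊕ τ) ℂ) :
    ∃ m : ℕ, ((ALG_d τ q).toLinearMap ^ m) y = 0 := by
  induction y using MvPolynomial.induction_on with
  | C a => exact ⟨1, (ALG_d τ q).map_algebraMap a⟩
  | add p r hp hr =>
    obtain ⟨m, hm⟩ := hp
    obtain ⟨n, hn⟩ := hr
    exact ⟨m + n, by rw [map_add, ALG_pow_zero _ (Nat.le_add_right m n) hm,
      ALG_pow_zero _ (Nat.le_add_left n m) hn, add_zero]⟩
  | mul_X p v hp =>
    obtain ⟨m, hm⟩ := hp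
    have hv : ((ALG_d τ q).toLinearMap ^ 2) (X v) = 0 := by
      rw [ALG_succ, pow_one]
      show ALG_d τ q (ALG_d τ q (X v)) = 0
      rcases v with k | a
      · by_cases hk : k ∈ q <;> simp [ALG_d, hk]
      · simp [ALG_d]
    refine ⟨m + 2, ?_⟩
    rw [ALG_leibniz]
    refine Finset.sum_eq_zero fun ij hij => ?_
    have h1 := Finset.HasAntidiagonal.mem_antidiagonal.1 hij
    by_cases h2 : m ≤ ij.1
    · rw [ALG_pow_zero _ h2 hm, zero_mul, smul_zero]
    · rw [ALG_pow_zero _ (by omega) hv, mul_zero, smul_zero]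

omit [Fintype β] [Fintype τ] [DecidableEq τ] in
theorem ALG_d_inr (q : Finset β) (a : MvPolynomial τ ℂ) : ALG_d τ q (rename Sum.inr a) = 0 := by
  induction a using MvPolynomial.induction_on with
  | C a => simp
  | add p r hp hr => rw [map_add, map_add, hp, hr, add_zero]
  | mul_X p v hp =>
    rw [map_mul, Derivation.leibniz, hp, rename_X]
    simp [ALG_d]

theorem ALG_d_wt (q : Finset β) (γ : Gam Ar) (l k : β) :
    ALG_d τ q (D.wt γ l k) = (if l ∈ q then 1 else 0) - if k ∈ q then 1 else 0 := by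
  rw [wt_eq]
  simp [ALG_d]

theorem ALG_d_wt0 {q : Finset β} {l k : β} (h : k ∈ q ↔ l ∈ q) (γ : Gam Ar) :
    ALG_d τ q (D.wt γ l k) = 0 := by
  rw [ALG_d_wt]
  simp only [h, sub_self]

theorem ALG_d_alpha {q : Finset β} {l k : β} (h : k ∈ q ↔ l ∈ q) : ALG_d τ q (D.alpha k l) = 0 :=
  ALG_prod_zero fun γ _ => D.ALG_d_wt0 h γ

theorem ALG_St_J {q : Finset β} {sl : β → Λ} (h : ∀ k l, sl k = sl l → (k ∈ q ↔ l ∈ q)) :
    D.J sl ≤ ALG_St (ALG_d τ q) (D.J sl) := by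
  refine ALG_St_span ?_
  rintro _ ⟨ρ, rfl⟩
  refine ALG_prod_zero fun z hz => ?_
  have h1 := h _ _ (Finset.mem_filter.1 hz).2.2
  unfold eps
  split_ifs
  · exact D.ALG_d_alpha h1
  · exact D.ALG_d_wt0 h1 _
  · exact Derivation.map_one_eq_zero _

omit [DecidableEq Λ] [Fintype β] in
theorem ALG_spl {sl : β → Λ} {q : Finset β} {k l : β} :
    spl sl q k = spl sl q l ↔ sl k = sl l ∧ (k ∈ q ↔ l ∈ q) := by
  simp [spl]

omit [DecidableEq β] in
theorem ALG_same {sl : β → Λ} {p : Finset β} (hp : IsSlot sl p) {k l : β} (hk : k ∈ p)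
    (hl : l ∈ p) : sl k = sl l := by
  obtain ⟨j, rfl⟩ := hp
  rw [(Finset.mem_filter.1 hk).2, (Finset.mem_filter.1 hl).2]

theorem ALG_St_Dd (key : (I → ℕ) → ℤ) {q : Finset β} {sl : β → Λ} {t : Finset (Finset β)}
    (ht : ∀ p ∈ t, IsSlot sl p) (h : ∀ k l, sl k = sl l → (k ∈ q ↔ l ∈ q)) :
    D.Dd key sl t ≤ ALG_St (ALG_d τ q) (D.Dd key sl t) := by
  refine iSup₂_le fun p hp => le_trans ?_ (ALG_St_mono (le_iSup₂_of_le p hp le_rfl))
  refine iSup₂_le fun r hr => le_trans ?_ (ALG_St_mono (le_iSup₂_of_le r hr le_rfl))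
  refine ALG_St_mul (ALG_St_span ?_) (D.ALG_St_J fun k l e => h k l (ALG_spl.1 e).1)
  rintro _ rfl
  exact ALG_prod_zero fun k hk => ALG_prod_zero fun l hl => D.ALG_d_alpha
    (h k l (ALG_same (ht p hp) (hr.1 hk) (Finset.mem_sdiff.1 hl).1))

theorem ALG_nzd {q r : Finset β} (h : Disjoint q r) {K : Ideal (MvPolynomial (β ⊕ τ) ℂ)}
    (hK : K ≤ ALG_St (ALG_d τ q) K) : ∀ y, D.alphaS q r * y ∈ K → y ∈ K := by
  refine ALG_prod_nzd fun k hk => ALG_prod_nzd fun l hl => ALG_prod_nzd fun γ _ y hy => ?_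
  refine nzd (ALG_d τ q) (ALG_d_nil q) (fun y hy => (hK hy).2) (n := 1) (c := -1) (by norm_num)
    ?_ hy
  rw [pow_one]
  show ALG_d τ q (D.wt γ l k) = _
  rw [ALG_d_wt, if_pos hk, if_neg (Finset.disjoint_right.1 h hl)]
  simp

theorem ALG_slot_sdiff {sl : β → Λ} {p : Finset β} (hp : IsSlot sl p) (q : Finset β) :
    IsSlot (spl sl q) (p \ q) := by
  obtain ⟨j, rfl⟩ := hp
  exact ⟨(j, false), by ext k; simp [spl]⟩

theorem ALG_slot_disj {sl : β → Λ} {p q : Finset β} (hp : IsSlot sl p) (h : Disjoint p q) :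
    IsSlot (spl sl q) p := by
  have h1 := ALG_slot_sdiff hp q
  rwa [Finset.sdiff_eq_self_of_disjoint h] at h1

theorem ALG_slot_sub {sl : β → Λ} {p q : Finset β} (hp : IsSlot sl p) (h : q ⊆ p) :
    IsSlot (spl sl q) q := by
  obtain ⟨j, rfl⟩ := hp
  refine ⟨(j, true), ?_⟩
  ext k
  simp only [spl, Finset.mem_filter, Finset.mem_univ, true_and, Prod.mk.injEq, decide_eq_true_eq]
  exact ⟨fun hk => ⟨(Finset.mem_filter.1 (h hk)).2, hk⟩, fun hk => hk.2⟩

theorem ALG_union_left {q q' : Finset β} (h : Disjoint q q') (r : Finset β) :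
    D.alphaS (q ∪ q') r = D.alphaS q r * D.alphaS q' r := Finset.prod_union h

theorem ALG_union_right (q : Finset β) {r r' : Finset β} (h : Disjoint r r') :
    D.alphaS q (r ∪ r') = D.alphaS q r * D.alphaS q r' := by
  simp only [alphaS, Finset.prod_union h, Finset.prod_mul_distrib]

theorem ALG_step {sl : β → Λ} {a q : Finset β} (ha : IsSlot sl a) (hq : q ⊆ a) {sl' : β → Λ'}
    (h : ∀ k l, sl k = sl l → (k ∈ q ↔ l ∈ q) → sl' k = sl' l) {y : MvPolynomial (β ⊕ τ) ℂ}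
    (hy : y ∈ D.J sl') : D.alphaS q (a \ q) * y ∈ D.J sl :=
  D.alphaS_mul_J ha hq (Ideal.mul_mem_mul (Ideal.mem_span_singleton_self _)
    (D.J_mono (fun k l e => h k l (ALG_spl.1 e).1 (ALG_spl.1 e).2) hy))

theorem ALG_mem_Fs {key : (I → ℕ) → ℤ} {sl : β → Λ} {p q : Finset β} {κ : ℤ} (hq : q ⊆ p)
    (hκ : κ < key (D.dimv q)) {y : MvPolynomial (β ⊕ τ) ℂ} (hy : y ∈ D.J (spl sl q)) :
    D.alphaS q (p \ q) * y ∈ D.Fs key sl p κ :=
  le_iSup₂_of_le (f := fun q (_ : q ∈ {q : Finset β | q ⊆ p ∧ κ < key (D.dimv q)}) =>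
    Ideal.span {D.alphaS q (p \ q)} * D.J (spl sl q)) q ⟨hq, hκ⟩ le_rfl
    (Ideal.mul_mem_mul (Ideal.mem_span_singleton_self _) hy)

theorem ALG_Fs_le {key : (I → ℕ) → ℤ} {sl : β → Λ} {p : Finset β} {κ : ℤ}
    {K : Ideal (MvPolynomial (β ⊕ τ) ℂ)} (h : ∀ q ⊆ p, κ < key (D.dimv q) →
      ∀ y ∈ D.J (spl sl q), D.alphaS q (p \ q) * y ∈ K) : D.Fs key sl p κ ≤ K :=
  iSup₂_le fun q hq => Ideal.span_singleton_mul_le_iff.2 (h q hq.1 hq.2)

theorem ALG_le_Dd (key : (I → ℕ) → ℤ) (sl : β → Λ) {t : Finset (Finset β)} {p : Finset β}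
    (hp : p ∈ t) : D.Fs key sl p (D.last key p) ≤ D.Dd key sl t :=
  le_iSup₂_of_le (f := fun p (_ : p ∈ t) => D.Fs key sl p (D.last key p)) p hp le_rfl

theorem ALG_merge {key : (I → ℕ) → ℤ} {sl : β → Λ} {t : Finset (Finset β)} {a b q r : Finset β}
    (ha : a ∈ t) (hb : IsSlot sl b) (hab : Disjoint a b) (hq : q ⊆ a) (hr : r ⊆ b)
    (hκ : D.last key a < key (D.dimv q)) {sl' : β → Λ'}
    (h : ∀ k l, sl k = sl l → (k ∈ q ↔ l ∈ q) → (k ∈ r ↔ l ∈ r) → sl' k = sl' l)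
    {y : MvPolynomial (β ⊕ τ) ℂ} (hy : y ∈ D.J sl') :
    D.alphaS q (a \ q) * (D.alphaS r (b \ r) * y) ∈ D.Dd key sl t :=
  D.ALG_le_Dd key sl ha (D.ALG_mem_Fs hq hκ (D.ALG_step
    (ALG_slot_disj hb (hab.symm.mono_right hq)) hr
    (fun k l e e' => h k l (ALG_spl.1 e).1 (ALG_spl.1 e).2 e') hy))

theorem ALG_main {th : I → ℤ} {key : (I → ℕ) → ℤ} (hk : D.IsKey th key) {sl : β → Λ}
    (t : Finset (Finset β)) {p p' q : Finset β} (hp : IsSlot sl p) (hp' : p' ⊆ p)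
    (hκ : D.last key p < key (D.dimv p')) (hq : q ⊆ p) (hne : q ≠ p')
    (hle : key (D.dimv p') ≤ key (D.dimv q)) {y : MvPolynomial (β ⊕ τ) ℂ}
    (hy : y ∈ D.J (spl sl q)) :
    D.alphaS q (p \ q) * y ∈ D.Dd key (spl sl p') (insert p' (insert (p \ p') t)) := by
  obtain ⟨-, -, -, -, l1, l2⟩ := hk.split hp' hκ
  have d1 : Disjoint (q ∩ p') (q \ p') := (Finset.disjoint_sdiff_inter q p').symm
  have e1 : q ∩ p' ∪ q \ p' = q := by rw [Finset.union_comm, Finset.sdiff_union_inter]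
  have e2 : p \ q = p' \ (q ∩ p') ∪ (p \ p') \ (q \ p') := by
    ext k
    have := @hp' k
    simp only [Finset.mem_sdiff, Finset.mem_union, Finset.mem_inter]
    tauto
  have d2 : Disjoint (p' \ (q ∩ p')) ((p \ p') \ (q \ p')) :=
    Finset.disjoint_sdiff.mono Finset.sdiff_subset Finset.sdiff_subset
  have e3 : D.alphaS q (p \ q) = D.alphaS (q ∩ p') (p' \ (q ∩ p')) *
      D.alphaS (q \ p') (p' \ (q ∩ p')) * (D.alphaS (q ∩ p') ((p \ p') \ (q \ p')) *
        D.alphaS (q \ p') ((p \ p') \ (q \ p'))) := by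
    rw [← D.ALG_union_left d1, ← D.ALG_union_left d1, e1, ← D.ALG_union_right _ d2, e2]
  have e4 : D.dimv (q ∩ p') + D.dimv (q \ p') = D.dimv q := by rw [← D.dimv_union d1, e1]
  have s2 : q \ p' ⊆ p \ p' := Finset.sdiff_subset_sdiff hq le_rfl
  have hr : ∀ k l, sl k = sl l → (k ∈ q ∩ p' ↔ l ∈ q ∩ p') → (k ∈ q \ p' ↔ l ∈ q \ p') →
      spl sl q k = spl sl q l := fun k l a b c => by
    refine ALG_spl.2 ⟨a, ?_⟩
    rw [← e1, Finset.mem_union, Finset.mem_union, b, c]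
  by_cases h1 : key (D.dimv p') < key (D.dimv (q ∩ p'))
  · have h2 := D.ALG_merge (sl := spl sl p') (Finset.mem_insert_self p' (insert (p \ p') t))
      (ALG_slot_sdiff hp p') Finset.disjoint_sdiff Finset.inter_subset_right s2 (l1 ▸ h1)
      (fun k l a b c => hr k l (ALG_spl.1 a).1 b c) hy
    convert Ideal.mul_mem_left _ (D.alphaS (q \ p') (p' \ (q ∩ p')) *
      D.alphaS (q ∩ p') ((p \ p') \ (q \ p'))) h2 using 1
    rw [e3]
    ring
  by_cases h3 : key 0 < key (D.dimv (q \ p'))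
  · have h2 := D.ALG_merge (sl := spl sl p')
      (Finset.mem_insert_of_mem (b := p') (Finset.mem_insert_self (p \ p') t))
      (ALG_slot_sub hp hp') Finset.sdiff_disjoint s2 Finset.inter_subset_right (l2 ▸ h3)
      (fun k l a b c => hr k l (ALG_spl.1 a).1 c b) hy
    convert Ideal.mul_mem_left _ (D.alphaS (q \ p') (p' \ (q ∩ p')) *
      D.alphaS (q ∩ p') ((p \ p') \ (q \ p'))) h2 using 1
    rw [e3]
    ring
  exfalso
  obtain ⟨h4, h5⟩ := hk.num (D.dimv_le p') (e4 ▸ D.dimv_le q)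
    (D.dimv_mono Finset.inter_subset_right) (not_lt.1 h1)
    ((hk.le_zero_iff (D.dimv_le _)).1 (not_lt.1 h3))
  rw [e4] at h4 h5
  obtain ⟨h6, h7⟩ := h5 (le_antisymm h4 hle)
  have h8 : q ∩ p' = p' := Finset.eq_of_subset_of_card_le Finset.inter_subset_right (by
    rw [← D.sum_dimv, ← D.sum_dimv, h6])
  have h9 : q \ p' = ∅ := Finset.card_eq_zero.1 (by
    rw [← D.sum_dimv, h7]
    simp)
  exact hne (by rw [← e1, h8, h9, Finset.union_empty])

theorem ALG_rename_J {g : Equiv.Perm β} (hg : ∀ k, D.v (g k) = D.v k) {sl : β → Λ}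
    {y : MvPolynomial (β ⊕ τ) ℂ} (hy : y ∈ D.J sl) :
    rename (Equiv.sumCongr g (Equiv.refl τ)) y ∈ D.J (sl ∘ g.symm) := by
  have ha : ∀ k l, rename (Equiv.sumCongr g (Equiv.refl τ)) (D.alpha k l) =
      D.alpha (g k) (g l) := fun k l => by
    simpa [alphaS] using D.rename_alphaS hg {k} {l}
  have h : D.J sl ≤ (D.J (sl ∘ g.symm)).comap (rename (Equiv.sumCongr g (Equiv.refl τ))) := by
    refine Ideal.span_le.2 ?_
    rintro _ ⟨ρ, rfl⟩
    refine Ideal.subset_span ⟨ρ ∘ g.symm, Eq.symm ?_⟩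
    rw [erho, erho, map_prod]
    refine Finset.prod_equiv (g.prodCongr g) (fun z => by simp) fun z _ => ?_
    simp only [eps, Equiv.prodCongr_apply, Prod.map_fst, Prod.map_snd, Function.comp_apply,
      Equiv.symm_apply_apply, hg]
    split_ifs
    · exact ha _ _
    · exact D.rename_wt g _ _ _
    · exact map_one _
  exact h hy

theorem ALG_off {th : I → ℤ} {key : (I → ℕ) → ℤ} (hk : D.IsKey th key) {sl : β → Λ}
    (t : Finset (Finset β)) {p p' : Finset β} (hp : IsSlot sl p) (hp' : p' ⊆ p)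
    (hκ : D.last key p < key (D.dimv p')) {w : Equiv.Perm (β ⊕ τ)} (hw : w ∈ Wl (D.lab sl))
    (hw' : w ∉ Wl (D.lab (spl sl p'))) {y : MvPolynomial (β ⊕ τ) ℂ} (hy : y ∈ D.J (spl sl p')) :
    rename w (y * D.alphaS p' (p \ p')) ∈
      D.Dd key (spl sl p') (insert p' (insert (p \ p') t)) := by
  obtain ⟨g, hg, rfl⟩ := D.mem_Wl_lab.1 hw
  have e1 : p.map g.toEmbedding = p := by
    obtain ⟨j, rfl⟩ := hp
    ext k
    simp only [Finset.mem_map_equiv, Finset.mem_filter, Finset.mem_univ, true_and]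
    rw [← (hg (g.symm k)).2, Equiv.apply_symm_apply]
  have e2 : D.dimv (p'.map g.toEmbedding) = D.dimv p' := by
    funext i
    simp only [dimv, Finset.filter_map, Finset.card_map, Function.comp_def,
      Equiv.coe_toEmbedding, fun k => (hg k).1]
  rw [map_mul, D.rename_alphaS fun k => (hg k).1, Finset.map_sdiff, e1, mul_comm]
  refine D.ALG_main hk t hp hp' hκ (e1 ▸ Finset.map_subset_map.2 hp') (fun e => hw' ?_)
    (by rw [e2]) (D.J_mono (fun k l e => ?_) (D.ALG_rename_J (fun k => (hg k).1) hy))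
  · refine D.mem_Wl_lab.2 ⟨g, fun k => ⟨(hg k).1, ALG_spl.2 ⟨(hg k).2, ?_⟩⟩, rfl⟩
    conv_lhs => rw [← e, Finset.mem_map_equiv, Equiv.symm_apply_apply]
  · obtain ⟨a, b⟩ := ALG_spl.1 e
    rw [Finset.mem_map_equiv, Finset.mem_map_equiv] at b
    refine ALG_spl.2 ⟨?_, b⟩
    rw [← (hg (g.symm k)).2, ← (hg (g.symm l)).2, Equiv.apply_symm_apply, Equiv.apply_symm_apply, a]

/-- (ALG). -/
theorem alg {th : I → ℤ} {key : (I → ℕ) → ℤ} (hk : D.IsKey th key) {sl : β → Λ}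
    {t : Finset (Finset β)} (ht : ∀ p ∈ t, IsSlot sl p) {p p' : Finset β} (hp : IsSlot sl p)
    (hpt : p ∉ t) (hp' : p' ⊆ p) (hκ : D.last key p < key (D.dimv p'))
    (aa : Set (MvPolynomial τ ℂ)) {y : MvPolynomial (β ⊕ τ) ℂ} (hy : y ∈ D.Y (spl sl p'))
    (h : Alt (D.lab sl) (y * D.alphaS p' (p \ p')) ∈ D.Dd key sl t ⊔
      D.Fs key sl p (key (D.dimv p')) ⊔ Ideal.span (rename Sum.inr '' aa) * D.J sl) :
    y ∈ D.Dd key (spl sl p') (insert p' (insert (p \ p') t)) ⊔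
      Ideal.span (rename Sum.inr '' aa) * D.J (spl sl p') := by
  obtain ⟨hyJ, hya⟩ := D.mem_Y_iff.1 hy
  have hn := (hk.split hp' hκ).2.2.1
  have ht' : ∀ r ∈ insert p' (insert (p \ p') t), IsSlot (spl sl p') r := by
    intro r hr
    rcases Finset.mem_insert.1 hr with rfl | hr
    · exact ALG_slot_sub hp hp'
    rcases Finset.mem_insert.1 hr with rfl | hr
    · exact ALG_slot_sdiff hp p'
    · exact ((hp.spl hp' hn).2.2 r (ht r hr) fun e => hpt (e ▸ hr)).1
  have hs : ∀ k l, spl sl p' k = spl sl p' l → (k ∈ p' ↔ l ∈ p') := fun k l e => (ALG_spl.1 e).2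
  have hr : ∀ k l, spl sl p' k = spl sl p' l → sl k = sl l := fun k l e => (ALG_spl.1 e).1
  refine D.ALG_nzd (q := p') (r := p \ p') Finset.disjoint_sdiff (sup_le
    ((D.ALG_St_Dd key ht' hs).trans (ALG_St_mono le_sup_left))
    ((ALG_St_mul (ALG_St_span ?_) (D.ALG_St_J hs)).trans (ALG_St_mono le_sup_right))) y ?_
  · rintro _ ⟨a, -, rfl⟩
    exact ALG_d_inr p' a
  have h1 : D.Dd key sl t ≤ D.Dd key (spl sl p') (insert p' (insert (p \ p') t)) :=
    iSup₂_le fun r hr' => D.ALG_Fs_le fun q hq hκ' z hz =>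
      D.ALG_le_Dd key _ (Finset.mem_insert_of_mem (Finset.mem_insert_of_mem hr'))
        (D.ALG_mem_Fs hq hκ' (D.J_mono (fun k l e =>
          ALG_spl.2 ⟨hr k l (ALG_spl.1 e).1, (ALG_spl.1 e).2⟩) hz))
  have h2 : D.Fs key sl p (key (D.dimv p')) ≤
      D.Dd key (spl sl p') (insert p' (insert (p \ p') t)) :=
    D.ALG_Fs_le fun q hq hκ' z hz =>
      D.ALG_main hk t hp hp' hκ hq (fun e => lt_irrefl _ (e ▸ hκ')) hκ'.le hz
  have h3 := sup_le_sup (sup_le h1 h2) (Ideal.mul_mono_right (D.J_mono hr)) h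
  rw [Alt_apply, ← Finset.sum_sdiff (Wl_mono (D.refines_lab hr)), Ideal.add_mem_iff_right,
    ← Alt_apply, Alt_of_anti fun w hw => by
      rw [map_mul, hya w hw, D.alphaS_mem_Rinv hp hp' w hw, smul_mul_assoc]] at h3
  · rw [mul_comm _ y]
    exact ALG_unit (card_Wl_ne_zero _) h3
  · refine sum_mem fun w hw => ?_
    obtain ⟨h4, h5⟩ := Finset.mem_sdiff.1 hw
    rw [smul_eq_C_mul]
    exact Ideal.mul_mem_left _ _ (Ideal.mem_sup_left (D.ALG_off hk t hp hp' hκ h4 h5 hyJ))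

/-- The converse inclusion. -/
theorem alg_conv {th : I → ℤ} {key : (I → ℕ) → ℤ} (hk : D.IsKey th key) {sl : β → Λ}
    {t : Finset (Finset β)} (ht : ∀ p ∈ t, IsSlot sl p) {p p' : Finset β} (hp : IsSlot sl p)
    (hpt : p ∉ t) (hp' : p' ⊆ p) (hκ : D.last key p < key (D.dimv p'))
    {y : MvPolynomial (β ⊕ τ) ℂ} (hy : y ∈ D.Dd key (spl sl p') (insert p' (insert (p \ p') t))) :
    y * D.alphaS p' (p \ p') ∈ D.Dd key sl t ⊔ D.Fs key sl p (key (D.dimv p')) := by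
  obtain ⟨-, -, hn, -, l1, l2⟩ := hk.split hp' hκ
  have h : D.Dd key (spl sl p') (insert p' (insert (p \ p') t)) ≤
      Submodule.comap (LinearMap.toSpanSingleton _ _ (D.alphaS p' (p \ p')))
        (D.Dd key sl t ⊔ D.Fs key sl p (key (D.dimv p'))) := by
    refine iSup₂_le fun r hr => D.ALG_Fs_le fun q hq hκ' z hz => ?_
    show D.alphaS q (r \ q) * z * D.alphaS p' (p \ p') ∈
      D.Dd key sl t ⊔ D.Fs key sl p (key (D.dimv p'))
    rcases Finset.mem_insert.1 hr with rfl | hr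
    · have e1 : (p \ q) \ (r \ q) = p \ r := by
        ext k
        have := @hq k
        simp only [Finset.mem_sdiff]
        tauto
      have e2 : p \ q = r \ q ∪ p \ r := by
        ext k
        have := @hq k
        have := @hp' k
        simp only [Finset.mem_sdiff, Finset.mem_union]
        tauto
      have h1 := D.ALG_step (ALG_slot_sdiff hp q) (Finset.sdiff_subset_sdiff hp' le_rfl)
        (fun k l a b => by
          obtain ⟨a1, a2⟩ := ALG_spl.1 a
          refine ALG_spl.2 ⟨ALG_spl.2 ⟨a1, ?_⟩, a2⟩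
          rw [← Finset.union_sdiff_of_subset hq, Finset.mem_union, Finset.mem_union, a2, b]) hz
      have h2 := D.ALG_mem_Fs (hq.trans hp') (l1 ▸ hκ') h1
      rw [e1, e2, D.ALG_union_right _ (Finset.disjoint_sdiff.mono_left Finset.sdiff_subset)] at h2
      refine Ideal.mem_sup_right ?_
      convert h2 using 1
      conv_lhs => rw [← Finset.union_sdiff_of_subset hq]
      rw [D.ALG_union_left Finset.disjoint_sdiff, Finset.union_sdiff_of_subset hq]
      ring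
    rcases Finset.mem_insert.1 hr with rfl | hr
    · have d1 : Disjoint p' q := Finset.disjoint_sdiff.mono_right hq
      have s1 : p' ∪ q ⊆ p := Finset.union_subset hp' (hq.trans Finset.sdiff_subset)
      have e1 : (p' ∪ q) \ p' = q := Finset.union_sdiff_cancel_left d1
      have h1 := D.ALG_step (ALG_slot_sub hp s1) Finset.subset_union_left
        (fun k l a b => by
          obtain ⟨a1, a2⟩ := ALG_spl.1 a
          refine ALG_spl.2 ⟨ALG_spl.2 ⟨a1, b⟩, ?_⟩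
          rw [← e1, Finset.mem_sdiff, Finset.mem_sdiff, a2, b]) hz
      have h0 : 0 < thd th (D.dimv q) :=
        not_le.1 fun e => not_le.2 (l2 ▸ hκ') ((hk.le_zero_iff (D.dimv_le q)).2 e)
      have h2 := D.ALG_mem_Fs s1 (hk.mono _ (D.dimv_le p') _ (D.dimv_le (p' ∪ q)) (by
        rw [D.dimv_union d1, thd_add]
        omega)) h1
      have e2 : p \ (p' ∪ q) = (p \ p') \ q := by
        ext k
        simp only [Finset.mem_sdiff, Finset.mem_union]
        tauto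
      rw [e1, e2, D.ALG_union_left d1] at h2
      refine Ideal.mem_sup_right ?_
      convert h2 using 1
      conv_lhs => rw [← Finset.union_sdiff_of_subset hq]
      rw [D.ALG_union_right _ Finset.disjoint_sdiff, Finset.union_sdiff_of_subset hq]
      ring
    · have d1 := ((hp.spl hp' hn).2.2 r (ht r hr) fun e => hpt (e ▸ hr)).2
      have h1 := D.ALG_step (ALG_slot_disj hp (d1.symm.mono_right hq)) hp'
        (fun k l a b => ALG_spl.2 ⟨ALG_spl.2 ⟨(ALG_spl.1 a).1, b⟩, (ALG_spl.1 a).2⟩) hz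
      refine Ideal.mem_sup_left (D.ALG_le_Dd key sl hr ?_)
      rw [mul_assoc, mul_comm z]
      exact D.ALG_mem_Fs hq hκ' h1
  exact h hy

end HD

end Pool.Agent.HK
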