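import Pool.Agent.P.MP_1206ce_ag.AH.Defs
import Pool.Agent.P.MP_1206ce_ag.Alg.Artin

/-! Keys, strings, and the basic properties of the ideals `J`, `Fs`, `Dd`. -/

noncomputable section

open MvPolynomial

namespace Pool.Agent.HK

/-- An enumeration of every fibre of a labelling. -/
theorem Basic_idx {β L : Type} [Fintype β] [DecidableEq β] [DecidableEq L] (lab : β → L) :
    ∃ idx : β → ℕ, (∀ k, idx k < (Finset.univ.filter fun l => lab l = lab k).card) ∧
      (∀ k l, lab k = lab l → idx k = idx l → k = l) ∧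
      ∀ c n, n < (Finset.univ.filter fun l => lab l = c).card → ∃ l, lab l = c ∧ idx l = n := by
  have h : ∀ c : L, ∃ e : β → ℕ,
      (∀ k, lab k = c → e k < (Finset.univ.filter fun l => lab l = c).card) ∧
      (∀ k l, lab k = c → lab l = c → e k = e l → k = l) ∧
      ∀ n, n < (Finset.univ.filter fun l => lab l = c).card → ∃ l, lab l = c ∧ e l = n := by
    intro c
    set s := Finset.univ.filter fun l => lab l = c with hs
    have hm : ∀ k, k ∈ s ↔ lab k = c := fun k => by simp [hs]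
    refine ⟨fun k => if h : k ∈ s then (s.equivFin ⟨k, h⟩ : ℕ) else 0, fun k hk => ?_,
      fun k l hk hl e => ?_, fun n hn => ?_⟩
    · simp only [dif_pos ((hm k).2 hk)]
      exact Fin.isLt _
    · simp only [dif_pos ((hm k).2 hk), dif_pos ((hm l).2 hl)] at e
      exact congrArg Subtype.val (s.equivFin.injective (Fin.ext e))
    · refine ⟨(s.equivFin.symm ⟨n, hn⟩).1, (hm _).1 (s.equivFin.symm ⟨n, hn⟩).2, ?_⟩
      simp only [dif_pos (s.equivFin.symm ⟨n, hn⟩).2, Subtype.coe_eta, Equiv.apply_symm_apply]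
  choose e h1 h2 h3 using h
  refine ⟨fun k => e (lab k) k, fun k => h1 _ k rfl, fun k l hkl he => ?_, fun c n hn => ?_⟩
  · exact h2 (lab l) k l hkl rfl (by simpa only [hkl] using he)
  · obtain ⟨l, hl, hn'⟩ := h3 c n hn
    exact ⟨l, hl, by simpa only [hl] using hn'⟩

/-- Two labellings with fibres of the same size differ by a permutation. -/
theorem Basic_perm {β L : Type} [Fintype β] [DecidableEq L] (a b : β → L)
    (h : ∀ c, (Finset.univ.filter fun k => a k = c).card =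
      (Finset.univ.filter fun k => b k = c).card) : ∃ g : Equiv.Perm β, ∀ k, b (g k) = a k :=
  ⟨Equiv.ofFiberEquiv fun c => Fintype.equivOfCardEq (by
    rw [Fintype.card_subtype, Fintype.card_subtype, h c]), fun k => Equiv.ofFiberEquiv_map _ k⟩

/-- Homogeneous ideals. -/
def Basic_Hom {V : Type} (A : Ideal (MvPolynomial V ℂ)) : Prop :=
  ∀ y ∈ A, ∀ d, homogeneousComponent d y ∈ A

theorem Basic_Hom_span {V : Type} {S : Set (MvPolynomial V ℂ)}
    (h : ∀ e ∈ S, ∃ d, e.IsHomogeneous d) : Basic_Hom (Ideal.span S) := by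
  have key : ∀ y ∈ Ideal.span S, ∀ c d, homogeneousComponent d (c * y) ∈ Ideal.span S := by
    intro y hy
    induction hy using Submodule.span_induction with
    | mem e he =>
      intro c d
      obtain ⟨n, hn⟩ := h e he
      rw [Artin_hc_mul c hn]
      exact Ideal.mul_mem_left _ _ (Ideal.subset_span he)
    | zero => intro c d; simp
    | add a b _ _ ha hb => intro c d; rw [mul_add, map_add]; exact add_mem (ha c d) (hb c d)
    | smul a b _ hb => intro c d; rw [smul_eq_mul, ← mul_assoc]; exact hb _ d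
  intro y hy d
  simpa using key y hy 1 d

theorem Basic_Hom_iSup {V : Type} {ι : Sort*} {A : ι → Ideal (MvPolynomial V ℂ)}
    (h : ∀ i, Basic_Hom (A i)) : Basic_Hom (⨆ i, A i) := by
  intro y hy d
  refine Submodule.iSup_induction A (motive := fun y => homogeneousComponent d y ∈ ⨆ i, A i) hy
    (fun i y hy => Ideal.mem_iSup_of_mem i (h i y hy d)) (by simp) fun a b ha hb => ?_
  rw [map_add]
  exact add_mem ha hb

theorem Basic_hom_prod {V ι : Type} (s : Finset ι) (f : ι → MvPolynomial V ℂ)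
    (h : ∀ i ∈ s, ∃ d, (f i).IsHomogeneous d) : ∃ d, (∏ i ∈ s, f i).IsHomogeneous d :=
  Finset.prod_induction f (fun y => ∃ d, y.IsHomogeneous d)
    (fun _ _ ⟨_, ha⟩ ⟨_, hb⟩ => ⟨_, ha.mul hb⟩) ⟨0, isHomogeneous_one _ _⟩ h

theorem Basic_Alt_mem {V Λ : Type} [Fintype V] [DecidableEq V] {lab : V → Λ}
    {A : Ideal (MvPolynomial V ℂ)} (h : ∀ w ∈ Wl lab, ∀ y ∈ A, rename w y ∈ A)
    {y : MvPolynomial V ℂ} (hy : y ∈ A) : Alt lab y ∈ A := by
  rw [Alt_apply]
  exact Submodule.sum_mem _ fun w hw => Submodule.smul_of_tower_mem _ _ (h w hw y hy)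

namespace HD

variable {β I Ar τ Λ Λ' : Type} [Fintype β] [DecidableEq β] [Fintype I] [DecidableEq I] [Fintype Ar]
  [DecidableEq Ar] [Fintype τ] [DecidableEq τ] [DecidableEq Λ] [DecidableEq Λ'] (D : HD β I Ar τ)

/-- Elements of the Weyl group come from permutations of the basis. -/
theorem mem_Wl_lab {sl : β → Λ} {w : Equiv.Perm (β ⊕ τ)} : w ∈ Wl (D.lab sl) ↔
    ∃ g : Equiv.Perm β, (∀ k, D.v (g k) = D.v k ∧ sl (g k) = sl k) ∧
      w = Equiv.sumCongr g (Equiv.refl τ) := by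
  rw [mem_Wl]
  constructor
  · intro h
    have h1 : Set.MapsTo w (Set.range Sum.inl) (Set.range Sum.inl) := by
      rintro _ ⟨k, rfl⟩
      have := h (Sum.inl k)
      rcases hw : w (Sum.inl k) with l | a
      · exact ⟨l, rfl⟩
      · rw [hw] at this; simp [lab] at this
    obtain ⟨⟨g, g'⟩, rfl⟩ := Equiv.Perm.mem_sumCongrHom_range_of_perm_mapsTo_inl h1
    refine ⟨g, fun k => ?_, ?_⟩
    · simpa [lab] using h (Sum.inl k)
    · have : g' = Equiv.refl τ := Equiv.ext fun a => by simpa [lab] using h (Sum.inr a)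
      subst this
      rfl
  · rintro ⟨g, hg, rfl⟩ x
    rcases x with k | a
    · simp [lab, hg k]
    · rfl

theorem Basic_wrho (g : Equiv.Perm β) (ρ : β → ℕ) :
    wrho (Equiv.sumCongr g (Equiv.refl τ)) ρ = fun k => ρ (g k) := rfl

theorem Basic_wrho_inv (g : Equiv.Perm β) (ρ : β → ℕ) :
    wrho (Equiv.sumCongr g (Equiv.refl τ))⁻¹ ρ = fun k => ρ (g.symm k) := rfl

theorem Basic_size_le {d : I → ℕ} (hd : d ≤ D.dimv Finset.univ) :
    ∑ i, d i ≤ ∑ i, D.dimv Finset.univ i := Finset.sum_le_sum fun i _ => hd i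

theorem exists_key (th : I → ℤ) : ∃ key, D.IsKey th key := by
  obtain ⟨c, hc⟩ := exists_injective_nat (I → ℕ)
  obtain ⟨M, hM⟩ := ((Set.finite_Iic (D.dimv Finset.univ)).image c).bddAbove
  have hM' : ∀ d ≤ D.dimv Finset.univ, (c d : ℤ) < (M : ℤ) + 1 := fun d hd => by
    have : c d ≤ M := hM ⟨d, hd, rfl⟩
    omega
  set N : ℕ := ∑ i, D.dimv Finset.univ i with hN
  set key : (I → ℕ) → ℤ := fun d =>
    (thd th d * ((N : ℤ) + 1) - ((∑ i, d i : ℕ) : ℤ)) * ((M : ℤ) + 1) + c d with hkey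
  have lt : ∀ d ≤ D.dimv Finset.univ, ∀ d' : I → ℕ,
      thd th d * ((N : ℤ) + 1) - ((∑ i, d i : ℕ) : ℤ) <
        thd th d' * ((N : ℤ) + 1) - ((∑ i, d' i : ℕ) : ℤ) → key d < key d' := by
    intro d hd d' h
    have h1 := hM' d hd
    have h2 : (0 : ℤ) ≤ c d' := Int.natCast_nonneg _
    have h3 := mul_le_mul_of_nonneg_right (Int.add_one_le_of_lt h)
      (show (0 : ℤ) ≤ (M : ℤ) + 1 by positivity)
    simp only [hkey]
    linarith
  have mono : ∀ d ≤ D.dimv Finset.univ, ∀ d' ≤ D.dimv Finset.univ, thd th d < thd th d' →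
      key d < key d' := by
    intro d hd d' hd' h
    refine lt d hd d' ?_
    have h1 : ((∑ i, d' i : ℕ) : ℤ) ≤ N := by exact_mod_cast D.Basic_size_le hd'
    have h2 : (0 : ℤ) ≤ ((∑ i, d i : ℕ) : ℤ) := Int.natCast_nonneg _
    have h3 := mul_le_mul_of_nonneg_right (Int.add_one_le_of_lt h)
      (show (0 : ℤ) ≤ (N : ℤ) + 1 by positivity)
    linarith
  have size : ∀ d ≤ D.dimv Finset.univ, ∀ d' ≤ D.dimv Finset.univ, thd th d = thd th d' →
      ∑ i, d' i < ∑ i, d i → key d < key d' := by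
    intro d hd d' _ h h'
    refine lt d hd d' ?_
    have h1 : ((∑ i, d' i : ℕ) : ℤ) < ((∑ i, d i : ℕ) : ℤ) := by exact_mod_cast h'
    rw [h]
    linarith
  refine ⟨key, fun d hd d' hd' h => ?_, mono, size⟩
  have e1 : thd th d = thd th d' := by
    rcases lt_trichotomy (thd th d) (thd th d') with h1 | h1 | h1
    · exact absurd h (mono d hd d' hd' h1).ne
    · exact h1
    · exact absurd h (mono d' hd' d hd h1).ne'
  have e2 : ∑ i, d i = ∑ i, d' i := by
    rcases lt_trichotomy (∑ i, d i) (∑ i, d' i) with h1 | h1 | h1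
    · exact absurd h (size d' hd' d hd e1.symm h1).ne'
    · exact h1
    · exact absurd h (size d hd d' hd' e1 h1).ne
  simp only [hkey, e1, e2, add_right_inj, Nat.cast_inj] at h
  exact hc h
theorem exists_kr (sl : β → Λ) : ∃ kr, D.IsKr sl kr := by
  let r : Setoid (β → ℕ) :=
    { r := fun ρ ρ' => ∃ g : Equiv.Perm β, (∀ k, D.v (g k) = D.v k ∧ sl (g k) = sl k) ∧
        ρ' = fun k => ρ (g k)
      iseqv := ⟨fun ρ => ⟨Equiv.refl β, fun _ => ⟨rfl, rfl⟩, rfl⟩, by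
        rintro ρ _ ⟨g, hg, rfl⟩
        refine ⟨g.symm, fun k => ?_, by simp⟩
        have := hg (g.symm k)
        rw [Equiv.apply_symm_apply] at this
        exact ⟨this.1.symm, this.2.symm⟩, by
        rintro ρ _ _ ⟨g, hg, rfl⟩ ⟨g', hg', rfl⟩
        exact ⟨g'.trans g, fun k => ⟨(hg _).1.trans (hg' k).1, (hg _).2.trans (hg' k).2⟩, rfl⟩⟩ }
  obtain ⟨c, hc⟩ := exists_injective_nat (Quotient r)
  let f : (β → ℕ) → ℕ ×ₗ ℕ := fun ρ => toLex (∑ k, ρ k, c (Quotient.mk r ρ))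
  have fin : ∀ ρ, {ρ' | f ρ' < f ρ}.Finite := fun ρ => by
    refine (Set.finite_Iic (fun _ : β => ∑ k, ρ k)).subset fun ρ' h k => ?_
    have h1 : ∑ k, ρ' k ≤ ∑ k, ρ k := by
      rcases Prod.Lex.toLex_lt_toLex.1 h with h | h
      · exact h.le
      · exact h.1.le
    exact (Finset.single_le_sum (f := ρ') (fun _ _ => Nat.zero_le _) (Finset.mem_univ k)).trans h1
  have mono : ∀ ρ ρ', f ρ < f ρ' → {x | f x < f ρ}.ncard < {x | f x < f ρ'}.ncard :=
    fun ρ ρ' h => Set.ncard_lt_ncard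
      ⟨fun x hx => lt_trans hx h, fun hs => lt_irrefl (f ρ) (hs (a := ρ) h)⟩
      (fin ρ')
  refine ⟨fun ρ => {x | f x < f ρ}.ncard, fun ρ ρ' => ⟨fun h => ?_, ?_⟩, fun ρ ρ' h =>
    mono ρ ρ' (Prod.Lex.toLex_lt_toLex.2 (Or.inl h))⟩
  · have e : f ρ = f ρ' := by
      rcases lt_trichotomy (f ρ) (f ρ') with h1 | h1 | h1
      · exact absurd h (mono _ _ h1).ne
      · exact h1
      · exact absurd h (mono _ _ h1).ne'
    have e2 : c (Quotient.mk r ρ) = c (Quotient.mk r ρ') := congrArg (fun x => (ofLex x).2) e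
    obtain ⟨g, hg, rfl⟩ := Quotient.exact (hc e2)
    exact ⟨_, D.mem_Wl_lab.2 ⟨g, hg, rfl⟩, rfl⟩
  · rintro ⟨w, hw, rfl⟩
    obtain ⟨g, hg, rfl⟩ := D.mem_Wl_lab.1 hw
    have e1 : Quotient.mk r ρ = Quotient.mk r fun k => ρ (g k) := Quotient.sound ⟨g, hg, rfl⟩
    have e : f ρ = f fun k => ρ (g k) := by
      simp only [f, e1, Equiv.sum_comp g ρ]
    rw [Basic_wrho, ← e]
theorem exists_str {sl : β → Λ} {ρ : β → ℕ} (h : D.Decr sl ρ) : ∃ bot, D.IsStr sl ρ bot := by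
  obtain ⟨idx, h1, h2, h3⟩ := Basic_idx fun k => (D.v k, sl k, ρ k)
  simp only [Prod.mk.injEq, Prod.forall, and_imp] at h1 h2 h3
  have anti : ∀ (i : I) (j : Λ), Antitone fun m =>
      (Finset.univ.filter fun k => D.v k = i ∧ sl k = j ∧ ρ k = m).card :=
    fun i j => antitone_nat_of_succ_le fun m => h i j m
  have ex : ∀ k, ∀ m ≤ ρ k, ∃ l, (D.v l = D.v k ∧ sl l = sl k ∧ ρ l = m) ∧ idx l = idx k :=
    fun k m hm => h3 _ _ _ _ ((h1 k).trans_le (anti _ _ hm))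
  choose bot hb hi using fun k => ex k 0 (Nat.zero_le _)
  have eqb : ∀ k l, D.v k = D.v l → sl k = sl l → idx k = idx l → bot k = bot l :=
    fun k l a b c => h2 _ _ ((hb k).1.trans (a.trans (hb l).1.symm))
      ((hb k).2.1.trans (b.trans (hb l).2.1.symm)) ((hb k).2.2.trans (hb l).2.2.symm)
      ((hi k).trans (c.trans (hi l).symm))
  refine ⟨bot, fun k => (hb k).1, fun k => (hb k).2.1, fun k => (hb k).2.2,
    fun k => eqb _ _ (hb k).1 (hb k).2.1 (hi k), fun k l e e' => ?_, fun k m hm => ?_⟩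
  · exact h2 k l (by rw [← (hb k).1, e, (hb l).1]) (by rw [← (hb k).2.1, e, (hb l).2.1]) e'
      (by rw [← hi k, e, hi l])
  · obtain ⟨l, hl, hl'⟩ := ex k m hm
    exact ⟨l, eqb _ _ hl.1 hl.2.1 hl', hl.2.2⟩
theorem IsStr.bot_eq {D : HD β I Ar τ} {sl : β → Λ} {ρ : β → ℕ} {bot : β → β}
    (h : D.IsStr sl ρ bot) (k : β) : bot k = k ↔ ρ k = 0 := 
  ⟨fun e => by rw [← e]; exact h.lev k, fun e => h.inj _ _ (h.idem k) ((h.lev k).trans e.symm)⟩
theorem Decr.lt_card {D : HD β I Ar τ} {sl : β → Λ} {ρ : β → ℕ} (h : D.Decr sl ρ) (k : β) :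
    ρ k < Fintype.card β := by
  obtain ⟨bot, hb⟩ := D.exists_str h
  have h1 : Finset.range (ρ k + 1) ⊆ Finset.univ.image ρ := fun m hm => by
    obtain ⟨l, -, hl⟩ := hb.gap k m (Nat.lt_succ_iff.1 (Finset.mem_range.1 hm))
    exact Finset.mem_image.2 ⟨l, Finset.mem_univ _, hl⟩
  have h2 := (Finset.card_le_card h1).trans Finset.card_image_le
  rwa [Finset.card_range, Finset.card_univ] at h2
theorem Decr.wrho {D : HD β I Ar τ} {sl : β → Λ} {ρ : β → ℕ} (h : D.Decr sl ρ)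
    {w : Equiv.Perm (β ⊕ τ)} (hw : w ∈ Wl (D.lab sl)) : D.Decr sl (wrho w ρ) := by
  obtain ⟨g, hg, rfl⟩ := D.mem_Wl_lab.1 hw
  have e : ∀ (i : I) (j : Λ) (m : ℕ),
      (Finset.univ.filter fun k => D.v k = i ∧ sl k = j ∧ ρ (g k) = m).card =
        (Finset.univ.filter fun k => D.v k = i ∧ sl k = j ∧ ρ k = m).card :=
    fun i j m => Finset.card_equiv g fun k => by simp [hg k]
  intro i j m
  exact (e i j (m + 1)).le.trans ((h i j m).trans (e i j m).ge)
theorem refines_lab {sl : β → Λ} {sl' : β → Λ'} (h : ∀ k l, sl' k = sl' l → sl k = sl l) :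
    Refines (D.lab sl') (D.lab sl) := by
  rintro (k | a) (l | b) e
  · simp only [lab, Sum.map_inl, Sum.inl.injEq, Prod.mk.injEq] at e ⊢
    exact ⟨e.1, h k l e.2⟩
  · simp [lab] at e
  · simp [lab] at e
  · simpa [lab] using e
theorem refines_lab0 (sl : β → Λ) : Refines (D.lab sl) D.lab0 := 
  D.refines_lab fun _ _ _ => rfl
theorem X_inr_mem_Rinv (sl : β → Λ) (a : τ) :
    (X (Sum.inr a) : MvPolynomial (β ⊕ τ) ℂ) ∈ Rinv (D.lab sl) := by
  refine X_mem_Rinv ?_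
  rintro (k | b) e
  · simp [lab] at e
  · simpa [lab] using e
theorem hb_ne_zero : D.hb ≠ 0 := X_ne_zero _

theorem dimv_le (q : Finset β) : D.dimv q ≤ D.dimv Finset.univ := fun _ =>
  Finset.card_le_card (Finset.filter_subset_filter _ (Finset.subset_univ q))
theorem dimv_mono {q q' : Finset β} (h : q ⊆ q') : D.dimv q ≤ D.dimv q' := fun _ =>
  Finset.card_le_card (Finset.filter_subset_filter _ h)
theorem dimv_union {q q' : Finset β} (h : Disjoint q q') :
    D.dimv (q ∪ q') = D.dimv q + D.dimv q' := by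
  funext i
  simp only [dimv, Pi.add_apply]
  rw [Finset.filter_union, Finset.card_union_of_disjoint (Finset.disjoint_filter_filter h)]
theorem sum_dimv (q : Finset β) : ∑ i, D.dimv q i = q.card := 
  (Finset.card_eq_sum_card_fiberwise (f := D.v) fun _ _ => Finset.mem_coe.2 (Finset.mem_univ _)).symm
theorem exists_dimv {p : Finset β} {d : I → ℕ} (h : d ≤ D.dimv p) : ∃ q ⊆ p, D.dimv q = d := by
  choose q hq hc using fun i => Finset.exists_subset_card_eq (h i)
  refine ⟨Finset.univ.biUnion q, Finset.biUnion_subset.2 fun i _ =>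
    (hq i).trans (Finset.filter_subset _ _), funext fun i => ?_⟩
  rw [← hc i, dimv]
  congr 1
  ext k
  simp only [Finset.mem_filter, Finset.mem_biUnion, Finset.mem_univ, true_and]
  refine ⟨fun ⟨⟨j, hj⟩, e⟩ => ?_, fun hk => ⟨⟨i, hk⟩, (Finset.mem_filter.1 (hq i hk)).2⟩⟩
  rwa [← e, (Finset.mem_filter.1 (hq j hj)).2]
theorem exists_perm_of_dimv {sl : β → Λ} {p q q' : Finset β} (hp : IsSlot sl p) (hq : q ⊆ p)
    (hq' : q' ⊆ p) (h : D.dimv q = D.dimv q') : ∃ g : Equiv.Perm β,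
      (∀ k, D.v (g k) = D.v k ∧ sl (g k) = sl k) ∧ q.map g.toEmbedding = q' := by
  obtain ⟨j₀, rfl⟩ := hp
  have pos : ∀ q : Finset β, q ⊆ Finset.univ.filter (fun k => sl k = j₀) → ∀ (i : I) (j : Λ),
      ((Finset.univ.filter fun k => D.v k = i ∧ sl k = j).filter fun k => k ∈ q).card =
        if j = j₀ then D.dimv q i else 0 := by
    intro q hq i j
    have hs : ∀ k ∈ q, sl k = j₀ := fun k hk => (Finset.mem_filter.1 (hq hk)).2
    split_ifs with e
    · rw [dimv]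
      congr 1
      ext k
      simp only [Finset.mem_filter, Finset.mem_univ, true_and]
      exact ⟨fun h => ⟨h.2, h.1.1⟩, fun h => ⟨⟨h.2, (hs k h.1).trans e.symm⟩, h.1⟩⟩
    · rw [Finset.card_eq_zero, Finset.filter_eq_empty_iff]
      intro k hk hk'
      exact e ((Finset.mem_filter.1 hk).2.2.symm.trans (hs k hk'))
  obtain ⟨g, hg⟩ := Basic_perm (fun k => (D.v k, sl k, decide (k ∈ q)))
    (fun k => (D.v k, sl k, decide (k ∈ q'))) (by
      rintro ⟨i, j, b⟩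
      have e1 := pos q hq i j
      have e2 := pos q' hq' i j
      have e3 := Finset.card_filter_add_card_filter_not
        (s := Finset.univ.filter fun k => D.v k = i ∧ sl k = j) fun k => k ∈ q
      have e4 := Finset.card_filter_add_card_filter_not
        (s := Finset.univ.filter fun k => D.v k = i ∧ sl k = j) fun k => k ∈ q'
      rw [h, ← e2] at e1
      simp only [Finset.filter_filter, and_assoc] at e1 e3 e4
      cases b
      · simp only [Prod.mk.injEq, decide_eq_false_iff_not]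
        omega
      · simpa only [Prod.mk.injEq, decide_eq_true_eq] using e1)
  simp only [Prod.mk.injEq, decide_eq_decide] at hg
  refine ⟨g, fun k => ⟨(hg k).1, (hg k).2.1⟩, ?_⟩
  ext l
  rw [Finset.mem_map_equiv, ← (hg (g.symm l)).2.2, Equiv.apply_symm_apply]
theorem thd_add (th : I → ℤ) (d d' : I → ℕ) : thd th (d + d') = thd th d + thd th d' := by
  simp [thd, mul_add, Finset.sum_add_distrib]
theorem Basic_thd_zero (th : I → ℤ) : thd th 0 = 0 := by simp [thd]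
theorem Basic_key_add {D : HD β I Ar τ} {th : I → ℤ} {key : (I → ℕ) → ℤ} (hk : D.IsKey th key)
    {g₁ g₂ : I → ℕ} (hg : g₁ + g₂ ≤ D.dimv Finset.univ) (h3 : thd th g₂ ≤ 0) (h4 : g₂ ≠ 0) :
    key (g₁ + g₂) < key g₁ := by
  have h1 : g₁ ≤ D.dimv Finset.univ := le_self_add.trans hg
  rcases h3.lt_or_eq with h | h
  · exact hk.mono _ hg _ h1 (by rw [thd_add]; linarith)
  · refine hk.size _ hg _ h1 (by rw [thd_add, h, add_zero]) ?_
    obtain ⟨i, hi⟩ := Function.ne_iff.1 h4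
    exact Finset.sum_lt_sum (fun i _ => Nat.le_add_right _ _)
      ⟨i, Finset.mem_univ _, Nat.lt_add_of_pos_right (Nat.pos_of_ne_zero hi)⟩
theorem IsKey.le_zero_iff {D : HD β I Ar τ} {th : I → ℤ} {key : (I → ℕ) → ℤ} (hk : D.IsKey th key)
    {d : I → ℕ} (hd : d ≤ D.dimv Finset.univ) : key d ≤ key 0 ↔ thd th d ≤ 0 := by
  refine ⟨fun h => ?_, fun h => ?_⟩
  · by_contra hn
    exact absurd (hk.mono 0 zero_le d hd (by rw [Basic_thd_zero]; exact not_le.1 hn))
      (not_lt.2 h)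
  · by_cases e : d = 0
    · rw [e]
    · have := Basic_key_add hk (g₁ := 0) (g₂ := d) (by rwa [zero_add]) h e
      rw [zero_add] at this
      exact this.le
/-- (NUM). -/
theorem IsKey.num {D : HD β I Ar τ} {th : I → ℤ} {key : (I → ℕ) → ℤ} (hk : D.IsKey th key)
    {d g₁ g₂ : I → ℕ} (hd : d ≤ D.dimv Finset.univ) (hg : g₁ + g₂ ≤ D.dimv Finset.univ)
    (h1 : g₁ ≤ d) (h2 : key g₁ ≤ key d) (h3 : thd th g₂ ≤ 0) :
    key (g₁ + g₂) ≤ key d ∧ (key (g₁ + g₂) = key d → g₁ = d ∧ g₂ = 0) := by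
  by_cases e : g₂ = 0
  · subst e
    rw [add_zero]
    exact ⟨h2, fun h => ⟨hk.inj _ (h1.trans hd) _ hd h, rfl⟩⟩
  · have := (Basic_key_add hk hg h3 e).trans_le h2
    exact ⟨this.le, fun h => absurd h this.ne⟩
theorem IsKey.split {D : HD β I Ar τ} {th : I → ℤ} {key : (I → ℕ) → ℤ} (hk : D.IsKey th key)
    {p p' : Finset β} (hp : p' ⊆ p) (h : D.last key p < key (D.dimv p')) :
    0 < thd th (D.dimv p') ∧ thd th (D.dimv (p \ p')) ≤ 0 ∧ p'.Nonempty ∧ (p \ p').Nonempty ∧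
      D.last key p' = key (D.dimv p') ∧ D.last key (p \ p') = key 0 := by
  obtain ⟨h0, h1⟩ := max_lt_iff.1 h
  have a1 : 0 < thd th (D.dimv p') := by
    by_contra hn
    exact absurd ((hk.le_zero_iff (D.dimv_le p')).2 (not_lt.1 hn)) (not_le.2 h0)
  have e : D.dimv p = D.dimv p' + D.dimv (p \ p') := by
    rw [← D.dimv_union Finset.disjoint_sdiff, Finset.union_sdiff_of_subset hp]
  have a2 : thd th (D.dimv (p \ p')) ≤ 0 := by
    by_contra hn
    refine absurd (hk.mono _ (D.dimv_le p') _ (D.dimv_le p) ?_) (not_lt.2 h1.le)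
    rw [e, thd_add]
    linarith [not_le.1 hn]
  refine ⟨a1, a2, ?_, ?_, max_eq_right h0.le,
    max_eq_left ((hk.le_zero_iff (D.dimv_le _)).2 a2)⟩
  · rw [Finset.nonempty_iff_ne_empty]
    rintro rfl
    exact lt_irrefl _ h0
  · rw [Finset.sdiff_nonempty]
    intro h2
    rw [Finset.Subset.antisymm hp h2] at h1
    exact lt_irrefl _ h1
theorem IsSlot.spl {sl : β → Λ} {p p' : Finset β} (hp : IsSlot sl p) (h : p' ⊆ p)
    (h1 : p'.Nonempty) : IsSlot (spl sl p') p' ∧ IsSlot (spl sl p') (p \ p') ∧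
      ∀ p₁, IsSlot sl p₁ → p₁ ≠ p → IsSlot (spl sl p') p₁ ∧ Disjoint p₁ p := by
  obtain ⟨j, rfl⟩ := hp
  have hs : ∀ k ∈ p', sl k = j := fun k hk => (Finset.mem_filter.1 (h hk)).2
  refine ⟨⟨(j, true), ?_⟩, ⟨(j, false), ?_⟩, ?_⟩
  · ext k
    simp only [HD.spl, Finset.mem_filter, Finset.mem_univ, true_and, Prod.mk.injEq,
      decide_eq_true_eq]
    exact ⟨fun hk => ⟨hs k hk, hk⟩, fun hk => hk.2⟩
  · ext k
    simp [HD.spl]
  · rintro _ ⟨j₁, rfl⟩ hne
    have hj : j₁ ≠ j := fun e => hne (by rw [e])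
    refine ⟨⟨(j₁, false), ?_⟩, Finset.disjoint_left.2 fun k hk hk' =>
      hj ((Finset.mem_filter.1 hk).2.symm.trans (Finset.mem_filter.1 hk').2)⟩
    ext k
    simp only [HD.spl, Finset.mem_filter, Finset.mem_univ, true_and, Prod.mk.injEq,
      decide_eq_false_iff_not]
    exact ⟨fun hk => ⟨hk, fun hk' => hj (hk.symm.trans (hs k hk'))⟩, fun hk => hk.1⟩

theorem wt_eq (γ : Gam Ar) (l k : β) : D.wt γ l k =
    X (Sum.inl l) - X (Sum.inl k) + ∑ a, C (D.w3 γ a : ℂ) * X (Sum.inr a) := by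
  rw [wt, linF, Fintype.sum_sum_type]
  congr 1
  simp [chi, Pi.single_apply, sub_mul, Finset.sum_sub_distrib, apply_ite C]
theorem wt_none (l k : β) : D.wt none l k = X (Sum.inl l) - X (Sum.inl k) - D.hb := by
  rw [wt_eq, sub_eq_add_neg _ D.hb]
  congr 1
  simp [w3, hb, Pi.single_apply, apply_ite C]
theorem wt_isHomogeneous (γ : Gam Ar) (l k : β) : (D.wt γ l k).IsHomogeneous 1 := 
  linF_isHomogeneous _
theorem rename_wt (g : Equiv.Perm β) (γ : Gam Ar) (l k : β) :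
    rename (Equiv.sumCongr g (Equiv.refl τ)) (D.wt γ l k) = D.wt γ (g l) (g k) := by
  simp [wt_eq]
theorem Basic_rename_alpha {g : Equiv.Perm β} (hg : ∀ k, D.v (g k) = D.v k) (k l : β) :
    rename (Equiv.sumCongr g (Equiv.refl τ)) (D.alpha k l) = D.alpha (g k) (g l) := by
  have e : ∀ γ, D.ok γ (g l) (g k) = D.ok γ l k := by
    rintro (_ | h | h) <;> simp only [ok, hg]
  simp only [alpha, map_prod, rename_wt, e]
theorem rename_alphaS {g : Equiv.Perm β} (hg : ∀ k, D.v (g k) = D.v k) (q q' : Finset β) :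
    rename (Equiv.sumCongr g (Equiv.refl τ)) (D.alphaS q q') =
      D.alphaS (q.map g.toEmbedding) (q'.map g.toEmbedding) := by
  simp only [alphaS, map_prod, Finset.prod_map, D.Basic_rename_alpha hg, Equiv.coe_toEmbedding]
theorem Basic_rename_erho {sl : β → Λ} {sl' : β → Λ} {g : Equiv.Perm β}
    (hg : ∀ k, D.v (g k) = D.v k) (hs : ∀ k, sl' (g k) = sl k) (ρ : β → ℕ) :
    rename (Equiv.sumCongr g (Equiv.refl τ)) (D.erho sl ρ) =
      D.erho sl' fun k => ρ (g.symm k) := by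
  rw [erho, erho, map_prod]
  refine Finset.prod_equiv (g.prodCongr g) (fun p => by simp [hs]) fun p _ => ?_
  simp only [eps, Equiv.prodCongr_apply, Prod.map_fst, Prod.map_snd, Equiv.symm_apply_apply, hg]
  split_ifs
  · exact D.Basic_rename_alpha hg _ _
  · exact D.rename_wt g _ _ _
  · exact map_one _
theorem rename_erho {sl : β → Λ} {w : Equiv.Perm (β ⊕ τ)} (hw : w ∈ Wl (D.lab sl)) (ρ : β → ℕ) :
    rename w (D.erho sl ρ) = D.erho sl (wrho w⁻¹ ρ) := by
  obtain ⟨g, hg, rfl⟩ := D.mem_Wl_lab.1 hw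
  exact D.Basic_rename_erho (fun k => (hg k).1) (fun k => (hg k).2) ρ
theorem erho_mem_Rinv (sl : β → Λ) (ρ : β → ℕ) : D.erho sl ρ ∈ Rinv (D.labr sl ρ) := by
  intro w hw
  obtain ⟨g, hg, rfl⟩ := D.mem_Wl_lab.1 hw
  rw [D.Basic_rename_erho (sl' := sl) (fun k => (hg k).1)
    (fun k => congrArg Prod.fst (hg k).2) ρ]
  congr 1
  funext k
  have := congrArg Prod.snd (hg (g.symm k)).2
  rw [Equiv.apply_symm_apply] at this
  exact this.symm
theorem Basic_map_sdiff {sl : β → Λ} {p : Finset β} (hp : IsSlot sl p) {g : Equiv.Perm β}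
    (hg : ∀ k, sl (g k) = sl k) (q : Finset β) :
    (p \ q).map g.toEmbedding = p \ q.map g.toEmbedding := by
  obtain ⟨j, rfl⟩ := hp
  ext k
  have := hg (g.symm k)
  rw [Equiv.apply_symm_apply] at this
  simp [Finset.mem_map_equiv, this]
theorem alphaS_mem_Rinv {sl : β → Λ} {p q : Finset β} (hp : IsSlot sl p) (hq : q ⊆ p) :
    D.alphaS q (p \ q) ∈ Rinv (D.lab (spl sl q)) := by
  intro w hw
  obtain ⟨g, hg, rfl⟩ := D.mem_Wl_lab.1 hw
  have e : q.map g.toEmbedding = q := by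
    ext k
    have := congrArg Prod.snd (hg (g.symm k)).2
    rw [Equiv.apply_symm_apply] at this
    rw [Finset.mem_map_equiv]
    exact (decide_eq_decide.1 this).symm
  rw [D.rename_alphaS fun k => (hg k).1,
    Basic_map_sdiff hp fun k => congrArg Prod.fst (hg k).2, e]
theorem Basic_alpha_hom (k l : β) : ∃ d, (D.alpha k l).IsHomogeneous d :=
  Basic_hom_prod _ _ fun γ _ => ⟨1, D.wt_isHomogeneous γ l k⟩
theorem exists_erho_isHomogeneous (sl : β → Λ) (ρ : β → ℕ) :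
    ∃ d, (D.erho sl ρ).IsHomogeneous d := by
  refine Basic_hom_prod _ _ fun p _ => ?_
  unfold eps
  split_ifs
  · exact D.Basic_alpha_hom _ _
  · exact ⟨1, D.wt_isHomogeneous _ _ _⟩
  · exact ⟨0, isHomogeneous_one _ _⟩
theorem exists_alphaS_isHomogeneous (q q' : Finset β) :
    ∃ d, (D.alphaS q q').IsHomogeneous d := 
  Basic_hom_prod _ _ fun k _ => Basic_hom_prod _ _ fun l _ => D.Basic_alpha_hom k l
theorem Basic_card_roots :
    (Finset.univ.filter fun p : β × β => p.1 ≠ p.2 ∧ D.v p.2 = D.v p.1).card =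
      2 * npos D.lab0 := by
  classical
  have h1 := card_pairs D.lab0
  have h2 := Finset.card_filter_add_card_filter_not
    (s := Finset.univ.filter fun p : (β ⊕ τ) × (β ⊕ τ) => D.lab0 p.1 = D.lab0 p.2)
    fun p => p.1 = p.2
  have h3 : ((Finset.univ.filter fun p : (β ⊕ τ) × (β ⊕ τ) => D.lab0 p.1 = D.lab0 p.2).filter
      fun p => p.1 = p.2).card = Fintype.card (β ⊕ τ) := by
    rw [← Finset.card_univ (α := β ⊕ τ), eq_comm]
    refine Finset.card_bij (fun x _ => (x, x)) (fun x _ => by simp) (fun x _ y _ h => by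
      simpa using h) ?_
    rintro ⟨x, y⟩ h
    have e : x = y := (Finset.mem_filter.1 h).2
    exact ⟨x, Finset.mem_univ _, by rw [e]⟩
  have h4 : (Finset.univ.filter fun p : β × β => p.1 ≠ p.2 ∧ D.v p.2 = D.v p.1).card =
      ((Finset.univ.filter fun p : (β ⊕ τ) × (β ⊕ τ) => D.lab0 p.1 = D.lab0 p.2).filter
        fun p => ¬p.1 = p.2).card := by
    refine Finset.card_bij (fun p _ => (Sum.inl p.1, Sum.inl p.2)) ?_ ?_ ?_
    · rintro ⟨k, l⟩ h
      simp only [Finset.mem_filter, Finset.mem_univ, true_and] at h ⊢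
      exact ⟨by simp [lab, h.2], by simpa using h.1⟩
    · rintro ⟨k, l⟩ _ ⟨k', l'⟩ _ h
      simpa using h
    · rintro ⟨k | a, l | b⟩ h <;>
        simp only [Finset.mem_filter, Finset.mem_univ, true_and] at h
      · refine ⟨(k, l), ?_, rfl⟩
        simp only [Finset.mem_filter, Finset.mem_univ, true_and]
        exact ⟨by simpa using h.2, by simpa [lab, eq_comm] using h.1⟩
      · simp [lab] at h
      · simp [lab] at h
      · simp [lab] at h
  have h5 : (Finset.univ.filter fun p : (β ⊕ τ) × (β ⊕ τ) => D.lab0 p.1 = D.lab0 p.2).card =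
      Fintype.card (β ⊕ τ) + 2 * npos D.lab0 := by convert h1
  omega
theorem delta_isHomogeneous : D.delta.IsHomogeneous (3 * npos D.lab0) := by
  have h1 : (D.erho (one β) 0).IsHomogeneous
      (∑ p ∈ Finset.univ.filter (fun p : β × β => p.1 ≠ p.2 ∧ one β p.1 = one β p.2),
        if D.v p.2 = D.v p.1 then 1 else 0) := by
    refine IsHomogeneous.prod _ _ _ fun p _ => ?_
    simp only [eps, Pi.zero_apply, lt_irrefl, if_false, true_and]
    split_ifs
    · exact D.wt_isHomogeneous _ _ _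
    · exact isHomogeneous_one _ _
  rw [← Finset.card_filter, Finset.filter_filter] at h1
  simp only [and_true] at h1
  rw [D.Basic_card_roots] at h1
  have h2 := (Dl_isHomogeneous D.lab0).mul h1
  rwa [show npos D.lab0 + 2 * npos D.lab0 = 3 * npos D.lab0 by ring] at h2
theorem erho_zero_mem_Rinv : D.erho (one β) 0 ∈ Rinv D.lab0 := by
  intro w hw
  obtain ⟨g, hg, rfl⟩ := D.mem_Wl_lab.1 hw
  rw [D.Basic_rename_erho (sl' := one β) (fun k => (hg k).1) (fun _ => rfl) 0]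
  congr 1

theorem J_mono {sl : β → Λ} {sl' : β → Λ'} (h : ∀ k l, sl' k = sl' l → sl k = sl l) :
    D.J sl ≤ D.J sl' := by
  refine Ideal.span_le.2 ?_
  rintro _ ⟨ρ, rfl⟩
  refine Ideal.mem_of_dvd _ (Finset.prod_dvd_prod_of_subset _ _ _ fun p hp => ?_)
    (Ideal.subset_span ⟨ρ, rfl⟩)
  simp only [Finset.mem_filter, Finset.mem_univ, true_and] at hp ⊢
  exact ⟨hp.1, h _ _ hp.2⟩
theorem Basic_alphaS_mul {sl : β → Λ} {p q : Finset β} (hp : IsSlot sl p) (hq : q ⊆ p)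
    (ρ : β → ℕ) : D.alphaS q (p \ q) * D.erho (spl sl q) ρ =
      D.erho sl fun k => ρ k + if k ∈ p \ q then ∑ l, ρ l + 1 else 0 := by
  obtain ⟨j, rfl⟩ := hp
  have hs : ∀ k ∈ q, sl k = j := fun k hk => (Finset.mem_filter.1 (hq hk)).2
  have hM : ∀ k, ρ k < ∑ l, ρ l + 1 := fun k => Nat.lt_succ_of_le
    (Finset.single_le_sum (f := ρ) (fun _ _ => Nat.zero_le _) (Finset.mem_univ k))
  have hm : ∀ k, k ∈ (Finset.univ.filter fun k => sl k = j) \ q ↔ sl k = j ∧ k ∉ q := fun k => by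
    simp
  generalize ∑ l, ρ l + 1 = M at hM
  conv_rhs => rw [erho, ← Finset.prod_filter_mul_prod_filter_not _
    (fun x : β × β => x.1 ∈ q ↔ x.2 ∈ q)]
  rw [mul_comm]
  congr 1
  · rw [erho, Finset.filter_filter]
    refine Finset.prod_congr ?_ fun x hx => ?_
    · ext x
      simp [spl, and_assoc]
    · simp only [Finset.mem_filter, Finset.mem_univ, true_and] at hx
      have e : (x.1 ∈ (Finset.univ.filter fun k => sl k = j) \ q) ↔
          (x.2 ∈ (Finset.univ.filter fun k => sl k = j) \ q) := by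
        rw [hm, hm, hx.1.2, hx.2]
      simp only [eps, e, Nat.add_lt_add_iff_right, Nat.add_right_cancel_iff]
  · rw [alphaS, ← Finset.prod_product', eq_comm]
    rw [← Finset.prod_subset (s₁ := q ×ˢ ((Finset.univ.filter fun k => sl k = j) \ q))]
    · refine Finset.prod_congr rfl fun x hx => ?_
      obtain ⟨h1, h2⟩ := Finset.mem_product.1 hx
      have h3 : x.1 ∉ (Finset.univ.filter fun k => sl k = j) \ q := fun h => ((hm _).1 h).2 h1
      simp only [eps, if_pos h2, if_neg h3]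
      rw [if_pos (by have := hM x.1; omega)]
    · intro x hx
      obtain ⟨h1, h2⟩ := Finset.mem_product.1 hx
      obtain ⟨h3, h4⟩ := (hm _).1 h2
      simp only [Finset.mem_filter, Finset.mem_univ, true_and]
      exact ⟨⟨fun e => h4 (e ▸ h1), (hs _ h1).trans h3.symm⟩, fun e => h4 (e.1 h1)⟩
    · intro x hx hx'
      simp only [Finset.mem_filter, Finset.mem_univ, true_and] at hx
      have h1 : x.1 ∉ q := fun h1 => hx' (Finset.mem_product.2 ⟨h1, (hm _).2
        ⟨hx.1.2.symm.trans (hs _ h1), fun h2 => hx.2 (iff_of_true h1 h2)⟩⟩)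
      have h2 : x.2 ∈ q := by
        by_contra h2
        exact hx.2 (iff_of_false h1 h2)
      have h3 : x.1 ∈ (Finset.univ.filter fun k => sl k = j) \ q :=
        (hm _).2 ⟨hx.1.2.trans (hs _ h2), h1⟩
      have h4 : x.2 ∉ (Finset.univ.filter fun k => sl k = j) \ q := fun h => ((hm _).1 h).2 h2
      simp only [eps, if_pos h3, if_neg h4]
      have := hM x.2
      rw [if_neg (by omega), if_neg (by omega)]
theorem alphaS_mul_J {sl : β → Λ} {p q : Finset β} (hp : IsSlot sl p) (hq : q ⊆ p) :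
    Ideal.span {D.alphaS q (p \ q)} * D.J (spl sl q) ≤ D.J sl := by
  rw [J, Ideal.span_mul_span']
  refine Ideal.span_le.2 ?_
  rintro _ ⟨_, rfl, _, ⟨ρ, rfl⟩, rfl⟩
  exact Ideal.subset_span ⟨_, (D.Basic_alphaS_mul hp hq ρ).symm⟩
theorem Fs_le_J {sl : β → Λ} {p : Finset β} (hp : IsSlot sl p) (key : (I → ℕ) → ℤ) (κ : ℤ) :
    D.Fs key sl p κ ≤ D.J sl := 
  iSup₂_le fun _ hq => D.alphaS_mul_J hp hq.1
theorem Dd_le_J {sl : β → Λ} {t : Finset (Finset β)} (ht : ∀ p ∈ t, IsSlot sl p)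
    (key : (I → ℕ) → ℤ) : D.Dd key sl t ≤ D.J sl := 
  iSup₂_le fun p hp => D.Fs_le_J (ht p hp) key _
theorem Basic_rename_J {sl : β → Λ} {sl' : β → Λ} {g : Equiv.Perm β}
    (hg : ∀ k, D.v (g k) = D.v k) (hs : ∀ k, sl' (g k) = sl k) {y : MvPolynomial (β ⊕ τ) ℂ}
    (hy : y ∈ D.J sl) : rename (Equiv.sumCongr g (Equiv.refl τ)) y ∈ D.J sl' := by
  have h : D.J sl ≤ (D.J sl').comap (rename (Equiv.sumCongr g (Equiv.refl τ)) :
      MvPolynomial (β ⊕ τ) ℂ →ₐ[ℂ] MvPolynomial (β ⊕ τ) ℂ) := by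
    refine Ideal.span_le.2 ?_
    rintro _ ⟨ρ, rfl⟩
    exact Ideal.subset_span ⟨_, (D.Basic_rename_erho hg hs ρ).symm⟩
  exact h hy
theorem Basic_spl_map {sl : β → Λ} {g : Equiv.Perm β} (hs : ∀ k, sl (g k) = sl k) (q : Finset β)
    (k : β) : spl sl (q.map g.toEmbedding) (g k) = spl sl q k := by
  simp [spl, hs]
theorem Basic_dimv_map {g : Equiv.Perm β} (hg : ∀ k, D.v (g k) = D.v k) (q : Finset β) :
    D.dimv (q.map g.toEmbedding) = D.dimv q :=
  funext fun i => (Finset.card_equiv g fun k => by simp [hg]).symm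
theorem rename_mem_J {sl : β → Λ} {w : Equiv.Perm (β ⊕ τ)} (hw : w ∈ Wl (D.lab sl))
    {y : MvPolynomial (β ⊕ τ) ℂ} (hy : y ∈ D.J sl) : rename w y ∈ D.J sl := by
  obtain ⟨g, hg, rfl⟩ := D.mem_Wl_lab.1 hw
  exact D.Basic_rename_J (fun k => (hg k).1) (fun k => (hg k).2) hy
theorem rename_mem_Fs {sl : β → Λ} {p : Finset β} (hp : IsSlot sl p) (key : (I → ℕ) → ℤ) (κ : ℤ)
    {w : Equiv.Perm (β ⊕ τ)} (hw : w ∈ Wl (D.lab sl)) {y : MvPolynomial (β ⊕ τ) ℂ}
    (hy : y ∈ D.Fs key sl p κ) : rename w y ∈ D.Fs key sl p κ := by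
  obtain ⟨g, hg, rfl⟩ := D.mem_Wl_lab.1 hw
  have h : D.Fs key sl p κ ≤ (D.Fs key sl p κ).comap (rename (Equiv.sumCongr g (Equiv.refl τ)) :
      MvPolynomial (β ⊕ τ) ℂ →ₐ[ℂ] MvPolynomial (β ⊕ τ) ℂ) := by
    refine iSup₂_le fun q hq y hy => ?_
    obtain ⟨z, hz, rfl⟩ := Ideal.mem_span_singleton_mul.1 hy
    have h1 : q.map g.toEmbedding ⊆ p := by
      obtain ⟨j, rfl⟩ := hp
      intro l hl
      obtain ⟨k, hk, rfl⟩ := Finset.mem_map.1 hl
      exact Finset.mem_filter.2 ⟨Finset.mem_univ _,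
        (hg k).2.trans (Finset.mem_filter.1 (hq.1 hk)).2⟩
    have h2 : κ < key (D.dimv (q.map g.toEmbedding)) := by
      rw [D.Basic_dimv_map fun k => (hg k).1]; exact hq.2
    refine (le_iSup₂_of_le (f := fun (q : Finset β)
      (_ : q ∈ {q : Finset β | q ⊆ p ∧ κ < key (D.dimv q)}) =>
        Ideal.span {D.alphaS q (p \ q)} * D.J (spl sl q)) (q.map g.toEmbedding) ⟨h1, h2⟩ le_rfl) ?_
    refine Ideal.mem_span_singleton_mul.2 ⟨_, D.Basic_rename_J (fun k => (hg k).1)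
      (Basic_spl_map (fun k => (hg k).2) q) hz, ?_⟩
    rw [map_mul, D.rename_alphaS fun k => (hg k).1, Basic_map_sdiff hp fun k => (hg k).2]
  exact h hy
theorem rename_mem_Dd {sl : β → Λ} {t : Finset (Finset β)} (ht : ∀ p ∈ t, IsSlot sl p)
    (key : (I → ℕ) → ℤ) {w : Equiv.Perm (β ⊕ τ)} (hw : w ∈ Wl (D.lab sl))
    {y : MvPolynomial (β ⊕ τ) ℂ} (hy : y ∈ D.Dd key sl t) : rename w y ∈ D.Dd key sl t := by
  have h : D.Dd key sl t ≤ (D.Dd key sl t).comap
      (rename w : MvPolynomial (β ⊕ τ) ℂ →ₐ[ℂ] MvPolynomial (β ⊕ τ) ℂ) :=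
    iSup₂_le fun p hp y hy => (le_iSup₂_of_le (f := fun (p : Finset β) (_ : p ∈ t) =>
      D.Fs key sl p (D.last key p)) p hp le_rfl) (D.rename_mem_Fs (ht p hp) key _ hw hy)
  exact h hy
theorem hom_mem_J (sl : β → Λ) {y : MvPolynomial (β ⊕ τ) ℂ} (hy : y ∈ D.J sl) (d : ℕ) :
    homogeneousComponent d y ∈ D.J sl := 
  Basic_Hom_span (by rintro _ ⟨ρ, rfl⟩; exact D.exists_erho_isHomogeneous sl ρ) y hy d
theorem hom_mem_Y (sl : β → Λ) {y : MvPolynomial (β ⊕ τ) ℂ} (hy : y ∈ D.Y sl) (d : ℕ) :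
    homogeneousComponent d y ∈ D.Y sl := by
  obtain ⟨z, hz, rfl⟩ := hy
  exact ⟨_, D.hom_mem_J sl hz d, (homogeneousComponent_Alt _ d z).symm⟩
theorem hom_mem_Fs (key : (I → ℕ) → ℤ) (sl : β → Λ) (p : Finset β) (κ : ℤ)
    {y : MvPolynomial (β ⊕ τ) ℂ} (hy : y ∈ D.Fs key sl p κ) (d : ℕ) :
    homogeneousComponent d y ∈ D.Fs key sl p κ := by
  refine Basic_Hom_iSup (fun q => Basic_Hom_iSup fun _ => ?_) y hy d
  rw [J, Ideal.span_mul_span']
  refine Basic_Hom_span ?_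
  rintro _ ⟨_, rfl, _, ⟨ρ, rfl⟩, rfl⟩
  obtain ⟨a, ha⟩ := D.exists_alphaS_isHomogeneous q (p \ q)
  obtain ⟨b, hb⟩ := D.exists_erho_isHomogeneous (spl sl q) ρ
  exact ⟨_, ha.mul hb⟩
theorem hom_mem_Dd (key : (I → ℕ) → ℤ) (sl : β → Λ) (t : Finset (Finset β))
    {y : MvPolynomial (β ⊕ τ) ℂ} (hy : y ∈ D.Dd key sl t) (d : ℕ) :
    homogeneousComponent d y ∈ D.Dd key sl t := 
  Basic_Hom_iSup (fun p => Basic_Hom_iSup fun _ _ hy d => D.hom_mem_Fs key sl p _ hy d) y hy d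
theorem mem_Y_iff {sl : β → Λ} {y : MvPolynomial (β ⊕ τ) ℂ} :
    y ∈ D.Y sl ↔ y ∈ D.J sl ∧ ∀ w ∈ Wl (D.lab sl), rename w y = sgn w • y := by
  constructor
  · rintro ⟨z, hz, rfl⟩
    exact ⟨Basic_Alt_mem (fun w hw y hy => D.rename_mem_J hw hy) hz, fun w hw => rename_Alt hw z⟩
  · rintro ⟨h1, h2⟩
    refine ⟨((Wl (D.lab sl)).card : ℂ)⁻¹ • y, Submodule.smul_of_tower_mem (D.J sl) _ h1, ?_⟩
    rw [map_smul, Alt_of_anti h2, smul_smul, inv_mul_cancel₀ (card_Wl_ne_zero _), one_smul]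
theorem delta_mem_Y : D.delta ∈ D.Y (one β) := by
  refine D.mem_Y_iff.2 ⟨Ideal.mul_mem_left _ _ (Ideal.subset_span ⟨0, rfl⟩), fun w hw => ?_⟩
  rw [delta, map_mul, rename_Dl hw, D.erho_zero_mem_Rinv w hw, smul_mul_assoc]
theorem mul_mem_Y {sl : β → Λ} {r y : MvPolynomial (β ⊕ τ) ℂ} (hr : r ∈ Rinv (D.lab sl))
    (hy : y ∈ D.Y sl) : r * y ∈ D.Y sl := by
  obtain ⟨z, hz, rfl⟩ := hy
  exact ⟨r * z, Ideal.mul_mem_left (D.J sl) r hz, Alt_mul hr z⟩
theorem gen_mem_Y (sl : β → Λ) (ρ : β → ℕ) (g : MvPolynomial (β ⊕ τ) ℂ) :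
    D.gen sl ρ g ∈ D.Y sl := 
  ⟨_, Ideal.mul_mem_left (D.J sl) _ (Ideal.subset_span ⟨ρ, rfl⟩), rfl⟩
/-- One step of the filtration: the antisymmetrisation of `F_{> κ - 1}` for `κ = key p'`. -/
theorem Alt_Fs_step {th : I → ℤ} {key : (I → ℕ) → ℤ} (hk : D.IsKey th key) {sl : β → Λ}
    {p p' : Finset β} (hp : IsSlot sl p) (hp' : p' ⊆ p) {y : MvPolynomial (β ⊕ τ) ℂ}
    (hy : y ∈ D.Fs key sl p (key (D.dimv p') - 1)) :
    ∃ y' ∈ D.Y (spl sl p'), Alt (D.lab sl) y - Alt (D.lab sl) (y' * D.alphaS p' (p \ p')) ∈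
      D.Fs key sl p (key (D.dimv p')) := by
  refine Submodule.iSup_induction _ (motive := fun y => ∃ y' ∈ D.Y (spl sl p'),
    Alt (D.lab sl) y - Alt (D.lab sl) (y' * D.alphaS p' (p \ p')) ∈
      D.Fs key sl p (key (D.dimv p'))) hy (fun q y hy => ?_) ⟨0, zero_mem _, by simp⟩ ?_
  · by_cases hq : q ⊆ p ∧ key (D.dimv p') - 1 < key (D.dimv q)
    swap
    · rw [iSup_neg (show q ∉ {q : Finset β | q ⊆ p ∧ key (D.dimv p') - 1 < key (D.dimv q)}
        from hq), Submodule.mem_bot] at hy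
      exact ⟨0, zero_mem _, by simp [hy]⟩
    rw [iSup_pos (show q ∈ {q : Finset β | q ⊆ p ∧ key (D.dimv p') - 1 < key (D.dimv q)}
      from hq)] at hy
    rcases (show key (D.dimv p') ≤ key (D.dimv q) by omega).lt_or_eq with h | h
    · refine ⟨0, zero_mem _, ?_⟩
      rw [zero_mul, map_zero, sub_zero]
      refine Basic_Alt_mem (fun w hw y hy => D.rename_mem_Fs hp key _ hw hy) ?_
      exact (le_iSup₂_of_le (f := fun (q : Finset β)
        (_ : q ∈ {q : Finset β | q ⊆ p ∧ key (D.dimv p') < key (D.dimv q)}) =>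
          Ideal.span {D.alphaS q (p \ q)} * D.J (spl sl q)) q ⟨hq.1, h⟩ le_rfl) hy
    · obtain ⟨g, hg, e⟩ := D.exists_perm_of_dimv hp hq.1 hp'
        (hk.inj _ (D.dimv_le q) _ (D.dimv_le p') h.symm)
      obtain ⟨z, hz, rfl⟩ := Ideal.mem_span_singleton_mul.1 hy
      have hw : Equiv.sumCongr g (Equiv.refl τ) ∈ Wl (D.lab sl) := D.mem_Wl_lab.2 ⟨g, hg, rfl⟩
      have hz' := D.Basic_rename_J (fun k => (hg k).1) (Basic_spl_map (fun k => (hg k).2) q) hz
      have h1 := Alt_rename hw (D.alphaS q (p \ q) * z)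
      rw [map_mul, D.rename_alphaS fun k => (hg k).1, Basic_map_sdiff hp fun k => (hg k).2,
        e] at h1
      rw [e] at hz'
      have h2 := Alt_Alt (D.refines_lab (sl := sl) (sl' := spl sl p')
        fun k l h => congrArg Prod.fst h)
        (D.alphaS p' (p \ p') * rename (Equiv.sumCongr g (Equiv.refl τ)) z)
      rw [Alt_mul (D.alphaS_mem_Rinv hp hp'), h1] at h2
      refine ⟨(sgn (Equiv.sumCongr g (Equiv.refl τ)) * ((Wl (D.lab (spl sl p'))).card : ℂ)⁻¹) •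
        Alt (D.lab (spl sl p')) (rename (Equiv.sumCongr g (Equiv.refl τ)) z),
        Submodule.smul_mem _ _ ⟨_, hz', rfl⟩, ?_⟩
      rw [smul_mul_assoc, map_smul, mul_comm _ (D.alphaS p' (p \ p')), h2, smul_smul, smul_smul,
        mul_assoc (sgn _), inv_mul_cancel₀ (card_Wl_ne_zero _), mul_one, sgn_mul_self, one_smul,
        sub_self]
      exact zero_mem _
  · rintro a b ⟨a', ha, ha'⟩ ⟨b', hb, hb'⟩
    refine ⟨a' + b', add_mem ha hb, ?_⟩
    rw [add_mul, map_add, map_add, add_sub_add_comm]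
    exact add_mem ha' hb'
theorem Fs_step_of_not_key (key : (I → ℕ) → ℤ) (sl : β → Λ) (p : Finset β) {κ : ℤ}
    (h : ∀ q ⊆ p, key (D.dimv q) ≠ κ) : D.Fs key sl p (κ - 1) = D.Fs key sl p κ := by
  have e : {q : Finset β | q ⊆ p ∧ κ - 1 < key (D.dimv q)} =
      {q : Finset β | q ⊆ p ∧ κ < key (D.dimv q)} := by
    ext q
    refine and_congr_right fun hq => ?_
    have := h q hq
    omega
  rw [Fs, Fs, e]
theorem Fs_eq_bot (key : (I → ℕ) → ℤ) (sl : β → Λ) (p : Finset β) {κ : ℤ}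
    (h : ∀ q ⊆ p, key (D.dimv q) ≤ κ) : D.Fs key sl p κ = ⊥ := 
  le_bot_iff.1 (iSup₂_le fun q hq => absurd hq.2 (not_lt.2 (h q hq.1)))
theorem Fs_anti (key : (I → ℕ) → ℤ) (sl : β → Λ) (p : Finset β) {κ κ' : ℤ} (h : κ ≤ κ') :
    D.Fs key sl p κ' ≤ D.Fs key sl p κ := 
  biSup_mono fun _ hq => ⟨hq.1, h.trans_lt hq.2⟩

end HD

end Pool.Agent.HK
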