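import Pool.Agent.P.MP_1206ce_ag.Alg.CDefs

/-! Tripled quiver data and the ideals of the stability filtration: definitions. -/

noncomputable section

open MvPolynomial

namespace Pool.Agent.HK

/-- A quiver with basis `β`, torus variables `τ`, and the two special variables `b`, `ħ`. -/
structure HD (β I Ar τ : Type) where
  v : β → I
  s : Ar → I
  t : Ar → I
  w : Ar → τ → ℤ
  bb : τ
  hh : τ
  bh : bb ≠ hh
  wb : ∀ h, w h bb = 1
  wh : ∀ h, w h hh = 0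

/-- Arrows of the tripled quiver; `none` is the loop `a`. -/
abbrev Gam (Ar : Type) : Type := Option (Ar ⊕ Ar)

/-- Pairing of a stability parameter with a dimension vector. -/
def thd {I : Type} [Fintype I] (th : I → ℤ) (d : I → ℕ) : ℤ := ∑ i, th i * (d i : ℤ)

/-- The ideal `Ann + x R` of the invariants. -/
def AnnAdd {V Λ : Type} [Fintype V] [DecidableEq V] (lab : V → Λ) (Ann : Set (MvPolynomial V ℂ))
    (x : V) : Set (MvPolynomial V ℂ) := {h | ∃ a ∈ Ann, ∃ r ∈ Rinv lab, h = a + X x * r}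

/-- `x` is a nonzero divisor modulo `Ann`. -/
def RegMod {V Λ : Type} [Fintype V] [DecidableEq V] (lab : V → Λ) (Ann : Set (MvPolynomial V ℂ))
    (x : V) : Prop := ∀ h ∈ Rinv lab, X x * h ∈ Ann → h ∈ Ann

/-- `Ann` is a homogeneous ideal of the invariants. -/
structure IsAnn {V Λ : Type} [Fintype V] [DecidableEq V] (lab : V → Λ)
    (Ann : Set (MvPolynomial V ℂ)) : Prop where
  sub : ∀ a ∈ Ann, a ∈ Rinv lab
  zero : (0 : MvPolynomial V ℂ) ∈ Ann
  add : ∀ a ∈ Ann, ∀ b ∈ Ann, a + b ∈ Ann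
  mul : ∀ r ∈ Rinv lab, ∀ a ∈ Ann, r * a ∈ Ann
  hom : ∀ a ∈ Ann, ∀ d, homogeneousComponent d a ∈ Ann

namespace HD

variable {β I Ar τ Λ : Type} [Fintype β] [DecidableEq β] [Fintype I] [DecidableEq I] [Fintype Ar]
  [DecidableEq Ar] [Fintype τ] [DecidableEq τ] [DecidableEq Λ] (D : HD β I Ar τ)

/-- The entry `(l, k)` of the arrow `γ` is allowed by the vertices. -/
def ok (γ : Gam Ar) (l k : β) : Bool :=
  match γ with
  | none => decide (D.v l = D.v k)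
  | some (Sum.inl h) => decide (D.v l = D.t h ∧ D.v k = D.s h)
  | some (Sum.inr h) => decide (D.v l = D.s h ∧ D.v k = D.t h)

/-- Torus weights of the arrows. -/
def w3 (γ : Gam Ar) : τ → ℤ :=
  match γ with
  | none => -Pi.single D.hh 1
  | some (Sum.inl h) => D.w h
  | some (Sum.inr h) => Pi.single D.hh 1 - D.w h

/-- The character of a matrix position `(γ, l, k)`. -/
def chi (p : Gam Ar × β × β) : β ⊕ τ → ℤ :=
  Sum.elim (Pi.single p.2.1 1 - Pi.single p.2.2 1) (D.w3 p.1)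

/-- Its linear form `x_l - x_k + w(γ)`. -/
def wt (γ : Gam Ar) (l k : β) : MvPolynomial (β ⊕ τ) ℂ := linF (D.chi (γ, l, k))

/-- The variable `ħ`. -/
def hb : MvPolynomial (β ⊕ τ) ℂ := X (Sum.inr D.hh)

/-- The labelling by vertex and slot. -/
def lab (sl : β → Λ) : β ⊕ τ → (I × Λ) ⊕ τ := Sum.map (fun k => (D.v k, sl k)) id

/-- One slot. -/
abbrev one (β : Type) : β → Unit := fun _ => ()

/-- The labelling by vertex. -/
abbrev lab0 : β ⊕ τ → (I × Unit) ⊕ τ := D.lab (one β)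

/-- `α(k, l)`: the weights of maps from `k` to `l`. -/
def alpha (k l : β) : MvPolynomial (β ⊕ τ) ℂ :=
  ∏ γ ∈ Finset.univ.filter (fun γ => D.ok γ l k), D.wt γ l k

/-- `α(q, q')`. -/
def alphaS (q q' : Finset β) : MvPolynomial (β ⊕ τ) ℂ := ∏ k ∈ q, ∏ l ∈ q', D.alpha k l

/-- The factor of `e_ρ` at the pair `(k, l)`. -/
def eps (ρ : β → ℕ) (k l : β) : MvPolynomial (β ⊕ τ) ℂ :=
  if ρ k < ρ l then D.alpha k l else if ρ k = ρ l ∧ D.v l = D.v k then D.wt none l k else 1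

/-- `e_ρ`. -/
def erho (sl : β → Λ) (ρ : β → ℕ) : MvPolynomial (β ⊕ τ) ℂ :=
  ∏ p ∈ Finset.univ.filter (fun p : β × β => p.1 ≠ p.2 ∧ sl p.1 = sl p.2), D.eps ρ p.1 p.2

/-- `J_σ`. -/
def J (sl : β → Λ) : Ideal (MvPolynomial (β ⊕ τ) ℂ) := Ideal.span (Set.range (D.erho sl))

/-- `Y_σ`. -/
def Y (sl : β → Λ) : Submodule ℂ (MvPolynomial (β ⊕ τ) ℂ) :=
  ((D.J sl).restrictScalars ℂ).map (Alt (D.lab sl))

/-- Splitting the slot that contains `q`. -/
def spl (sl : β → Λ) (q : Finset β) : β → Λ × Bool := fun k => (sl k, decide (k ∈ q))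

/-- `p` is a slot. -/
def IsSlot (sl : β → Λ) (p : Finset β) : Prop := ∃ j, p = Finset.univ.filter fun k => sl k = j

/-- The dimension vector of a subset of the basis. -/
def dimv (q : Finset β) : I → ℕ := fun i => (q.filter fun k => D.v k = i).card

/-- Keys of dimension vectors. -/
structure IsKey (th : I → ℤ) (key : (I → ℕ) → ℤ) : Prop where
  inj : ∀ d ≤ D.dimv Finset.univ, ∀ d' ≤ D.dimv Finset.univ, key d = key d' → d = d'
  mono : ∀ d ≤ D.dimv Finset.univ, ∀ d' ≤ D.dimv Finset.univ, thd th d < thd th d' →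
    key d < key d'
  size : ∀ d ≤ D.dimv Finset.univ, ∀ d' ≤ D.dimv Finset.univ, thd th d = thd th d' →
    ∑ i, d' i < ∑ i, d i → key d < key d'

/-- The last key of a slot. -/
def last (key : (I → ℕ) → ℤ) (p : Finset β) : ℤ := max (key 0) (key (D.dimv p))

/-- `F_{σ,p,>κ}`. -/
def Fs (key : (I → ℕ) → ℤ) (sl : β → Λ) (p : Finset β) (κ : ℤ) :
    Ideal (MvPolynomial (β ⊕ τ) ℂ) :=
  ⨆ q ∈ {q : Finset β | q ⊆ p ∧ κ < key (D.dimv q)},
    Ideal.span {D.alphaS q (p \ q)} * D.J (spl sl q)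

/-- `Dd_{σ,t}`. -/
def Dd (key : (I → ℕ) → ℤ) (sl : β → Λ) (t : Finset (Finset β)) :
    Ideal (MvPolynomial (β ⊕ τ) ℂ) := ⨆ p ∈ t, D.Fs key sl p (D.last key p)

/-- `δ`. -/
def delta : MvPolynomial (β ⊕ τ) ℂ := Dl D.lab0 * D.erho (one β) 0

/-- The annihilator `Ĩ`. -/
def Ann0 (key : (I → ℕ) → ℤ) : Set (MvPolynomial (β ⊕ τ) ℂ) :=
  {h | h ∈ Rinv D.lab0 ∧ h * D.delta ∈ D.Dd key (one β) {Finset.univ}}

/-- The annihilator after the three Gysin steps. -/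
def Ann3 (key : (I → ℕ) → ℤ) (k₀ : β) : Set (MvPolynomial (β ⊕ τ) ℂ) :=
  AnnAdd D.lab0 (AnnAdd D.lab0 (AnnAdd D.lab0 (D.Ann0 key) (Sum.inr D.hh)) (Sum.inr D.bb))
    (Sum.inl k₀)

/-- Genericity, with framing vector `k₀`. -/
structure Gen0 (th : I → ℤ) (k₀ : β) : Prop where
  single : ∀ l, D.v l = D.v k₀ → l = k₀
  tot : thd th (D.dimv Finset.univ) = 0
  gen : ∀ d ≤ D.dimv Finset.univ, d ≠ 0 → d ≠ D.dimv Finset.univ → thd th d ≠ 0

/-- Decreasing level functions. -/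
def Decr (sl : β → Λ) (ρ : β → ℕ) : Prop := ∀ (i : I) (j : Λ) (m : ℕ),
  (Finset.univ.filter fun k => D.v k = i ∧ sl k = j ∧ ρ k = m + 1).card ≤
    (Finset.univ.filter fun k => D.v k = i ∧ sl k = j ∧ ρ k = m).card

/-- A system of strings, given by the map to the bottom of the string. -/
structure IsStr (sl : β → Λ) (ρ : β → ℕ) (bot : β → β) : Prop where
  vx : ∀ k, D.v (bot k) = D.v k
  slot : ∀ k, sl (bot k) = sl k
  lev : ∀ k, ρ (bot k) = 0
  idem : ∀ k, bot (bot k) = bot k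
  inj : ∀ k l, bot k = bot l → ρ k = ρ l → k = l
  gap : ∀ k, ∀ m ≤ ρ k, ∃ l, bot l = bot k ∧ ρ l = m

/-- The substitution `x_k ↦ z_{string k} - ρ(k) ħ`. -/
def ev (ρ : β → ℕ) (bot : β → β) : MvPolynomial (β ⊕ τ) ℂ →ₐ[ℂ] MvPolynomial (β ⊕ τ) ℂ :=
  aeval (Sum.elim (fun k => X (Sum.inl (bot k)) - C (ρ k : ℂ) * D.hb) fun a => X (Sum.inr a))

/-- The labelling refined by the level. -/
abbrev labr (sl : β → Λ) (ρ : β → ℕ) : β ⊕ τ → (I × Λ × ℕ) ⊕ τ := D.lab fun k => (sl k, ρ k)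

/-- The labelling of the bottoms of the strings by vertex, slot and length. -/
def labb (sl : β → Λ) (bot : β → β) : {k // bot k = k} ⊕ τ → (I × Λ × ℕ) ⊕ τ :=
  Sum.map (fun k => (D.v k.1, sl k.1, (Finset.univ.filter fun l => bot l = k.1).card)) id

/-- The generators `Alt (g D_ρ e_ρ)`. -/
def gen (sl : β → Λ) (ρ : β → ℕ) (g : MvPolynomial (β ⊕ τ) ℂ) : MvPolynomial (β ⊕ τ) ℂ :=
  Alt (D.lab sl) (g * Dl (D.labr sl ρ) * D.erho sl ρ)

/-- Permuting a level function. -/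
def wrho (w : Equiv.Perm (β ⊕ τ)) (ρ : β → ℕ) : β → ℕ := fun k => Sum.elim ρ 0 (w (Sum.inl k))

/-- An enumeration of the types of level functions that refines the total level. -/
structure IsKr (sl : β → Λ) (kr : (β → ℕ) → ℕ) : Prop where
  eq_iff : ∀ ρ ρ', kr ρ = kr ρ' ↔ ∃ w ∈ Wl (D.lab sl), ρ' = wrho w ρ
  lt : ∀ ρ ρ', ∑ k, ρ k < ∑ k, ρ' k → kr ρ < kr ρ'

/-- The span of the generators of height below `c`. -/
def Ylt (sl : β → Λ) (kr : (β → ℕ) → ℕ) (c : ℕ) : Submodule ℂ (MvPolynomial (β ⊕ τ) ℂ) :=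
  Submodule.span ℂ {y | ∃ ρ g, D.Decr sl ρ ∧ kr ρ < c ∧ g ∈ Rinv (D.labr sl ρ) ∧ y = D.gen sl ρ g}

/-- (SP). -/
def SPr (sl : β → Λ) (kr : (β → ℕ) → ℕ) : Prop := ∀ y ∈ D.Y sl, ∃ c, y ∈ D.Ylt sl kr c

/-- (LOW). -/
def LOWr (sl : β → Λ) (kr : (β → ℕ) → ℕ) : Prop :=
  ∀ ρ bot g, D.Decr sl ρ → D.IsStr sl ρ bot → g ∈ Rinv (D.labr sl ρ) → D.ev ρ bot g = 0 →
    D.gen sl ρ g ∈ D.Ylt sl kr (kr ρ)

end HD

namespace Qv

variable (Q : Qv)

/-- The tripled datum of `Q`; the torus variables are `ħ = none`, `b = some 0` and the flavours. -/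
def hd : HD (Option (Fin Q.nB)) (Option (Fin Q.nI)) (Fin Q.nA) (Option (Fin (Q.nT + 1))) where
  v := Q.vb
  s := Q.src
  t := Q.tgt
  w := fun h o => o.elim 0 (Fin.cons 1 (Q.wt h) : Fin (Q.nT + 1) → ℤ)
  bb := some 0
  hh := none
  bh := by simp
  wb := fun _ => rfl
  wh := fun _ => rfl

/-- Its variables. -/
abbrev HV : Type := Option (Fin Q.nB) ⊕ Option (Fin (Q.nT + 1))

/-- The inclusion of the variables of `G × F`. -/
def inc : Q.Var → Q.HV := Sum.map some fun a => some a.succ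

/-- Setting `ħ`, `b`, `x_∞` to zero. -/
def spec3 : MvPolynomial Q.HV ℂ →ₐ[ℂ] Q.Pol :=
  aeval (Sum.elim Q.xv fun o => o.elim 0
    (Fin.cons 0 (fun a => X (Sum.inr a)) : Fin (Q.nT + 1) → Q.Pol))

end Qv

end Pool.Agent.HK
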