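import Pool.Agent.P.MP_1206ce_ag.AH.Basic

/-! The evaluation along strings. -/

set_option linter.unusedSectionVars false

noncomputable section

open MvPolynomial

namespace Pool.Agent.HK

section General

variable {V Λ Λ' : Type} [Fintype V] [DecidableEq V]

theorem EV_conj_mem {lab : V → Λ} {lab' : V → Λ} {w : Equiv.Perm V} (h : ∀ k, lab' (w k) = lab k)
    {u : Equiv.Perm V} (hu : u ∈ Wl lab') : w⁻¹ * u * w ∈ Wl lab :=
  mem_Wl.2 fun k => by
    rw [← h, ← h k, Equiv.Perm.mul_apply, Equiv.Perm.mul_apply]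
    simp only [Equiv.Perm.coe_inv, Equiv.apply_symm_apply]
    exact mem_Wl.1 hu _

theorem EV_conj_eq (w u : Equiv.Perm V) (p : MvPolynomial V ℂ) :
    rename u (rename w p) = rename w (rename (w⁻¹ * u * w : Equiv.Perm V) p) := by
  rw [Sym_rename_mul, Sym_rename_mul]
  congr 2
  group

theorem EV_rename_mem_Rinv {lab : V → Λ} {lab' : V → Λ} {w : Equiv.Perm V}
    (h : ∀ k, lab' (w k) = lab k) {g : MvPolynomial V ℂ} (hg : g ∈ Rinv lab) :
    rename w g ∈ Rinv lab' :=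
  mem_Rinv.2 fun u hu => by rw [EV_conj_eq, mem_Rinv.1 hg _ (EV_conj_mem h hu)]

theorem EV_rename_Dl_dvd {lab : V → Λ} {lab' : V → Λ} {w : Equiv.Perm V}
    (h : ∀ k, lab' (w k) = lab k) : ∃ c, rename w (Dl lab) = Dl lab' * c := by
  have : ∀ u ∈ Wl lab', rename u (rename w (Dl lab)) = sgn u • rename w (Dl lab) := by
    intro u hu
    rw [EV_conj_eq, rename_Dl (EV_conj_mem h hu), map_smul, sgn_mul, sgn_mul, sgn_inv,
      mul_right_comm, sgn_mul_self, one_mul]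
  obtain ⟨c, -, hc⟩ := anti_iff.1 this
  exact ⟨c, hc⟩

theorem EV_rename_Dl {lab : V → Λ} {lab' : V → Λ} {w : Equiv.Perm V}
    (h : ∀ k, lab' (w k) = lab k) : ∃ c : ℂ, rename w (Dl lab) = c • Dl lab' := by
  obtain ⟨c, hc⟩ := EV_rename_Dl_dvd h
  have h' : ∀ k, lab (w⁻¹ k) = lab' k := fun k => by
    rw [← h]
    simp
  obtain ⟨c', hc'⟩ := EV_rename_Dl_dvd h'
  have h1 : Dl lab' = Dl lab' * (c * rename w c') := by
    have := congrArg (rename w) hc'
    rw [Sym_rename_mul, mul_inv_cancel, map_mul, hc, mul_assoc] at this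
    simpa using this
  have h2 : c * rename w c' = 1 :=
    mul_left_cancel₀ (Dl_ne_zero lab') (by rw [← h1, mul_one])
  obtain ⟨r, -, hr⟩ := isUnit_iff_eq_C_of_isReduced.1 (IsUnit.of_mul_eq_one _ h2)
  exact ⟨r, by rw [hc, hr, smul_eq_C_mul, mul_comm]⟩

omit [Fintype V] [DecidableEq V] in
theorem EV_hc_comm {V' : Type} (φ : MvPolynomial V ℂ →ₐ[ℂ] MvPolynomial V' ℂ)
    (hφ : ∀ (g : MvPolynomial V ℂ) (d : ℕ), g.IsHomogeneous d → (φ g).IsHomogeneous d) (d : ℕ)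
    (g : MvPolynomial V ℂ) : φ (homogeneousComponent d g) = homogeneousComponent d (φ g) := by
  induction g using MvPolynomial.induction_on' with
  | monomial u a =>
    have h1 : (monomial u a : MvPolynomial V ℂ).IsHomogeneous u.degree :=
      isHomogeneous_monomial a rfl
    rw [homogeneousComponent_of_mem h1, homogeneousComponent_of_mem (hφ _ _ h1)]
    split_ifs <;> simp
  | add a b ha hb => simp only [map_add, ha, hb]

theorem EV_sum_mem (lab : V → Λ) (P : V → Prop) [DecidablePred P]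
    (hP : ∀ k l, lab k = lab l → P k → P l) {h : MvPolynomial V ℂ} (hh : h ∈ Rinv lab) (a : ℕ) :
    ∑ x ∈ Finset.univ.filter P, (X x - h) ^ a ∈ Rinv lab := by
  refine mem_Rinv.2 fun w hw => ?_
  rw [map_sum]
  simp only [map_pow, map_sub, rename_X, mem_Rinv.1 hh w hw]
  refine Finset.sum_equiv w (fun k => ?_) (fun _ _ => rfl)
  simp only [Finset.mem_filter, Finset.mem_univ, true_and]
  exact ⟨hP _ _ (mem_Wl.1 hw k).symm, hP _ _ (mem_Wl.1 hw k)⟩

end General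

namespace HD

variable {β I Ar τ Λ Λ' : Type} [Fintype β] [DecidableEq β] [Fintype I] [DecidableEq I] [Fintype Ar]
  [DecidableEq Ar] [Fintype τ] [DecidableEq τ] [DecidableEq Λ] [DecidableEq Λ'] (D : HD β I Ar τ)

theorem EV_ev_inl (ρ : β → ℕ) (bot : β → β) (k : β) :
    D.ev ρ bot (X (Sum.inl k)) = X (Sum.inl (bot k)) - C (ρ k : ℂ) * D.hb := by
  simp [ev]

theorem EV_ev_inr (ρ : β → ℕ) (bot : β → β) (a : τ) :
    D.ev ρ bot (X (Sum.inr a)) = X (Sum.inr a) := by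
  simp [ev]

theorem EV_ev_wt (ρ : β → ℕ) (bot : β → β) (γ : Gam Ar) (l k : β) :
    D.ev ρ bot (D.wt γ l k) = X (Sum.inl (bot l)) - C (ρ l : ℂ) * D.hb -
      (X (Sum.inl (bot k)) - C (ρ k : ℂ) * D.hb) + ∑ a, C (D.w3 γ a : ℂ) * X (Sum.inr a) := by
  rw [wt_eq, map_add, map_sub, EV_ev_inl, EV_ev_inl, map_sum]
  simp only [map_mul, EV_ev_inr, algHom_C, algebraMap_eq]

theorem EV_ev_wt_none (ρ : β → ℕ) (bot : β → β) (l k : β) :
    D.ev ρ bot (D.wt none l k) = X (Sum.inl (bot l)) - C (ρ l : ℂ) * D.hb -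
      (X (Sum.inl (bot k)) - C (ρ k : ℂ) * D.hb) - D.hb := by
  rw [wt_none, map_sub, map_sub, EV_ev_inl, EV_ev_inl]
  congr 1
  exact D.EV_ev_inr ρ bot D.hh

/-- Survivors of the evaluation increase along strings. -/
theorem EV_le_of_ne {sl : β → Λ} {ρ : β → ℕ} {bot : β → β} (hs : D.IsStr sl ρ bot) {ρ₂ : β → ℕ}
    (h : D.ev ρ bot (D.erho sl ρ₂) ≠ 0) (k : β) : ρ k ≤ ρ₂ k := by
  suffices H : ∀ m k, ρ k = m → m ≤ ρ₂ k from H _ k rfl
  intro m
  induction m with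
  | zero => exact fun _ _ => Nat.zero_le _
  | succ m ih =>
    intro k hk
    obtain ⟨l, hl, hm⟩ := hs.gap k m (by omega)
    have hne : k ≠ l := fun e => by
      rw [e] at hk
      omega
    have hsl : sl k = sl l := by rw [← hs.slot k, ← hs.slot l, hl]
    have hv : D.v l = D.v k := by rw [← hs.vx k, ← hs.vx l, hl]
    have h0 : D.ev ρ bot (D.wt none l k) = 0 := by
      rw [EV_ev_wt_none, hl, hk, hm, Nat.cast_succ, C_add, C_1]
      ring
    have h1 : D.ev ρ bot (D.eps ρ₂ k l) ≠ 0 := by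
      unfold erho at h
      rw [map_prod] at h
      exact Finset.prod_ne_zero_iff.1 h (k, l) (by simp [hne, hsl])
    have h2 := ih l hm
    by_contra hc
    apply h1
    unfold eps
    by_cases hlt : ρ₂ k < ρ₂ l
    · rw [if_pos hlt]
      unfold alpha
      rw [map_prod]
      exact Finset.prod_eq_zero (i := none) (by simp [ok, hv]) h0
    · rw [if_neg hlt, if_pos ⟨by omega, hv⟩]
      exact h0

theorem EV_eq_of_ne {sl : β → Λ} {kr : (β → ℕ) → ℕ} (hk : D.IsKr sl kr) {ρ : β → ℕ}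
    {bot : β → β} (hs : D.IsStr sl ρ bot) {ρ₂ : β → ℕ} (h : D.ev ρ bot (D.erho sl ρ₂) ≠ 0)
    (hle : kr ρ₂ ≤ kr ρ) : ρ₂ = ρ := by
  have h1 := D.EV_le_of_ne hs h
  by_contra hne
  obtain ⟨k, hk'⟩ := Function.ne_iff.1 hne
  have : ∑ k, ρ k < ∑ k, ρ₂ k :=
    Finset.sum_lt_sum (fun k _ => h1 k) ⟨k, Finset.mem_univ _, lt_of_le_of_ne (h1 k) hk'.symm⟩
  have := hk.lt _ _ this
  omega

theorem EV_wt_none_ne (ρ : β → ℕ) (bot : β → β) {l k : β} (h : ρ k ≤ ρ l) :
    D.ev ρ bot (D.wt none l k) ≠ 0 := by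
  intro h0
  have h1 := congrArg (eval (Sum.elim (fun _ => (0 : ℂ)) fun _ => 1)) h0
  rw [EV_ev_wt_none] at h1
  simp only [hb, map_sub, map_mul, eval_X, eval_C, Sum.elim_inl, Sum.elim_inr, map_zero] at h1
  have h2 : ((ρ l + 1 : ℕ) : ℂ) = (ρ k : ℕ) := by
    push_cast
    linear_combination -h1
  have h3 := Nat.cast_injective h2
  omega

theorem EV_wt_some_ne (ρ : β → ℕ) (bot : β → β) (γ : Ar ⊕ Ar) (l k : β) :
    D.ev ρ bot (D.wt (some γ) l k) ≠ 0 := by
  intro h0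
  have h1 := congrArg (eval (Sum.elim (fun _ => (0 : ℂ)) (Pi.single D.bb 1))) h0
  rw [EV_ev_wt] at h1
  simp only [hb, map_add, map_sub, map_mul, map_sum, eval_X, eval_C, Sum.elim_inl, Sum.elim_inr,
    map_zero, Pi.single_eq_of_ne D.bh.symm, mul_zero, sub_zero, zero_add] at h1
  rw [Finset.sum_eq_single D.bb (fun a _ ha => by rw [Pi.single_eq_of_ne ha, mul_zero])
    (by simp)] at h1
  rcases γ with γ | γ
  · simp [w3, D.wb] at h1
  · simp [w3, D.wb, Pi.single_eq_of_ne D.bh] at h1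

theorem EV_erho_ne (sl : β → Λ) (ρ : β → ℕ) (bot : β → β) : D.ev ρ bot (D.erho sl ρ) ≠ 0 := by
  unfold erho
  rw [map_prod]
  refine Finset.prod_ne_zero_iff.2 fun p _ => ?_
  unfold eps
  split_ifs with h1 h2
  · unfold alpha
    rw [map_prod]
    refine Finset.prod_ne_zero_iff.2 fun γ _ => ?_
    rcases γ with _ | γ
    · exact D.EV_wt_none_ne ρ bot h1.le
    · exact D.EV_wt_some_ne ρ bot γ _ _
  · exact D.EV_wt_none_ne ρ bot h2.1.le
  · rw [map_one]
    exact one_ne_zero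

theorem EV_Dl_ne {sl : β → Λ} {ρ : β → ℕ} {bot : β → β} (hs : D.IsStr sl ρ bot) :
    D.ev ρ bot (Dl (D.labr sl ρ)) ≠ 0 := by
  rw [Artin_Dl_eq, map_prod]
  refine Finset.prod_ne_zero_iff.2 fun p hp => ?_
  have hne := Artin_ne_of_pairs hp
  have hl := (Artin_mem_pairs.1 hp).1
  obtain ⟨k | a, l | b⟩ := p
  · simp only [lab, Sum.map_inl, Sum.inl.injEq, Prod.mk.injEq] at hl
    have hb : bot k ≠ bot l := fun e => hne (congrArg Sum.inl (hs.inj k l e hl.2.2))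
    rw [map_sub, EV_ev_inl, EV_ev_inl, hl.2.2, sub_sub_sub_cancel_right]
    exact sub_ne_zero.2 fun e => hb (Sum.inl_injective (X_injective e))
  · simp [lab] at hl
  · simp [lab] at hl
  · simp only [lab, Sum.map_inr, id, Sum.inr.injEq] at hl
    exact absurd (congrArg Sum.inr hl) hne

theorem EV_wrho_inv {sl : β → Λ} {w : Equiv.Perm (β ⊕ τ)} (hw : w ∈ Wl (D.lab sl)) (ρ : β → ℕ) :
    wrho w⁻¹ (wrho w ρ) = ρ := by
  obtain ⟨g, -, rfl⟩ := D.mem_Wl_lab.1 hw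
  funext k
  simp [wrho, Equiv.Perm.inv_def]

theorem EV_labr_wrho {sl : β → Λ} {w : Equiv.Perm (β ⊕ τ)} (hw : w ∈ Wl (D.lab sl)) (ρ : β → ℕ)
    (x : β ⊕ τ) : D.labr sl ρ (w x) = D.labr sl (wrho w ρ) x := by
  obtain ⟨g, hg, rfl⟩ := D.mem_Wl_lab.1 hw
  rcases x with k | a
  · simp [lab, wrho, (hg k).1, (hg k).2]
  · simp [lab]

theorem EV_ev_term {sl : β → Λ} {w : Equiv.Perm (β ⊕ τ)} (hw : w ∈ Wl (D.lab sl)) (ρ ρ' : β → ℕ)
    (bot : β → β) (p : MvPolynomial (β ⊕ τ) ℂ)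
    (h : D.ev ρ bot (sgn w • rename w (p * D.erho sl ρ')) ≠ 0) :
    D.ev ρ bot (D.erho sl (wrho w⁻¹ ρ')) ≠ 0 := by
  intro h0
  apply h
  rw [map_smul, map_mul, map_mul, D.rename_erho hw, h0, mul_zero, smul_zero]

theorem EV_ev_Ylt {sl : β → Λ} {kr : (β → ℕ) → ℕ} (hk : D.IsKr sl kr) {ρ : β → ℕ}
    {bot : β → β} (hs : D.IsStr sl ρ bot) {y : MvPolynomial (β ⊕ τ) ℂ}
    (hy : y ∈ D.Ylt sl kr (kr ρ)) : D.ev ρ bot y = 0 := by
  unfold Ylt at hy
  induction hy using Submodule.span_induction with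
  | mem y hy =>
    obtain ⟨ρ', g, -, hlt, -, rfl⟩ := hy
    unfold gen
    rw [Alt_apply, map_sum]
    refine Finset.sum_eq_zero fun w hw => ?_
    by_contra hne
    have h1 := D.EV_ev_term hw ρ ρ' bot _ hne
    have h2 : kr ρ' = kr (wrho w⁻¹ ρ') := (hk.eq_iff _ _).2 ⟨w⁻¹, inv_mem_Wl hw, rfl⟩
    have h3 := D.EV_eq_of_ne hk hs h1 (by omega)
    rw [h3] at h2
    omega
  | zero => exact map_zero _
  | add a b _ _ ha hb => rw [map_add, ha, hb, add_zero]
  | smul c a _ ha => rw [map_smul, ha, smul_zero]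

theorem EV_ev_gen {sl : β → Λ} {kr : (β → ℕ) → ℕ} (hk : D.IsKr sl kr) {ρ : β → ℕ}
    {bot : β → β} (hs : D.IsStr sl ρ bot) {g : MvPolynomial (β ⊕ τ) ℂ}
    (hg : g ∈ Rinv (D.labr sl ρ)) : D.ev ρ bot (D.gen sl ρ g) =
      ((Wl (D.labr sl ρ)).card : ℂ) • D.ev ρ bot (g * Dl (D.labr sl ρ) * D.erho sl ρ) := by
  have hsub : Wl (D.labr sl ρ) ⊆ Wl (D.lab sl) :=
    Wl_mono (D.refines_lab fun k l h => congrArg Prod.fst h)
  have hanti : ∀ w ∈ Wl (D.labr sl ρ), rename w (g * Dl (D.labr sl ρ) * D.erho sl ρ) =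
      sgn w • (g * Dl (D.labr sl ρ) * D.erho sl ρ) := by
    intro w hw
    rw [map_mul, map_mul, mem_Rinv.1 hg w hw, rename_Dl hw,
      mem_Rinv.1 (D.erho_mem_Rinv sl ρ) w hw, mul_smul_comm, smul_mul_assoc]
  rw [← map_smul, ← Alt_of_anti hanti]
  unfold gen
  rw [Alt_apply, Alt_apply, map_sum, map_sum]
  refine (Finset.sum_subset hsub fun w hw hn => ?_).symm
  by_contra hne
  have h1 := D.EV_ev_term hw ρ ρ bot _ hne
  have h2 : kr ρ = kr (wrho w⁻¹ ρ) := (hk.eq_iff _ _).2 ⟨w⁻¹, inv_mem_Wl hw, rfl⟩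
  have h3 := D.EV_eq_of_ne hk hs h1 h2.ge
  apply hn
  have h4 : w⁻¹ ∈ Wl (D.labr sl ρ) :=
    mem_Wl.2 fun x => by rw [D.EV_labr_wrho (inv_mem_Wl hw), h3]
  simpa using inv_mem_Wl h4

/-- (EV). -/
theorem ev_eq_zero_of_mem {sl : β → Λ} {kr : (β → ℕ) → ℕ} (hk : D.IsKr sl kr) {ρ : β → ℕ}
    {bot : β → β} (hs : D.IsStr sl ρ bot) {g : MvPolynomial (β ⊕ τ) ℂ}
    (hg : g ∈ Rinv (D.labr sl ρ)) (h : D.gen sl ρ g ∈ D.Ylt sl kr (kr ρ)) : D.ev ρ bot g = 0 := by
  have h1 := D.EV_ev_Ylt hk hs h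
  rw [D.EV_ev_gen hk hs hg, smul_eq_zero, map_mul, map_mul, mul_eq_zero, mul_eq_zero] at h1
  rcases h1 with h1 | (h1 | h1) | h1
  · exact absurd h1 (card_Wl_ne_zero _)
  · exact h1
  · exact absurd h1 (D.EV_Dl_ne hs)
  · exact absurd h1 (D.EV_erho_ne sl ρ bot)

theorem ev_isHomogeneous (ρ : β → ℕ) (bot : β → β) {g : MvPolynomial (β ⊕ τ) ℂ} {d : ℕ}
    (hg : g.IsHomogeneous d) : (D.ev ρ bot g).IsHomogeneous d := by
  have := hg.aeval (n := 1) (Sum.elim (fun k => X (Sum.inl (bot k)) - C (ρ k : ℂ) * D.hb)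
    fun a => (X (Sum.inr a) : MvPolynomial (β ⊕ τ) ℂ)) (by
      rintro (k | a)
      · exact (isHomogeneous_X ℂ _).sub (isHomogeneous_C_mul_X _ _)
      · exact isHomogeneous_X ℂ _)
  rw [one_mul] at this
  exact this

/-- The evaluation with values in the polynomials in the bottoms. -/
def EV_ev' (ρ : β → ℕ) (bot : β → β) (hb : ∀ k, bot (bot k) = bot k) :
    MvPolynomial (β ⊕ τ) ℂ →ₐ[ℂ] MvPolynomial ({k // bot k = k} ⊕ τ) ℂ :=
  aeval (Sum.elim (fun k => X (Sum.inl ⟨bot k, hb k⟩) - C (ρ k : ℂ) * X (Sum.inr D.hh))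
    fun a => X (Sum.inr a))

theorem EV_ev_eq (ρ : β → ℕ) (bot : β → β) (hb : ∀ k, bot (bot k) = bot k)
    (g : MvPolynomial (β ⊕ τ) ℂ) :
    D.ev ρ bot g = rename (Sum.map Subtype.val id) (D.EV_ev' ρ bot hb g) := by
  have : D.ev ρ bot = (rename (Sum.map Subtype.val id)).comp (D.EV_ev' ρ bot hb) := by
    refine algHom_ext ?_
    rintro (k | a)
    · simp [ev, EV_ev', HD.hb]
    · simp [ev, EV_ev']
  rw [this]
  rfl

theorem EV_ev'_isHomogeneous (ρ : β → ℕ) (bot : β → β) (hb : ∀ k, bot (bot k) = bot k)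
    (g : MvPolynomial (β ⊕ τ) ℂ) (d : ℕ) (hg : g.IsHomogeneous d) :
    (D.EV_ev' ρ bot hb g).IsHomogeneous d := by
  have := hg.aeval (n := 1) (Sum.elim (fun k => X (Sum.inl ⟨bot k, hb k⟩) -
    C (ρ k : ℂ) * X (Sum.inr D.hh))
    fun a => (X (Sum.inr a) : MvPolynomial ({k // bot k = k} ⊕ τ) ℂ)) (by
      rintro (k | a)
      · exact (isHomogeneous_X ℂ _).sub (isHomogeneous_C_mul_X _ _)
      · exact isHomogeneous_X ℂ _)
  rw [one_mul] at this
  exact this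

/-- The levels on a string. -/
theorem EV_lev {sl : β → Λ} {ρ : β → ℕ} {bot : β → β} (hs : D.IsStr sl ρ bot) (b : β) (m : ℕ) :
    m < (Finset.univ.filter fun l => bot l = b).card ↔ ∃ l, bot l = b ∧ ρ l = m := by
  have hinj : Set.InjOn ρ (Finset.univ.filter fun l => bot l = b : Finset β) := by
    intro k hk l hl e
    simp only [Finset.coe_filter, Finset.mem_univ, true_and, Set.mem_ofPred_eq] at hk hl
    exact hs.inj k l (hk.trans hl.symm) e
  rw [← Finset.card_image_of_injOn hinj]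
  have hmem : ∀ n, n ∈ (Finset.univ.filter fun l => bot l = b).image ρ ↔
      ∃ l, bot l = b ∧ ρ l = n := by
    intro n
    simp
  constructor
  · intro h
    by_contra hc
    have : (Finset.univ.filter fun l => bot l = b).image ρ ⊆ Finset.range m := by
      intro n hn
      obtain ⟨l, hl, rfl⟩ := (hmem n).1 hn
      rw [Finset.mem_range]
      by_contra hlt
      obtain ⟨l', hl', e⟩ := hs.gap l m (by omega)
      exact hc ⟨l', hl'.trans hl, e⟩
    have := Finset.card_le_card this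
    rw [Finset.card_range] at this
    omega
  · rintro ⟨l, hl, rfl⟩
    have : Finset.range (ρ l + 1) ⊆ (Finset.univ.filter fun l => bot l = b).image ρ := by
      intro n hn
      obtain ⟨l', hl', e⟩ := hs.gap l n (by simpa [Nat.lt_succ_iff] using hn)
      exact (hmem n).2 ⟨l', hl'.trans hl, e⟩
    have := Finset.card_le_card this
    rw [Finset.card_range] at this
    omega

/-- Bottoms of the strings with given vertex and slot that reach level `m`. -/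
def EV_P (sl : β → Λ) (bot : β → β) (i : I) (j : Λ) (m : ℕ) (x : {k // bot k = k} ⊕ τ) : Prop :=
  ∃ n, m < n ∧ D.labb sl bot x = Sum.inl (i, j, n)

open Classical in
theorem EV_psl_inl {sl : β → Λ} {ρ : β → ℕ} {bot : β → β} (hs : D.IsStr sl ρ bot) (i : I) (j : Λ)
    (m a : ℕ) : D.EV_ev' ρ bot hs.idem (psl (D.labr sl ρ) (Sum.inl (i, j, m)) a) =
      ∑ x ∈ Finset.univ.filter (D.EV_P sl bot i j m),
        (X x - C (m : ℂ) * X (Sum.inr D.hh)) ^ a := by
  unfold psl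
  rw [map_sum]
  refine Finset.sum_bij (fun x _ => Sum.map (fun k => ⟨bot k, hs.idem k⟩) id x) ?_ ?_ ?_ ?_
  · rintro (k | t) hx
    · simp only [Finset.mem_filter, Finset.mem_univ, true_and, lab, Sum.map_inl, Sum.inl.injEq,
        Prod.mk.injEq] at hx
      simp only [Finset.mem_filter, Finset.mem_univ, true_and, Sum.map_inl]
      refine ⟨_, (D.EV_lev hs (bot k) m).2 ⟨k, rfl, hx.2.2⟩, ?_⟩
      simp only [labb, Sum.map_inl, hs.vx, hs.slot, hx.1, hx.2.1]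
    · simp [lab] at hx
  · rintro (k | t) hx (l | t') hy e
    · simp only [Finset.mem_filter, Finset.mem_univ, true_and, lab, Sum.map_inl, Sum.inl.injEq,
        Prod.mk.injEq] at hx hy
      simp only [Sum.map_inl, Sum.inl.injEq, Subtype.mk.injEq] at e
      exact congrArg Sum.inl (hs.inj k l e (hx.2.2.trans hy.2.2.symm))
    · simp [lab] at hy
    · simp [lab] at hx
    · simp [lab] at hx
  · rintro (b | t) hx
    · simp only [Finset.mem_filter, Finset.mem_univ, true_and] at hx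
      obtain ⟨n, hn, e⟩ := hx
      simp only [labb, Sum.map_inl, Sum.inl.injEq, Prod.mk.injEq] at e
      obtain ⟨l, hl, hm⟩ := (D.EV_lev hs b.1 m).1 (by rw [e.2.2]; exact hn)
      refine ⟨Sum.inl l, ?_, ?_⟩
      · simp only [Finset.mem_filter, Finset.mem_univ, true_and, lab, Sum.map_inl, Sum.inl.injEq,
          Prod.mk.injEq]
        exact ⟨by rw [← hs.vx, hl, e.1], by rw [← hs.slot, hl, e.2.1], hm⟩
      · simp only [Sum.map_inl, Sum.inl.injEq]
        exact Subtype.ext hl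
    · simp only [Finset.mem_filter, Finset.mem_univ, true_and] at hx
      obtain ⟨n, -, e⟩ := hx
      simp [labb] at e
  · rintro (k | t) hx
    · simp only [Finset.mem_filter, Finset.mem_univ, true_and, lab, Sum.map_inl, Sum.inl.injEq,
        Prod.mk.injEq] at hx
      simp [EV_ev', hx.2.2]
    · simp [lab] at hx

theorem EV_X_inr_mem (sl : β → Λ) (bot : β → β) (a : τ) :
    (X (Sum.inr a) : MvPolynomial ({k // bot k = k} ⊕ τ) ℂ) ∈ Rinv (D.labb sl bot) := by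
  refine X_mem_Rinv ?_
  rintro (k | t) h
  · simp [labb] at h
  · simpa [labb] using h

theorem EV_psl_inr {W Λ₁ : Type} [Fintype W] [DecidableEq W] (f : W → Λ₁) (t : τ) (a : ℕ) :
    psl (Sum.map f id : W ⊕ τ → Λ₁ ⊕ τ) (Sum.inr t) a = X (Sum.inr t) ^ a := by
  unfold psl
  rw [Finset.sum_eq_single_of_mem (Sum.inr t) (by simp)]
  rintro (k | t') h hne
  · simp at h
  · simp only [Finset.mem_filter, Finset.mem_univ, true_and, Sum.map_inr, id, Sum.inr.injEq] at h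
    exact absurd (congrArg Sum.inr h) hne

theorem EV_ev'_inr (ρ : β → ℕ) (bot : β → β) (hb : ∀ k, bot (bot k) = bot k) (a : τ) :
    D.EV_ev' ρ bot hb (X (Sum.inr a)) = X (Sum.inr a) := by
  simp [EV_ev']

theorem EV_ev'_mem {sl : β → Λ} {ρ : β → ℕ} {bot : β → β} (hs : D.IsStr sl ρ bot)
    {g : MvPolynomial (β ⊕ τ) ℂ} (hg : g ∈ Rinv (D.labr sl ρ)) :
    D.EV_ev' ρ bot hs.idem g ∈ Rinv (D.labb sl bot) := by
  classical
  have : Rinv (D.labr sl ρ) ≤ (Rinv (D.labb sl bot)).comap (D.EV_ev' ρ bot hs.idem) := by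
    rw [Rinv_eq_adjoin (D.labr sl ρ)]
    refine Algebra.adjoin_le ?_
    rintro _ ⟨⟨i, j, m⟩ | t, a, rfl⟩
    · change D.EV_ev' ρ bot hs.idem _ ∈ Rinv (D.labb sl bot)
      rw [D.EV_psl_inl hs]
      refine EV_sum_mem _ _ ?_ (mul_mem ((Rinv _).algebraMap_mem _) (D.EV_X_inr_mem sl bot _)) a
      rintro k l e ⟨n, hn, h⟩
      exact ⟨n, hn, e ▸ h⟩
    · change D.EV_ev' ρ bot hs.idem (psl (Sum.map _ id) _ _) ∈ Rinv (D.labb sl bot)
      rw [EV_psl_inr, map_pow, EV_ev'_inr]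
      exact pow_mem (D.EV_X_inr_mem sl bot _) a
  exact this hg

theorem ev_mem {sl : β → Λ} {ρ : β → ℕ} {bot : β → β} (hs : D.IsStr sl ρ bot)
    {g : MvPolynomial (β ⊕ τ) ℂ} (hg : g ∈ Rinv (D.labr sl ρ)) :
    ∃ r ∈ Rinv (D.labb sl bot), D.ev ρ bot g = rename (Sum.map Subtype.val id) r ∧
      ∀ d, g.IsHomogeneous d → r.IsHomogeneous d :=
  ⟨D.EV_ev' ρ bot hs.idem g, D.EV_ev'_mem hs hg, D.EV_ev_eq ρ bot hs.idem g,
    D.EV_ev'_isHomogeneous ρ bot hs.idem g⟩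

open Classical in
theorem EV_T_mem {sl : β → Λ} {ρ : β → ℕ} {bot : β → β} (hs : D.IsStr sl ρ bot) (i : I) (j : Λ)
    (m a : ℕ) : ∑ x ∈ Finset.univ.filter (D.EV_P sl bot i j m),
      (X x : MvPolynomial ({k // bot k = k} ⊕ τ) ℂ) ^ a ∈
        (Rinv (D.labr sl ρ)).map (D.EV_ev' ρ bot hs.idem) := by
  have h1 : ∀ x : {k // bot k = k} ⊕ τ, (X x : MvPolynomial ({k // bot k = k} ⊕ τ) ℂ) ^ a =
      ∑ c ∈ Finset.range (a + 1), (X x - C (m : ℂ) * X (Sum.inr D.hh)) ^ c *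
        ((C (m : ℂ) * X (Sum.inr D.hh)) ^ (a - c) *
          ((a.choose c : ℕ) : MvPolynomial ({k // bot k = k} ⊕ τ) ℂ)) := by
    intro x
    simp only [← mul_assoc]
    rw [← add_pow, sub_add_cancel]
  simp only [h1]
  rw [Finset.sum_comm]
  refine Subalgebra.sum_mem _ fun c _ => ?_
  rw [← Finset.sum_mul, ← D.EV_psl_inl hs]
  refine mul_mem ⟨_, psl_mem_Rinv _ _ _, rfl⟩ (mul_mem (pow_mem (mul_mem
    (Subalgebra.algebraMap_mem _ _) ?_) _) (natCast_mem _ _))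
  exact ⟨X (Sum.inr D.hh), D.X_inr_mem_Rinv _ _, D.EV_ev'_inr ρ bot hs.idem D.hh⟩

theorem EV_ev'_onto {sl : β → Λ} {ρ : β → ℕ} {bot : β → β} (hs : D.IsStr sl ρ bot) :
    Rinv (D.labb sl bot) ≤ (Rinv (D.labr sl ρ)).map (D.EV_ev' ρ bot hs.idem) := by
  classical
  rw [Rinv_eq_adjoin (D.labb sl bot)]
  refine Algebra.adjoin_le ?_
  rintro _ ⟨⟨i, j, n⟩ | t, a, rfl⟩
  · rcases n with _ | n
    · have : psl (D.labb sl bot) (Sum.inl (i, j, 0)) a = 0 := by
        unfold psl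
        refine Finset.sum_eq_zero ?_
        rintro (b | t) h
        · exfalso
          simp only [Finset.mem_filter, Finset.mem_univ, true_and, labb, Sum.map_inl,
            Sum.inl.injEq, Prod.mk.injEq, Finset.card_eq_zero] at h
          have hb : b.1 ∈ Finset.univ.filter fun l => bot l = b.1 := by simpa using b.2
          rw [h.2.2] at hb
          simp at hb
        · simp [labb] at h
      rw [this]
      exact zero_mem _
    · have : psl (D.labb sl bot) (Sum.inl (i, j, n + 1)) a =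
          ∑ x ∈ Finset.univ.filter (D.EV_P sl bot i j n), X x ^ a -
            ∑ x ∈ Finset.univ.filter (D.EV_P sl bot i j (n + 1)), X x ^ a := by
        unfold psl
        rw [eq_sub_iff_add_eq, ← Finset.sum_union]
        · refine Finset.sum_congr ?_ fun _ _ => rfl
          ext x
          simp only [Finset.mem_union, Finset.mem_filter, Finset.mem_univ, true_and, EV_P]
          constructor
          · rintro (h | ⟨n', hn', h⟩)
            · exact ⟨n + 1, Nat.lt_succ_self n, h⟩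
            · exact ⟨n', by omega, h⟩
          · rintro ⟨n', hn', h⟩
            rcases Nat.lt_or_ge (n + 1) n' with h' | h'
            · exact Or.inr ⟨n', h', h⟩
            · obtain rfl : n' = n + 1 := by omega
              exact Or.inl h
        · refine Finset.disjoint_left.2 fun x h h' => ?_
          simp only [Finset.mem_filter, Finset.mem_univ, true_and] at h h'
          obtain ⟨n', hn', h'⟩ := h'
          rw [h] at h'
          simp only [Sum.inl.injEq, Prod.mk.injEq] at h'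
          omega
      rw [this]
      exact sub_mem (D.EV_T_mem hs i j n a) (D.EV_T_mem hs i j (n + 1) a)
  · change psl (Sum.map _ id) _ _ ∈ (Rinv (D.labr sl ρ)).map (D.EV_ev' ρ bot hs.idem)
    rw [EV_psl_inr]
    refine pow_mem ?_ a
    exact ⟨X (Sum.inr t), D.X_inr_mem_Rinv _ _, D.EV_ev'_inr ρ bot hs.idem t⟩

theorem ev_onto {sl : β → Λ} {ρ : β → ℕ} {bot : β → β} (hs : D.IsStr sl ρ bot)
    {r : MvPolynomial ({k // bot k = k} ⊕ τ) ℂ} (hr : r ∈ Rinv (D.labb sl bot)) {d : ℕ}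
    (hd : r.IsHomogeneous d) : ∃ g ∈ Rinv (D.labr sl ρ), g.IsHomogeneous d ∧
      D.ev ρ bot g = rename (Sum.map Subtype.val id) r := by
  obtain ⟨g, hg, e⟩ := D.EV_ev'_onto hs hr
  refine ⟨homogeneousComponent d g, homogeneousComponent_mem_Rinv hg d,
    homogeneousComponent_isHomogeneous d g, ?_⟩
  have e' : D.EV_ev' ρ bot hs.idem g = r := e
  rw [D.EV_ev_eq ρ bot hs.idem, EV_hc_comm _ (D.EV_ev'_isHomogeneous ρ bot hs.idem), e',
    homogeneousComponent_eq_self hd]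

theorem EV_gen_add (sl : β → Λ) (ρ : β → ℕ) (g g' : MvPolynomial (β ⊕ τ) ℂ) :
    D.gen sl ρ (g + g') = D.gen sl ρ g + D.gen sl ρ g' := by
  unfold gen
  rw [add_mul, add_mul, map_add]

theorem EV_gen_smul (sl : β → Λ) (ρ : β → ℕ) (c : ℂ) (g : MvPolynomial (β ⊕ τ) ℂ) :
    D.gen sl ρ (c • g) = c • D.gen sl ρ g := by
  unfold gen
  rw [smul_mul_assoc, smul_mul_assoc, map_smul]

theorem EV_gen_zero (sl : β → Λ) (ρ : β → ℕ) : D.gen sl ρ 0 = 0 := by
  unfold gen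
  rw [zero_mul, zero_mul, map_zero]

/-- The generators only depend on the type of the level function. -/
theorem gen_wrho {sl : β → Λ} {w : Equiv.Perm (β ⊕ τ)} (hw : w ∈ Wl (D.lab sl)) (ρ : β → ℕ)
    {g : MvPolynomial (β ⊕ τ) ℂ} (hg : g ∈ Rinv (D.labr sl (wrho w ρ))) :
    ∃ g' ∈ Rinv (D.labr sl ρ), D.gen sl (wrho w ρ) g = D.gen sl ρ g' ∧
      ∀ d, g.IsHomogeneous d → g'.IsHomogeneous d := by
  obtain ⟨c, hc⟩ := EV_rename_Dl (D.EV_labr_wrho hw ρ)
  refine ⟨(sgn w * c) • rename w g,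
    Subalgebra.smul_mem _ (EV_rename_mem_Rinv (D.EV_labr_wrho hw ρ) hg) _, ?_, fun d hd => ?_⟩
  · have h1 := Alt_rename hw (g * Dl (D.labr sl (wrho w ρ)) * D.erho sl (wrho w ρ))
    rw [map_mul (rename w), map_mul (rename w), hc, D.rename_erho hw, D.EV_wrho_inv hw,
      mul_smul_comm, smul_mul_assoc, map_smul] at h1
    rw [EV_gen_smul, mul_smul]
    unfold gen
    rw [h1, smul_smul, sgn_mul_self, one_smul]
  · rw [smul_eq_C_mul]
    exact hd.rename_isHomogeneous.C_mul _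

theorem hom_mem_Ylt (sl : β → Λ) (kr : (β → ℕ) → ℕ) (c : ℕ) {y : MvPolynomial (β ⊕ τ) ℂ}
    (hy : y ∈ D.Ylt sl kr c) (d : ℕ) : homogeneousComponent d y ∈ D.Ylt sl kr c := by
  unfold Ylt at hy
  induction hy using Submodule.span_induction with
  | mem y hy =>
    obtain ⟨ρ, g, hρ, hlt, hg, rfl⟩ := hy
    obtain ⟨e, he⟩ := D.exists_erho_isHomogeneous sl ρ
    have h1 := (Dl_isHomogeneous (D.labr sl ρ)).mul he
    refine Submodule.subset_span ⟨ρ, if d < npos (D.labr sl ρ) + e then 0 else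
      homogeneousComponent (d - (npos (D.labr sl ρ) + e)) g, hρ, hlt, ?_, ?_⟩
    · split_ifs
      · exact zero_mem _
      · exact homogeneousComponent_mem_Rinv hg _
    · unfold gen
      rw [homogeneousComponent_Alt, mul_assoc, mul_assoc, Artin_hc_mul g h1]
  | zero =>
    rw [map_zero]
    exact zero_mem _
  | add a b _ _ ha hb =>
    rw [map_add]
    exact add_mem ha hb
  | smul t a _ ha =>
    rw [map_smul]
    exact Submodule.smul_mem _ t ha

/-- Decomposition of an element of `Ylt (c + 1)`. -/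
theorem mem_Ylt_succ {sl : β → Λ} {kr : (β → ℕ) → ℕ} (hk : D.IsKr sl kr) {ρ : β → ℕ}
    {y : MvPolynomial (β ⊕ τ) ℂ} (hy : y ∈ D.Ylt sl kr (kr ρ + 1)) :
    ∃ g ∈ Rinv (D.labr sl ρ), y - D.gen sl ρ g ∈ D.Ylt sl kr (kr ρ) := by
  unfold Ylt at hy
  induction hy using Submodule.span_induction with
  | mem y hy =>
    obtain ⟨ρ', g, hρ, hlt, hg, rfl⟩ := hy
    rcases Nat.lt_or_ge (kr ρ') (kr ρ) with h | h
    · refine ⟨0, zero_mem _, ?_⟩
      rw [EV_gen_zero, sub_zero]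
      exact Submodule.subset_span ⟨ρ', g, hρ, h, hg, rfl⟩
    · obtain ⟨w, hw, rfl⟩ := (hk.eq_iff ρ ρ').1 (by omega)
      obtain ⟨g', hg', e, -⟩ := D.gen_wrho hw ρ hg
      refine ⟨g', hg', ?_⟩
      rw [e, sub_self]
      exact zero_mem _
  | zero =>
    refine ⟨0, zero_mem _, ?_⟩
    rw [EV_gen_zero, sub_zero]
    exact zero_mem _
  | add a b _ _ ha hb =>
    obtain ⟨g, hg, h⟩ := ha
    obtain ⟨g', hg', h'⟩ := hb
    refine ⟨g + g', add_mem hg hg', ?_⟩
    rw [EV_gen_add, add_sub_add_comm]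
    exact add_mem h h'
  | smul t a _ ha =>
    obtain ⟨g, hg, h⟩ := ha
    refine ⟨t • g, Subalgebra.smul_mem _ hg t, ?_⟩
    rw [EV_gen_smul, ← smul_sub]
    exact Submodule.smul_mem _ t h
theorem Ylt_succ_eq (sl : β → Λ) (kr : (β → ℕ) → ℕ) {c : ℕ}
    (h : ∀ ρ, D.Decr sl ρ → kr ρ ≠ c) : D.Ylt sl kr (c + 1) = D.Ylt sl kr c := by
  unfold Ylt
  congr 1
  ext y
  constructor
  · rintro ⟨ρ, g, hρ, hlt, hg, e⟩
    exact ⟨ρ, g, hρ, lt_of_le_of_ne (Nat.lt_succ_iff.1 hlt) (h ρ hρ), hg, e⟩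
  · rintro ⟨ρ, g, hρ, hlt, hg, e⟩
    exact ⟨ρ, g, hρ, Nat.lt_succ_of_lt hlt, hg, e⟩
theorem Ylt_zero (sl : β → Λ) (kr : (β → ℕ) → ℕ) : D.Ylt sl kr 0 = ⊥ := by
  unfold Ylt
  rw [Submodule.span_eq_bot]
  rintro y ⟨ρ, g, -, hlt, -⟩
  exact absurd hlt (Nat.not_lt_zero _)
theorem Ylt_le_Y (sl : β → Λ) (kr : (β → ℕ) → ℕ) (c : ℕ) : D.Ylt sl kr c ≤ D.Y sl := by
  unfold Ylt
  rw [Submodule.span_le]
  rintro y ⟨ρ, g, -, -, -, rfl⟩
  exact D.gen_mem_Y sl ρ g

end HD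

end Pool.Agent.HK
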