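import Pool.Agent.P.MP_1206ce_ag.AH.Reg

/-! The link between the two presentations of `I'`. -/

noncomputable section

open MvPolynomial

namespace Pool.Agent.HK

section general

variable {V V' Λ Λ' : Type} [Fintype V] [DecidableEq V] [Fintype V'] [DecidableEq V']

open Classical in
/-- The product over all ordered pairs of different variables with the same label. -/
def Link_P (lab : V → Λ) : MvPolynomial V ℂ :=
  ∏ p ∈ Finset.univ.filter (fun p : V × V => lab p.1 = lab p.2 ∧ p.1 ≠ p.2), (X p.1 - X p.2)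

theorem Link_P_assoc (lab : V → Λ) : Associated (Dl lab ^ 2) (Link_P lab) := by
  classical
  have h1 : Link_P lab = Dl lab * ∏ p ∈ Finset.univ.filter
      (fun p : V × V => lab p.1 = lab p.2 ∧ ordV p.2 < ordV p.1), (X p.1 - X p.2) := by
    unfold Link_P Dl
    rw [← Finset.prod_union]
    · refine Finset.prod_congr ?_ fun _ _ => rfl
      ext p
      simp only [Finset.mem_filter, Finset.mem_univ, true_and, Finset.mem_union]
      constructor
      · rintro ⟨h, hne⟩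
        rcases lt_or_gt_of_ne (fun e => hne (ordV_injective e)) with h' | h'
        · exact Or.inl ⟨h, h'⟩
        · exact Or.inr ⟨h, h'⟩
      · rintro (⟨h, h'⟩ | ⟨h, h'⟩)
        · exact ⟨h, fun e => by rw [e] at h'; exact lt_irrefl _ h'⟩
        · exact ⟨h, fun e => by rw [e] at h'; exact lt_irrefl _ h'⟩
    · rw [Finset.disjoint_filter]
      rintro p - ⟨-, h⟩ ⟨-, h'⟩
      exact lt_asymm h h'
  have h2 : ∏ p ∈ Finset.univ.filter
      (fun p : V × V => lab p.1 = lab p.2 ∧ ordV p.2 < ordV p.1),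
        (X p.1 - X p.2 : MvPolynomial V ℂ)
      = ∏ p ∈ Finset.univ.filter (fun p : V × V => lab p.1 = lab p.2 ∧ ordV p.1 < ordV p.2),
        -(X p.1 - X p.2 : MvPolynomial V ℂ) := by
    refine Finset.prod_equiv (Equiv.prodComm V V) (fun p => ?_) (fun p _ => ?_)
    · simp only [Finset.mem_filter, Finset.mem_univ, true_and, Equiv.prodComm_apply,
        Prod.fst_swap, Prod.snd_swap]
      exact and_congr_left fun _ => eq_comm
    · simp
  have h3 : Associated (Dl lab) (∏ p ∈ Finset.univ.filter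
      (fun p : V × V => lab p.1 = lab p.2 ∧ ordV p.1 < ordV p.2),
        -(X p.1 - X p.2 : MvPolynomial V ℂ)) := by
    unfold Dl
    convert Associated.prod _ _ _ fun p _ => (Associated.refl _).neg_right
  rw [h1, h2, sq]
  exact h3.mul_left _

theorem Link_rename_P {lab : V → Λ} {lab' : V' → Λ'} {ι : V' → V} (hι : Function.Injective ι)
    (hl : ∀ a b, lab (ι a) = lab (ι b) ↔ lab' a = lab' b)
    (hs : ∀ x y, lab x = lab y → x ≠ y → x ∈ Set.range ι) :
    rename ι (Link_P lab') = Link_P lab := by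
  unfold Link_P
  rw [map_prod]
  refine Finset.prod_bij (fun p _ => (ι p.1, ι p.2)) ?_ ?_ ?_ ?_
  · intro p hp
    simp only [Finset.mem_filter, Finset.mem_univ, true_and] at hp ⊢
    exact ⟨(hl _ _).2 hp.1, fun e => hp.2 (hι e)⟩
  · intro p _ q _ h
    simp only [Prod.mk.injEq] at h
    exact Prod.ext (hι h.1) (hι h.2)
  · intro q hq
    simp only [Finset.mem_filter, Finset.mem_univ, true_and] at hq
    obtain ⟨a, ha⟩ := hs q.1 q.2 hq.1 hq.2
    obtain ⟨b, hb⟩ := hs q.2 q.1 hq.1.symm hq.2.symm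
    refine ⟨(a, b), ?_, Prod.ext ha hb⟩
    simp only [Finset.mem_filter, Finset.mem_univ, true_and]
    refine ⟨(hl _ _).1 (by rw [ha, hb]; exact hq.1), fun e => hq.2 ?_⟩
    rw [← ha, ← hb, e]
  · intro p _
    simp

/-- The Vandermonde product is preserved up to a unit. -/
theorem Link_rename_Dl {lab : V → Λ} {lab' : V' → Λ'} {ι : V' → V} (hι : Function.Injective ι)
    (hl : ∀ a b, lab (ι a) = lab (ι b) ↔ lab' a = lab' b)
    (hs : ∀ x y, lab x = lab y → x ≠ y → x ∈ Set.range ι) :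
    Associated (rename ι (Dl lab')) (Dl lab) := by
  rw [← Associated.pow_iff two_ne_zero, ← map_pow]
  have h1 := (Link_P_assoc lab').map (rename ι : MvPolynomial V' ℂ →ₐ[ℂ] MvPolynomial V ℂ)
  rw [Link_rename_P hι hl hs] at h1
  exact h1.trans (Link_P_assoc lab).symm

/-- A map that translates all variables of a block by the same amount. -/
theorem Link_map_Dl {lab' : V' → Λ'} {ι : V' → V}
    (φ : MvPolynomial V' ℂ →ₐ[ℂ] MvPolynomial V ℂ)
    (hφ : ∀ a b, lab' a = lab' b → φ (X a) - φ (X b) = X (ι a) - X (ι b)) :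
    φ (Dl lab') = rename ι (Dl lab') := by
  unfold Dl
  rw [map_prod, map_prod]
  refine Finset.prod_congr rfl fun p hp => ?_
  simp only [Finset.mem_filter, Finset.mem_univ, true_and] at hp
  rw [map_sub, hφ _ _ hp.1, map_sub, rename_X, rename_X]

/-- Setting the variables outside the range of `ι` to zero preserves invariance. -/
theorem Link_kill_mem {lab : V → Λ} {lab' : V' → Λ'} {ι : V' → V} (hι : Function.Injective ι)
    (hl : ∀ a b, lab' a = lab' b → lab (ι a) = lab (ι b))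
    (φ : MvPolynomial V ℂ →ₐ[ℂ] MvPolynomial V' ℂ) (h1 : ∀ a, φ (X (ι a)) = X a)
    (h2 : ∀ x, x ∉ Set.range ι → φ (X x) = 0) {h : MvPolynomial V ℂ} (hh : h ∈ Rinv lab) :
    φ h ∈ Rinv lab' := by
  refine mem_Rinv.2 fun w' hw' => ?_
  let w : Equiv.Perm V := w'.viaEmbedding ⟨ι, hι⟩
  have hw1 : ∀ a, w (ι a) = ι (w' a) := fun a => w'.viaEmbedding_apply ⟨ι, hι⟩ a
  have hw2 : ∀ x, x ∉ Set.range ι → w x = x := fun x hx =>
    w'.viaEmbedding_apply_of_notMem ⟨ι, hι⟩ x hx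
  have hw : w ∈ Wl lab := by
    refine mem_Wl.2 fun x => ?_
    by_cases hx : x ∈ Set.range ι
    · obtain ⟨a, rfl⟩ := hx
      rw [hw1]
      exact hl _ _ (mem_Wl.1 hw' a)
    · rw [hw2 x hx]
  have hc : (rename w').comp φ = φ.comp (rename w) := by
    refine MvPolynomial.algHom_ext fun x => ?_
    simp only [AlgHom.comp_apply, rename_X]
    by_cases hx : x ∈ Set.range ι
    · obtain ⟨a, rfl⟩ := hx
      rw [h1, hw1, h1, rename_X]
    · rw [hw2 x hx, h2 x hx, map_zero]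
  have := DFunLike.congr_fun hc h
  simp only [AlgHom.comp_apply] at this
  rw [this, mem_Rinv.1 hh w hw]

omit [Fintype V] [DecidableEq V] in
theorem Link_sub_mem (ψ : MvPolynomial V ℂ →ₐ[ℂ] MvPolynomial V ℂ) (J : Ideal (MvPolynomial V ℂ))
    (h : ∀ x, X x - ψ (X x) ∈ J) (p : MvPolynomial V ℂ) : p - ψ p ∈ J := by
  have hc : Ideal.Quotient.mkₐ ℂ J = (Ideal.Quotient.mkₐ ℂ J).comp ψ :=
    MvPolynomial.algHom_ext fun x => Ideal.Quotient.eq.2 (h x)
  exact Ideal.Quotient.eq.1 (DFunLike.congr_fun hc p)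

/-- Averaging the coefficients. -/
theorem Link_avg {lab : V → Λ} {g a b c r₁ r₂ r₃ : MvPolynomial V ℂ} (hg : g ∈ Rinv lab)
    (ha : a ∈ Rinv lab) (hb : b ∈ Rinv lab) (hc : c ∈ Rinv lab)
    (h : g = a * r₁ + b * r₂ + c * r₃) :
    ∃ s₁ ∈ Rinv lab, ∃ s₂ ∈ Rinv lab, ∃ s₃ ∈ Rinv lab, g = a * s₁ + b * s₂ + c * s₃ := by
  have h1 := Sym_of_mem hg
  refine ⟨((Wl lab).card : ℂ)⁻¹ • Sym lab r₁, (Rinv lab).smul_mem (Sym_mem_Rinv lab r₁) _,
    ((Wl lab).card : ℂ)⁻¹ • Sym lab r₂, (Rinv lab).smul_mem (Sym_mem_Rinv lab r₂) _,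
    ((Wl lab).card : ℂ)⁻¹ • Sym lab r₃, (Rinv lab).smul_mem (Sym_mem_Rinv lab r₃) _, ?_⟩
  have h2 : Sym lab g = a * Sym lab r₁ + b * Sym lab r₂ + c * Sym lab r₃ := by
    rw [h, map_add, map_add, Sym_mul ha, Sym_mul hb, Sym_mul hc]
  rw [mul_smul_comm, mul_smul_comm, mul_smul_comm, ← smul_add, ← smul_add, ← h2, h1, smul_smul,
    inv_mul_cancel₀ (card_Wl_ne_zero lab), one_smul]

end general

namespace Qv

variable (Q : Qv)

theorem Link_vb_none {l : Option (Fin Q.nB)} : Q.vb l = none ↔ l = none := by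
  cases l <;> simp [vb]

theorem Link_dimv_none : Q.hd.dimv Finset.univ none = 1 := by
  unfold HD.dimv
  rw [Finset.card_eq_one]
  refine ⟨none, ?_⟩
  ext l
  simp only [Finset.mem_filter, Finset.mem_univ, true_and, Finset.mem_singleton]
  exact Q.Link_vb_none

theorem Link_dimv_some (i : Fin Q.nI) : Q.hd.dimv Finset.univ (some i) = Q.dim i := by
  unfold HD.dimv dim
  symm
  refine Finset.card_bij (fun k _ => some k) ?_ ?_ ?_
  · intro k hk
    simp only [Finset.mem_filter, Finset.mem_univ, true_and] at hk ⊢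
    change some (Q.vt k) = some i
    rw [hk]
  · intro k _ l _ h
    exact Option.some.inj h
  · intro l hl
    simp only [Finset.mem_filter, Finset.mem_univ, true_and] at hl
    cases l with
    | none => exact absurd hl (by simp [hd, vb])
    | some k =>
      refine ⟨k, ?_, rfl⟩
      simp only [Finset.mem_filter, Finset.mem_univ, true_and]
      exact Option.some.inj hl

theorem Link_thd (θ : Fin Q.nI → ℤ) (d : Option (Fin Q.nI) → ℕ) :
    thd (Q.thb θ) d = (-∑ i, θ i * (Q.dim i : ℤ)) * d none + ∑ i, θ i * (d (some i) : ℤ) := by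
  unfold thd
  rw [Fintype.sum_option]
  rfl

theorem gen0 {θ : Fin Q.nI → ℤ} (hθ : Q.Generic θ) : Q.hd.Gen0 (Q.thb θ) none := by
  refine ⟨fun l hl => Q.Link_vb_none.1 hl, ?_, fun d hd h0 h1 => ?_⟩
  · rw [Link_thd, Link_dimv_none]
    simp only [Link_dimv_some]
    simp
  · have hle : ∀ i, d (some i) ≤ Q.dim i := fun i => Q.Link_dimv_some i ▸ hd (some i)
    have hn : d none ≤ 1 := Q.Link_dimv_none ▸ hd none
    rw [Link_thd]
    rcases Nat.le_one_iff_eq_zero_or_eq_one.1 hn with h | h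
    · rw [h, Nat.cast_zero, mul_zero, zero_add]
      refine hθ (fun i => d (some i)) hle fun e => h0 ?_
      funext j
      cases j with
      | none => exact h
      | some i => exact congrFun e i
    · have h2 := hθ (fun i => Q.dim i - d (some i)) (fun i => Nat.sub_le _ _) fun e => h1 (by
        funext j
        cases j with
        | none => rw [h, Link_dimv_none]
        | some i =>
          rw [Link_dimv_some]
          exact le_antisymm (hle i) (Nat.sub_eq_zero_iff_le.1 (congrFun e i)))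
      simp only [Nat.cast_sub (hle _), mul_sub, Finset.sum_sub_distrib] at h2
      rw [h, Nat.cast_one, mul_one]
      intro e
      apply h2
      linarith

theorem inc_injective : Function.Injective Q.inc :=
  Sum.map_injective.2 ⟨Option.some_injective _,
    fun _ _ h => Fin.succ_injective _ (Option.some.inj h)⟩

theorem inc_lab (k l : Q.Var) : Q.hd.lab0 (Q.inc k) = Q.hd.lab0 (Q.inc l) ↔ Q.lab k = Q.lab l := by
  rcases k with k | k <;> rcases l with l | l <;> simp [HD.lab, inc, lab, hd, vb]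

theorem inc_block (k : Q.Var) (x : Q.HV) (h : Q.hd.lab0 x = Q.hd.lab0 (Q.inc k)) :
    x ∈ Set.range Q.inc := by
  rcases k with k | k
  · rcases x with (_ | x) | x
    · simp [HD.lab, inc, hd, vb] at h
    · exact ⟨Sum.inl x, rfl⟩
    · simp [HD.lab, inc] at h
  · rcases x with x | x
    · simp [HD.lab, inc] at h
    · refine ⟨Sum.inr k, ?_⟩
      simp only [HD.lab, inc, Sum.map_inr, id, Sum.inr.injEq] at h ⊢
      exact h.symm

theorem Link_spec3_inc (a : Q.Var) : Q.spec3 (X (Q.inc a)) = X a := by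
  rcases a with a | a <;> simp [spec3, inc, xv]

theorem Link_not_range {x : Q.HV} (hx : x ∉ Set.range Q.inc) :
    x = Sum.inr none ∨ x = Sum.inr (some 0) ∨ x = Sum.inl none := by
  rcases x with (_ | x) | (_ | x)
  · exact Or.inr (Or.inr rfl)
  · exact absurd ⟨Sum.inl x, rfl⟩ hx
  · exact Or.inl rfl
  · induction x using Fin.cases with
    | zero => exact Or.inr (Or.inl rfl)
    | succ a => exact absurd ⟨Sum.inr a, rfl⟩ hx

theorem Link_spec3_h : Q.spec3 (X (Sum.inr none)) = 0 := by simp [spec3]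
theorem Link_spec3_b : Q.spec3 (X (Sum.inr (some 0))) = 0 := by simp [spec3]
theorem Link_spec3_x : Q.spec3 (X (Sum.inl none)) = 0 := by simp [spec3, xv]

theorem Link_spec3_zero (x : Q.HV) (hx : x ∉ Set.range Q.inc) : Q.spec3 (X x) = 0 := by
  rcases Q.Link_not_range hx with rfl | rfl | rfl
  · exact Q.Link_spec3_h
  · exact Q.Link_spec3_b
  · exact Q.Link_spec3_x

theorem spec3_rename (h : Q.Pol) : Q.spec3 (rename Q.inc h) = h := by
  have hc : Q.spec3.comp (rename Q.inc) = AlgHom.id ℂ _ :=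
    MvPolynomial.algHom_ext fun a => by
      rw [AlgHom.comp_apply, rename_X, Link_spec3_inc, AlgHom.id_apply]
  exact DFunLike.congr_fun hc h

theorem spec3_mem {h : MvPolynomial Q.HV ℂ} (hh : h ∈ Rinv Q.hd.lab0) :
    Q.spec3 h ∈ Rinv Q.lab :=
  Link_kill_mem Q.inc_injective (fun a b e => (Q.inc_lab a b).2 e) Q.spec3 Q.Link_spec3_inc
    Q.Link_spec3_zero hh

theorem spec3_isHomogeneous {h : MvPolynomial Q.HV ℂ} {d : ℕ} (hh : h.IsHomogeneous d) :
    (Q.spec3 h).IsHomogeneous d := by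
  have h1 : ∀ x, (Q.spec3 (X x)).IsHomogeneous 1 := by
    intro x
    by_cases hx : x ∈ Set.range Q.inc
    · obtain ⟨a, rfl⟩ := hx
      rw [Link_spec3_inc]
      exact isHomogeneous_X ℂ a
    · rw [Q.Link_spec3_zero x hx]
      exact isHomogeneous_zero _ _ _
  have h2 := hh.aeval (⇑Q.spec3 ∘ X) h1
  rw [one_mul, ← aeval_unique] at h2
  exact h2

theorem Link_single_x (l : Q.HV) (h : Q.hd.lab0 l = Q.hd.lab0 (Sum.inl none)) :
    l = Sum.inl none := by
  rcases l with (_ | l) | l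
  · rfl
  · simp [HD.lab, hd, vb] at h
  · simp [HD.lab] at h

theorem Link_single_t (a : Option (Fin (Q.nT + 1))) (l : Q.HV)
    (h : Q.hd.lab0 l = Q.hd.lab0 (Sum.inr a)) : l = Sum.inr a := by
  rcases l with l | l
  · simp [HD.lab] at h
  · simpa [HD.lab] using h

theorem sub_spec3 {h : MvPolynomial Q.HV ℂ} (hh : h ∈ Rinv Q.hd.lab0) :
    ∃ r₁ ∈ Rinv Q.hd.lab0, ∃ r₂ ∈ Rinv Q.hd.lab0, ∃ r₃ ∈ Rinv Q.hd.lab0,
      h - rename Q.inc (Q.spec3 h) =
        X (Sum.inr none) * r₁ + X (Sum.inr (some 0)) * r₂ + X (Sum.inl none) * r₃ := by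
  have hg : h - rename Q.inc (Q.spec3 h) ∈ Rinv Q.hd.lab0 :=
    (Rinv _).sub_mem hh (rename_mem_Rinv Q.inc_injective (fun a b e => (Q.inc_lab a b).1 e)
      Q.inc_block (Q.spec3_mem hh))
  have hJ := Link_sub_mem ((rename Q.inc).comp Q.spec3)
    (Ideal.span {X (Sum.inr none), X (Sum.inr (some 0)), X (Sum.inl none)}) (by
      intro x
      rw [AlgHom.comp_apply]
      by_cases hx : x ∈ Set.range Q.inc
      · obtain ⟨a, rfl⟩ := hx
        rw [Link_spec3_inc, rename_X, sub_self]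
        exact Ideal.zero_mem _
      · rw [Q.Link_spec3_zero x hx, map_zero, sub_zero]
        refine Ideal.subset_span ?_
        rcases Q.Link_not_range hx with rfl | rfl | rfl <;> simp) h
  rw [AlgHom.comp_apply] at hJ
  obtain ⟨r₁, z, hz, e1⟩ := Ideal.mem_span_insert.1 hJ
  obtain ⟨r₂, r₃, e2⟩ := Ideal.mem_span_pair.1 hz
  refine Link_avg (r₁ := r₁) (r₂ := r₂) (r₃ := r₃) hg (X_mem_Rinv (Q.Link_single_t none))
    (X_mem_Rinv (Q.Link_single_t (some 0))) (X_mem_Rinv Q.Link_single_x) ?_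
  rw [e1, ← e2]
  ring

/-- The inclusion of the variables of the datum with the extra flavour direction. -/
def Link_inc : Q.bdef.Var → Q.HV := Sum.map some some

/-- Setting `ħ` and `x_∞` to zero. -/
def Link_pi : MvPolynomial Q.HV ℂ →ₐ[ℂ] Q.bdef.Pol :=
  aeval (Sum.elim Q.bdef.xv fun o => o.elim 0 fun a => X (Sum.inr a))

/-- The translation `x_k ↦ x_k - x_∞`. -/
def Link_tr : MvPolynomial Q.HV ℂ →ₐ[ℂ] MvPolynomial Q.HV ℂ :=
  aeval (Sum.elim (fun k => X (Sum.inl k) - X (Sum.inl none)) fun a => X (Sum.inr a))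

/-- The translation invariant lift. -/
def Link_lam : Q.bdef.Pol →ₐ[ℂ] MvPolynomial Q.HV ℂ := Q.Link_tr.comp (rename Q.Link_inc)

theorem Link_inc_injective : Function.Injective Q.Link_inc :=
  Sum.map_injective.2 ⟨Option.some_injective _, Option.some_injective _⟩

theorem Link_lam_inl (k : Fin Q.nB) :
    Q.Link_lam (X (Sum.inl k)) = X (Sum.inl (some k)) - X (Sum.inl none) := by
  simp [Link_lam, Link_tr, Link_inc]

theorem Link_lam_inr (a : Fin (Q.nT + 1)) :
    Q.Link_lam (X (Sum.inr a)) = X (Sum.inr (some a)) := by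
  simp [Link_lam, Link_tr, Link_inc]

theorem Link_pi_inc (a : Q.bdef.Var) : Q.Link_pi (X (Q.Link_inc a)) = X a := by
  rcases a with a | a <;> simp [Link_pi, Link_inc, xv]

theorem Link_pi_x : Q.Link_pi (X (Sum.inl none)) = 0 := by simp [Link_pi, xv]
theorem Link_pi_h : Q.Link_pi (X (Sum.inr none)) = 0 := by simp [Link_pi]

theorem Link_pi_zero (x : Q.HV) (hx : x ∉ Set.range Q.Link_inc) : Q.Link_pi (X x) = 0 := by
  rcases x with (_ | x) | (_ | x)
  · exact Q.Link_pi_x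
  · exact absurd ⟨Sum.inl x, rfl⟩ hx
  · exact Q.Link_pi_h
  · exact absurd ⟨Sum.inr x, rfl⟩ hx

theorem Link_pi_lam (h : Q.bdef.Pol) : Q.Link_pi (Q.Link_lam h) = h := by
  have hc : Q.Link_pi.comp Q.Link_lam = AlgHom.id ℂ _ := by
    refine MvPolynomial.algHom_ext fun a => ?_
    rw [AlgHom.comp_apply, AlgHom.id_apply]
    rcases a with a | a
    · rw [Link_lam_inl, map_sub, Link_pi_x, sub_zero]
      exact Q.Link_pi_inc (Sum.inl a)
    · rw [Link_lam_inr]
      exact Q.Link_pi_inc (Sum.inr a)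
  exact DFunLike.congr_fun hc h

theorem Link_spec_pi (h : MvPolynomial Q.HV ℂ) : Q.spec (Q.Link_pi h) = Q.spec3 h := by
  have hc : Q.spec.comp Q.Link_pi = Q.spec3 := by
    refine MvPolynomial.algHom_ext fun x => ?_
    rw [AlgHom.comp_apply]
    rcases x with (_ | x) | (_ | x)
    · rw [Link_pi_x, map_zero, Link_spec3_x]
    · simp [Link_pi, spec, spec3, xv]
    · rw [Link_pi_h, map_zero, Link_spec3_h]
    · simp [Link_pi, spec, spec3]
  exact DFunLike.congr_fun hc h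

theorem Link_pi_h0 (h : MvPolynomial Q.HV ℂ) : Q.Link_pi (Q.hd.h0 h) = Q.Link_pi h := by
  have hc : Q.Link_pi.comp Q.hd.h0 = Q.Link_pi := by
    refine MvPolynomial.algHom_ext fun x => ?_
    rw [AlgHom.comp_apply, HD.h0, aeval_X]
    split_ifs with hx
    · rw [hx, map_zero]
      exact Q.Link_pi_h.symm
    · rfl
  exact DFunLike.congr_fun hc h

theorem Link_h0_lam (h : Q.bdef.Pol) : Q.hd.h0 (Q.Link_lam h) = Q.Link_lam h := by
  have hc : Q.hd.h0.comp Q.Link_lam = Q.Link_lam := by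
    refine MvPolynomial.algHom_ext fun a => ?_
    rw [AlgHom.comp_apply]
    rcases a with a | a
    · rw [Link_lam_inl]
      simp [HD.h0]
    · rw [Link_lam_inr]
      simp [HD.h0, hd]
  exact DFunLike.congr_fun hc h

theorem Link_inc_lab (a b : Q.bdef.Var) :
    Q.hd.lab0 (Q.Link_inc a) = Q.hd.lab0 (Q.Link_inc b) ↔ Q.bdef.lab a = Q.bdef.lab b := by
  rcases a with k | k <;> rcases b with l | l <;> simp [HD.lab, Link_inc, lab, hd, vb]

theorem Link_inc_labr (ρ : Option (Fin Q.nB) → ℕ) (a b : Q.bdef.Var) :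
    Q.hd.labr (HD.one _) ρ (Q.Link_inc a) = Q.hd.labr (HD.one _) ρ (Q.Link_inc b) ↔
      Q.bdef.labr ρ a = Q.bdef.labr ρ b := by
  rcases a with k | k <;> rcases b with l | l <;> simp [HD.lab, Link_inc, lab, labr, hd, vb]

theorem Link_inc_range {Λ : Type} (sl : Option (Fin Q.nB) → Λ) (x y : Q.HV)
    (h : Q.hd.lab sl x = Q.hd.lab sl y) (hne : x ≠ y) : x ∈ Set.range Q.Link_inc := by
  rcases x with (_ | x) | (_ | x)
  · exfalso
    rcases y with (_ | y) | y
    · exact hne rfl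
    · simp [HD.lab, hd, vb] at h
    · simp [HD.lab] at h
  · exact ⟨Sum.inl x, rfl⟩
  · exfalso
    rcases y with y | y
    · simp [HD.lab] at h
    · apply hne
      simpa [HD.lab] using h
  · exact ⟨Sum.inr x, rfl⟩

theorem Link_inc_block (k : Q.bdef.Var) (x : Q.HV)
    (h : Q.hd.lab0 x = Q.hd.lab0 (Q.Link_inc k)) : x ∈ Set.range Q.Link_inc := by
  by_cases e : x = Q.Link_inc k
  · exact ⟨k, e.symm⟩
  · exact Q.Link_inc_range _ x _ h e

theorem Link_lam_sub (a b : Q.bdef.Var) (h : Q.bdef.lab a = Q.bdef.lab b) :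
    Q.Link_lam (X a) - Q.Link_lam (X b) = X (Q.Link_inc a) - X (Q.Link_inc b) := by
  rcases a with k | k <;> rcases b with l | l
  · rw [Link_lam_inl, Link_lam_inl, sub_sub_sub_cancel_right]
    rfl
  · simp [lab] at h
  · simp [lab] at h
  · rw [Link_lam_inr, Link_lam_inr]
    rfl

theorem Link_lam_Dl : Associated (Q.Link_lam (Dl Q.bdef.lab)) (Dl Q.hd.lab0) := by
  rw [Link_map_Dl Q.Link_lam Q.Link_lam_sub]
  exact Link_rename_Dl Q.Link_inc_injective Q.Link_inc_lab (Q.Link_inc_range _)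

theorem Link_lam_Dlr (ρ : Option (Fin Q.nB) → ℕ) :
    Associated (Q.Link_lam (Dl (Q.bdef.labr ρ))) (Dl (Q.hd.labr (HD.one _) ρ)) := by
  rw [Link_map_Dl Q.Link_lam fun a b h => Q.Link_lam_sub a b (congrArg Prod.fst h)]
  exact Link_rename_Dl Q.Link_inc_injective (Q.Link_inc_labr ρ) (Q.Link_inc_range _)

theorem Link_lam_xv (k : Option (Fin Q.nB)) :
    Q.Link_lam (Q.bdef.xv k) = X (Sum.inl k) - X (Sum.inl none) := by
  cases k with
  | none => simp [xv]
  | some k => exact Q.Link_lam_inl k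

theorem Link_lam_wt (p : Q.bdef.Ps) :
    Q.Link_lam (Q.bdef.wtP p) = Q.hd.wt (some (Sum.inl p.1)) p.2.1 p.2.2 := by
  rw [HD.wt_eq, wtP, map_add, map_sub, Link_lam_xv, Link_lam_xv, sub_sub_sub_cancel_right,
    Fintype.sum_option, bw, map_sum]
  congr 1
  have h0 : Q.hd.w3 (some (Sum.inl p.1)) none = 0 := rfl
  rw [h0, Int.cast_zero, C_0, zero_mul, zero_add]
  refine Finset.sum_congr rfl fun a _ => ?_
  rw [map_mul, Link_lam_inr, algHom_C, algebraMap_eq]
  rfl

theorem Link_lam_Ar (ρ : Option (Fin Q.nB) → ℕ) : Q.Link_lam (Q.bdef.Arho ρ) = Q.hd.Ar0 ρ := by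
  unfold Arho HD.Ar0
  rw [map_prod]
  refine Finset.prod_congr ?_ fun p _ => Q.Link_lam_wt p
  ext p
  simp only [WI, Finset.mem_filter, Finset.mem_univ, true_and, and_assoc]
  rfl

theorem Link_lam_gen (ρ : Option (Fin Q.nB) → ℕ) :
    Associated (Q.Link_lam (Dl (Q.bdef.labr ρ) * Q.bdef.Arho ρ))
      (Dl (Q.hd.labr (HD.one _) ρ) * Q.hd.Ar0 ρ) := by
  rw [map_mul, Link_lam_Ar]
  exact (Q.Link_lam_Dlr ρ).mul_right _

theorem Link_lam_Kdec {y : Q.bdef.Pol} (hy : y ∈ Q.bdef.Kdec) : Q.Link_lam y ∈ Q.hd.Kd := by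
  have h : Q.bdef.Kdec ≤ Q.hd.Kd.comap Q.Link_lam := by
    refine Ideal.span_le.2 ?_
    rintro _ ⟨ρ, hρ, rfl⟩
    have h1 : Dl (Q.hd.labr (HD.one _) ρ) * Q.hd.Ar0 ρ ∈ Q.hd.Kd := Ideal.subset_span ⟨ρ, hρ, rfl⟩
    exact (Ideal.mem_iff_of_associated (Q.Link_lam_gen ρ)).2 h1
  exact h hy

theorem Link_pi_Kd {y : MvPolynomial Q.HV ℂ} (hy : y ∈ Q.hd.Kd) : Q.Link_pi y ∈ Q.bdef.Kdec := by
  have h : Q.hd.Kd ≤ Q.bdef.Kdec.comap Q.Link_pi := by
    refine Ideal.span_le.2 ?_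
    rintro _ ⟨ρ, hρ, rfl⟩
    have h1 := (Q.Link_lam_gen ρ).map Q.Link_pi
    rw [Link_pi_lam] at h1
    have h2 : Dl (Q.bdef.labr ρ) * Q.bdef.Arho ρ ∈ Q.bdef.Kdec := Ideal.subset_span ⟨ρ, hρ, rfl⟩
    exact (Ideal.mem_iff_of_associated h1).1 h2
  exact h hy

theorem Link_tr_mem {h : MvPolynomial Q.HV ℂ} (hh : h ∈ Rinv Q.hd.lab0) :
    Q.Link_tr h ∈ Rinv Q.hd.lab0 := by
  refine mem_Rinv.2 fun w hw => ?_
  have hx : w (Sum.inl none) = Sum.inl none := Q.Link_single_x _ (mem_Wl.1 hw _)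
  have hc : (rename w).comp Q.Link_tr = Q.Link_tr.comp (rename w) := by
    refine MvPolynomial.algHom_ext fun x => ?_
    simp only [AlgHom.comp_apply, rename_X]
    rcases x with k | a
    · obtain ⟨l, hl⟩ : ∃ l, w (Sum.inl k) = Sum.inl l := by
        have h1 := mem_Wl.1 hw (Sum.inl k)
        rcases e : w (Sum.inl k) with l | l
        · exact ⟨l, rfl⟩
        · rw [e] at h1
          simp [HD.lab] at h1
      simp [Link_tr, hl, hx]
    · have ha : w (Sum.inr a) = Sum.inr a := Q.Link_single_t a _ (mem_Wl.1 hw _)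
      simp [Link_tr, ha]
  have := DFunLike.congr_fun hc h
  simp only [AlgHom.comp_apply] at this
  rw [this, mem_Rinv.1 hh w hw]

theorem link {θ : Fin Q.nI → ℤ} (hθ : Q.Generic θ) {key : (Option (Fin Q.nI) → ℕ) → ℤ}
    (hk : Q.hd.IsKey (Q.thb θ) key) {kr : (Option (Fin Q.nB) → ℕ) → ℕ}
    (hkr : Q.hd.IsKr (HD.one _) kr) (hSP : Q.hd.SPr (HD.one _) kr)
    (hLOW : Q.hd.LOWr (HD.one _) kr) {h : MvPolynomial Q.HV ℂ} (hh : h ∈ Rinv Q.hd.lab0) :
    h ∈ Q.hd.Ann3 key none ↔ Q.spec3 h ∈ Q.Ipr := by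
  have hD : Associated (Dl Q.bdef.lab) (Q.Link_pi (Dl Q.hd.lab0)) := by
    have h1 := Q.Link_lam_Dl.map Q.Link_pi
    rwa [Link_pi_lam] at h1
  constructor
  · rintro ⟨_, ⟨a, ha, r₂, hr₂, rfl⟩, r₃, hr₃, e⟩
    have haR : a ∈ Rinv Q.hd.lab0 := by
      have e' : a = h - X (Sum.inr Q.hd.bb) * r₂ - X (Sum.inl none) * r₃ := by
        rw [e]
        ring
      rw [e']
      exact (Rinv _).sub_mem ((Rinv _).sub_mem hh
        ((Rinv _).mul_mem (X_mem_Rinv (Q.Link_single_t _)) hr₂))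
        ((Rinv _).mul_mem (X_mem_Rinv Q.Link_single_x) hr₃)
    have h1 := Q.Link_pi_Kd ((Q.hd.mem_Ann1_iff hk (Q.gen0 hθ) hkr hSP hLOW haR).1 ha)
    rw [map_mul, map_pow, Link_pi_h0] at h1
    refine ⟨Q.Link_pi a, ⟨Link_kill_mem Q.Link_inc_injective
      (fun a b e => (Q.Link_inc_lab a b).2 e) Q.Link_pi Q.Link_pi_inc Q.Link_pi_zero haR,
      (Ideal.mem_iff_of_associated ((hD.pow_pow (n := 2)).mul_left _)).2 h1⟩, ?_⟩
    have hb : Q.spec3 (X (Sum.inr Q.hd.bb)) = 0 := Q.Link_spec3_b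
    rw [Link_spec_pi, e, map_add, map_add, map_mul, map_mul, hb, Link_spec3_x, zero_mul, zero_mul,
      add_zero, add_zero]
  · rintro ⟨h', ⟨h1, h2⟩, e⟩
    have hl : Q.Link_lam h' ∈ Rinv Q.hd.lab0 :=
      Q.Link_tr_mem (rename_mem_Rinv Q.Link_inc_injective (fun a b e => (Q.Link_inc_lab a b).1 e)
        Q.Link_inc_block h1)
    have h3 := Q.Link_lam_Kdec h2
    rw [map_mul, map_pow] at h3
    have h4 : Q.hd.h0 (Q.Link_lam h') * Dl Q.hd.lab0 ^ 2 ∈ Q.hd.Kd := by
      rw [Link_h0_lam]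
      exact (Ideal.mem_iff_of_associated ((Q.Link_lam_Dl.pow_pow (n := 2)).mul_left _)).1 h3
    obtain ⟨a, ha, r, hr, ea⟩ := (Q.hd.mem_Ann1_iff hk (Q.gen0 hθ) hkr hSP hLOW hl).2 h4
    obtain ⟨r₁, hr₁, r₂, hr₂, r₃, hr₃, e3⟩ := Q.sub_spec3 ((Rinv _).sub_mem hh hl)
    have h5 : Q.spec3 (h - Q.Link_lam h') = 0 := by
      rw [map_sub, ← Q.Link_spec_pi (Q.Link_lam h'), Link_pi_lam, e, sub_self]
    rw [h5, map_zero, sub_zero] at e3
    refine ⟨_, ⟨_, ⟨a, ha, r + r₁, (Rinv _).add_mem hr hr₁, rfl⟩, r₂, hr₂, rfl⟩, r₃, hr₃, ?_⟩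
    have ea' : Q.Link_lam h' = a + X (Sum.inr none) * r := ea
    change h = a + X (Sum.inr none) * (r + r₁) + X (Sum.inr (some 0)) * r₂ + X (Sum.inl none) * r₃
    linear_combination e3 + ea'

end Qv

end Pool.Agent.HK
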