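import Pool.Agent.P.MP_1206ce_ag.AH.Sat
import Pool.Agent.P.MP_1206ce_ag.AH.ALG

/-! Cyclicity (GEN) and regularity (REG). -/

noncomputable section

open MvPolynomial

namespace Pool.Agent.HK

namespace HD

variable {β I Ar τ Λ Λ' : Type} [Fintype β] [DecidableEq β] [Fintype I] [DecidableEq I] [Fintype Ar]
  [DecidableEq Ar] [Fintype τ] [DecidableEq τ] [DecidableEq Λ] [DecidableEq Λ'] (D : HD β I Ar τ)

omit [DecidableEq β] in
theorem Reg_slot : IsSlot (one β) Finset.univ :=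
  ⟨(), (Finset.filter_true_of_mem fun _ _ => rfl).symm⟩

omit [DecidableEq β] in
theorem Reg_slots : ∀ p ∈ ({Finset.univ} : Finset (Finset β)), IsSlot (one β) p := fun p hp => by
  rw [Finset.mem_singleton.1 hp]
  exact Reg_slot

omit [Fintype I] [DecidableEq Ar] in
theorem Reg_Dd (key : (I → ℕ) → ℤ) : D.Dd key (one β) {Finset.univ} =
    D.Fs key (one β) Finset.univ (D.last key Finset.univ) := by
  simp [Dd]

theorem Reg_smul_mem {V Λ : Type} [Fintype V] [DecidableEq V] (lab : V → Λ)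
    {K : Ideal (MvPolynomial V ℂ)} {y : MvPolynomial V ℂ}
    (h : ((Wl lab).card : ℂ) • y ∈ K) : y ∈ K := by
  have h1 := K.smul_of_tower_mem ((Wl lab).card : ℂ)⁻¹ h
  rwa [smul_smul, inv_mul_cancel₀ (card_Wl_ne_zero lab), one_smul] at h1

theorem Reg_Alt_mem {V Λ : Type} [Fintype V] [DecidableEq V] {lab : V → Λ}
    {K : Ideal (MvPolynomial V ℂ)} (hK : ∀ w ∈ Wl lab, ∀ y ∈ K, rename w y ∈ K)
    {y : MvPolynomial V ℂ} (hy : y ∈ K) : Alt lab y ∈ K := by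
  rw [Alt_apply]
  exact K.sum_mem fun w hw => K.smul_of_tower_mem _ (hK w hw y hy)

theorem isAnn_Ann0 (key : (I → ℕ) → ℤ) : IsAnn D.lab0 (D.Ann0 key) := by
  refine ⟨fun a ha => ha.1, ⟨zero_mem _, ?_⟩, fun a ha b hb => ⟨add_mem ha.1 hb.1, ?_⟩,
    fun r hr a ha => ⟨mul_mem hr ha.1, ?_⟩,
    fun a ha d => ⟨homogeneousComponent_mem_Rinv ha.1 d, ?_⟩⟩
  · rw [zero_mul]
    exact zero_mem _
  · rw [add_mul]
    exact add_mem ha.2 hb.2
  · rw [mul_assoc]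
    exact Ideal.mul_mem_left _ _ ha.2
  · have h1 := D.hom_mem_Dd key _ _ ha.2 (d + 3 * npos D.lab0)
    rwa [Artin_hc_mul a D.delta_isHomogeneous, if_neg (by omega), Nat.add_sub_cancel] at h1

omit [DecidableEq Λ] in
theorem IsAnn.annAdd {V : Type} [Fintype V] [DecidableEq V] {lab : V → Λ}
    {Ann : Set (MvPolynomial V ℂ)} (h : IsAnn lab Ann) {x : V} (hx : ∀ l, lab l = lab x → l = x) :
    IsAnn lab (AnnAdd lab Ann x) := by
  have hX := X_mem_Rinv hx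
  refine ⟨?_, ⟨0, h.zero, 0, zero_mem _, by rw [mul_zero, add_zero]⟩, ?_, ?_, ?_⟩
  · rintro _ ⟨a, ha, r, hr, rfl⟩
    exact add_mem (h.sub a ha) (mul_mem hX hr)
  · rintro _ ⟨a, ha, r, hr, rfl⟩ _ ⟨b, hb, s, hs, rfl⟩
    exact ⟨a + b, h.add a ha b hb, r + s, add_mem hr hs, by ring⟩
  · rintro s hs _ ⟨a, ha, r, hr, rfl⟩
    exact ⟨s * a, h.mul s hs a ha, s * r, mul_mem hs hr, by ring⟩
  · rintro _ ⟨a, ha, r, hr, rfl⟩ d
    refine ⟨_, h.hom a ha d, if d < 1 then 0 else homogeneousComponent (d - 1) r, ?_, ?_⟩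
    · split_ifs
      · exact zero_mem _
      · exact homogeneousComponent_mem_Rinv hr _
    · rw [map_add, mul_comm (X x) r, Artin_hc_mul r (isHomogeneous_X ℂ x), mul_comm]

/-- The ideal of decomposable classes at `ħ = 0`. -/
def Kd : Ideal (MvPolynomial (β ⊕ τ) ℂ) :=
  Ideal.span {y | ∃ ρ : β → ℕ, (∃ k l, ρ k ≠ ρ l) ∧ y = Dl (D.labr (one β) ρ) * D.Ar0 ρ}

variable {th : I → ℤ} {key : (I → ℕ) → ℤ} {k₀ : β} {kr : (β → ℕ) → ℕ}

/-! ### Level functions -/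

omit [Fintype I] [DecidableEq Ar] in
theorem Reg_erho_congr {sl : β → Λ} {ρ ρ' : β → ℕ}
    (h : ∀ k l, sl k = sl l → (ρ k < ρ l ↔ ρ' k < ρ' l)) : D.erho sl ρ = D.erho sl ρ' := by
  refine Finset.prod_congr rfl fun p hp => ?_
  have h1 := (Finset.mem_filter.1 hp).2.2
  have h2 := h _ _ h1
  have h3 := h _ _ h1.symm
  have h4 : ρ p.1 = ρ p.2 ↔ ρ' p.1 = ρ' p.2 := by omega
  simp only [eps, h2, h4]

omit [Fintype I] [DecidableEq Ar] in
theorem Reg_erho_split {q : Finset β} {ρ : β → ℕ} (h : ∀ k ∈ q, ∀ l, l ∉ q → ρ k < ρ l) :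
    D.erho (one β) ρ = D.alphaS q (Finset.univ \ q) * D.erho (spl (one β) q) ρ := by
  have h1 : D.alphaS q (Finset.univ \ q) =
      ∏ p : β × β, if p.1 ∈ q ∧ p.2 ∉ q then D.alpha p.1 p.2 else 1 := by
    rw [alphaS, ← Finset.prod_product', ← Finset.prod_filter]
    refine Finset.prod_congr ?_ fun _ _ => rfl
    ext p
    simp
  rw [h1, erho, erho, Finset.prod_filter, Finset.prod_filter, ← Finset.prod_mul_distrib]
  refine Finset.prod_congr rfl fun p _ => ?_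
  by_cases h2 : p.1 ∈ q <;> by_cases h3 : p.2 ∈ q
  · simp [spl, h2, h3]
  · have h4 : p.1 ≠ p.2 := fun h5 => h3 (h5 ▸ h2)
    simp [spl, h2, h3, h4, eps, h _ h2 _ h3]
  · have h4 : p.1 ≠ p.2 := fun h5 => h2 (h5 ▸ h3)
    have h5 := h _ h3 _ h2
    simp [spl, h2, h3, h4, eps, h5.ne', not_lt.2 h5.le]
  · simp [spl, h2, h3]

/-- Moving the levels outside `q` above those in `q`. -/
def Reg_shift (q : Finset β) (ρ : β → ℕ) : β → ℕ :=
  fun k => if k ∈ q then ρ k else ρ k + (Finset.univ.sup ρ + 1)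

theorem Reg_shift_lt (q : Finset β) (ρ : β → ℕ) {k l : β} (hk : k ∈ q) (hl : l ∉ q) :
    Reg_shift q ρ k < Reg_shift q ρ l := by
  have h1 : ρ k ≤ Finset.univ.sup ρ := Finset.le_sup (Finset.mem_univ k)
  simp only [Reg_shift, if_pos hk, if_neg hl]
  omega

theorem Reg_shift_iff (q : Finset β) (ρ : β → ℕ) {k l : β} (h : k ∈ q ↔ l ∈ q) :
    (ρ k < ρ l ↔ Reg_shift q ρ k < Reg_shift q ρ l) ∧
      (ρ k = ρ l ↔ Reg_shift q ρ k = Reg_shift q ρ l) := by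
  by_cases hk : k ∈ q
  · simp only [Reg_shift, if_pos hk, if_pos (h.1 hk), and_self]
  · simp only [Reg_shift, if_neg hk, if_neg (mt h.2 hk)]
    omega

omit [Fintype I] [DecidableEq Ar] in
theorem Reg_alpha_erho (q : Finset β) (ρ : β → ℕ) :
    D.alphaS q (Finset.univ \ q) * D.erho (spl (one β) q) ρ = D.erho (one β) (Reg_shift q ρ) := by
  rw [D.Reg_erho_split fun k hk l hl => Reg_shift_lt q ρ hk hl]
  congr 1
  refine D.Reg_erho_congr fun k l h => (Reg_shift_iff q ρ ?_).1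
  simpa [spl] using h

omit [Fintype I] [DecidableEq Ar] in
theorem Reg_mem_Fs (key : (I → ℕ) → ℤ) (sl : β → Λ) {p q : Finset β} {κ : ℤ} (hq : q ⊆ p)
    (hκ : κ < key (D.dimv q)) {j : MvPolynomial (β ⊕ τ) ℂ} (hj : j ∈ D.J (spl sl q)) :
    D.alphaS q (p \ q) * j ∈ D.Fs key sl p κ :=
  le_iSup₂ (f := fun (q : Finset β) (_ : q ∈ {q : Finset β | q ⊆ p ∧ κ < key (D.dimv q)}) =>
    Ideal.span {D.alphaS q (p \ q)} * D.J (spl sl q)) q ⟨hq, hκ⟩
    (Ideal.mul_mem_mul (Ideal.mem_span_singleton_self _) hj)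

omit [Fintype I] [DecidableEq Ar] in
theorem Reg_Fs_le {key : (I → ℕ) → ℤ} {sl : β → Λ} {p : Finset β} {κ : ℤ}
    {K : Ideal (MvPolynomial (β ⊕ τ) ℂ)} (h : ∀ q ⊆ p, κ < key (D.dimv q) →
      ∀ ρ, D.alphaS q (p \ q) * D.erho (spl sl q) ρ ∈ K) : D.Fs key sl p κ ≤ K := by
  refine iSup₂_le fun q hq => ?_
  rw [J, Ideal.span_mul_span', Ideal.span_le]
  rintro _ ⟨a, ha, b, ⟨ρ, rfl⟩, rfl⟩
  rw [Set.mem_singleton_iff.1 ha]
  exact h q hq.1 hq.2 ρ

theorem Reg_last_lt (hk : D.IsKey th key) (hg : D.Gen0 th k₀) {q : Finset β}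
    (h : 0 < thd th (D.dimv q)) : D.last key Finset.univ < key (D.dimv q) := by
  have h1 := (hk.le_zero_iff le_rfl).2 hg.tot.le
  rw [last, max_eq_left h1]
  by_contra h2
  exact absurd ((hk.le_zero_iff (D.dimv_le q)).1 (not_lt.1 h2)) (not_le.2 h)

/-- A nonconstant level function can be reordered so that `e_ρ` is decomposable. -/
theorem Reg_exists_rho (hk : D.IsKey th key) (hg : D.Gen0 th k₀) {ρ : β → ℕ}
    (hρ : ∃ k l, ρ k ≠ ρ l) : ∃ ρ' : β → ℕ, D.erho (one β) ρ' ∈ D.Dd key (one β) {Finset.univ} ∧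
      ∀ k l, ρ k = ρ l ↔ ρ' k = ρ' l := by
  obtain ⟨k, l, hkl⟩ := hρ
  have key1 : ∃ q : Finset β, 0 < thd th (D.dimv q) ∧ ∀ x y, ρ x = ρ y → (x ∈ q ↔ y ∈ q) := by
    let q₀ : Finset β := Finset.univ.filter fun x => ρ x = ρ k
    have hk₀ : k ∈ q₀ := by simp [q₀]
    have hl₀ : l ∉ q₀ := by simpa [q₀] using hkl.symm
    have hq₀ : ∀ x y, ρ x = ρ y → (x ∈ q₀ ↔ y ∈ q₀) := fun x y h => by simp [q₀, h]
    have h1 : thd th (D.dimv q₀) ≠ 0 := by
      refine hg.gen _ (D.dimv_le _) (fun h => ?_) fun h => ?_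
      · have h2 := D.sum_dimv q₀
        rw [h] at h2
        exact Finset.card_ne_zero_of_mem hk₀ (by simpa using h2.symm)
      · have h2 := D.sum_dimv q₀
        rw [h, D.sum_dimv] at h2
        exact hl₀ (Finset.eq_univ_of_card q₀ h2.symm ▸ Finset.mem_univ l)
    have h2 := hg.tot
    rw [← Finset.union_compl q₀, D.dimv_union disjoint_compl_right, thd_add] at h2
    rcases h1.lt_or_gt with h3 | h3
    · exact ⟨q₀ᶜ, by omega, fun x y h => by simp only [Finset.mem_compl, hq₀ x y h]⟩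
    · exact ⟨q₀, h3, hq₀⟩
  obtain ⟨q, h1, h2⟩ := key1
  refine ⟨Reg_shift q ρ, ?_, fun x y => ?_⟩
  · rw [← D.Reg_alpha_erho, Reg_Dd]
    exact D.Reg_mem_Fs key _ (Finset.subset_univ q) (D.Reg_last_lt hk hg h1)
      (Ideal.subset_span ⟨ρ, rfl⟩)
  · by_cases h3 : x ∈ q ↔ y ∈ q
    · exact (Reg_shift_iff q ρ h3).2
    · refine iff_of_false (fun h => h3 (h2 x y h)) ?_
      by_cases hx : x ∈ q
      · exact (Reg_shift_lt q ρ hx fun hy => h3 (iff_of_true hx hy)).ne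
      · exact (Reg_shift_lt q ρ (by tauto) hx).ne'

theorem Reg_level_congr {ρ ρ' : β → ℕ} (h : ∀ k l, ρ k = ρ l ↔ ρ' k = ρ' l) :
    Dl (D.labr (one β) ρ) = Dl (D.labr (one β) ρ') ∧ D.Ar0 ρ = D.Ar0 ρ' := by
  refine ⟨Dl_congr (D.refines_lab fun k l hkl => ?_) (D.refines_lab fun k l hkl => ?_), ?_⟩
  · rw [Prod.ext_iff] at hkl ⊢
    exact ⟨rfl, (h k l).1 hkl.2⟩
  · rw [Prod.ext_iff] at hkl ⊢
    exact ⟨rfl, (h k l).2 hkl.2⟩
  · simp only [Ar0, ne_eq, h]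

omit [Fintype β] [DecidableEq β] [Fintype I] [DecidableEq I] [Fintype Ar] [DecidableEq Ar]
  [Fintype τ] [DecidableEq τ] [DecidableEq Λ] in
theorem Reg_lab_inr {sl : β → Λ} {a : τ} (x : β ⊕ τ) (h : D.lab sl x = D.lab sl (Sum.inr a)) :
    x = Sum.inr a := by
  cases x with
  | inl k => exact absurd h (by simp [lab])
  | inr b => simpa [lab] using h

omit [Fintype I] [DecidableEq I] [Fintype Ar] [DecidableEq Ar] in
theorem Reg_h0_Dl : D.h0 (Dl D.lab0) = Dl D.lab0 := by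
  rw [Dl, map_prod]
  refine Finset.prod_congr rfl fun p hp => ?_
  simp only [Finset.mem_filter] at hp
  obtain ⟨-, h1, h2⟩ := hp
  have h3 : p.1 ≠ Sum.inr D.hh := fun h => by
    rw [h] at h1 h2
    rw [D.Reg_lab_inr _ h1.symm] at h2
    exact lt_irrefl _ h2
  have h4 : p.2 ≠ Sum.inr D.hh := fun h => by
    rw [h] at h1 h2
    rw [D.Reg_lab_inr _ h1] at h2
    exact lt_irrefl _ h2
  rw [map_sub, h0, aeval_X, aeval_X, if_neg h3, if_neg h4]

theorem Reg_h0_delta : ∃ ε : ℂ, (ε = 1 ∨ ε = -1) ∧ D.h0 D.delta = ε • Dl D.lab0 ^ 3 := by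
  obtain ⟨ε, hε, h⟩ := D.h0_erho 0
  refine ⟨ε, hε, ?_⟩
  have h1 : Dl (D.labr (one β) 0) = Dl D.lab0 :=
    Dl_congr (D.refines_lab0 _) (D.refines_lab fun _ _ _ => rfl)
  have h2 : D.Ar0 0 = 1 := by simp [Ar0]
  rw [delta, map_mul, Reg_h0_Dl, h, h1, h2, mul_smul_comm]
  congr 1
  ring

theorem Reg_eps {ε : ℂ} (h : ε = 1 ∨ ε = -1) : ε * ε = 1 := by
  rcases h with rfl | rfl <;> norm_num

theorem Reg_h0_mem {K : Ideal (MvPolynomial (β ⊕ τ) ℂ)} {y : MvPolynomial (β ⊕ τ) ℂ} :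
    D.h0 y ∈ K ⊔ Ideal.span {D.hb} ↔ y ∈ K ⊔ Ideal.span {D.hb} := by
  have h1 : y - D.h0 y ∈ K ⊔ Ideal.span {D.hb} :=
    Ideal.mem_sup_right (Ideal.mem_span_singleton.2 (D.hb_dvd_sub_h0 y))
  constructor
  · intro h
    simpa using add_mem h1 h
  · intro h
    simpa using sub_mem h h1

/-- Modulo `ħ` the generators of `Kd` are decomposable. -/
theorem Reg_Kd_le (hk : D.IsKey th key) (hg : D.Gen0 th k₀) {ρ : β → ℕ}
    (hρ : ∃ k l, ρ k ≠ ρ l) : Dl D.lab0 * Dl (D.labr (one β) ρ) * D.Ar0 ρ ∈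
      D.Dd key (one β) {Finset.univ} ⊔ Ideal.span {D.hb} := by
  obtain ⟨ρ', h1, h2⟩ := D.Reg_exists_rho hk hg hρ
  obtain ⟨ε, hε, h3⟩ := D.h0_erho ρ'
  have h4 := Submodule.smul_of_tower_mem _ ε (D.Reg_h0_mem.2 (Ideal.mem_sup_left h1))
  rwa [h3, smul_smul, Reg_eps hε, one_smul, ← (D.Reg_level_congr h2).1,
    ← (D.Reg_level_congr h2).2] at h4

theorem Reg_hb_mem (sl : β → Λ) : D.hb ∈ Rinv (D.lab sl) := D.X_inr_mem_Rinv sl D.hh

theorem Reg_Alt_Y {sl : β → Λ} {y : MvPolynomial (β ⊕ τ) ℂ} (hy : y ∈ D.Y sl) :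
    Alt (D.lab sl) y = ((Wl (D.lab sl)).card : ℂ) • y := Alt_of_anti (D.mem_Y_iff.1 hy).2

omit [Fintype I] [DecidableEq Ar] in
theorem Reg_Alt_mem_Y {sl : β → Λ} {y : MvPolynomial (β ⊕ τ) ℂ} (hy : y ∈ D.J sl) :
    Alt (D.lab sl) y ∈ D.Y sl := ⟨y, hy, rfl⟩

theorem Reg_Alt_Dd (key : (I → ℕ) → ℤ) {y : MvPolynomial (β ⊕ τ) ℂ}
    (hy : y ∈ D.Dd key (one β) {Finset.univ}) :
    Alt D.lab0 y ∈ D.Dd key (one β) {Finset.univ} ∧ Alt D.lab0 y ∈ D.Y (one β) :=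
  ⟨Reg_Alt_mem (fun _ hw _ hz => D.rename_mem_Dd Reg_slots key hw hz) hy,
    D.Reg_Alt_mem_Y (D.Dd_le_J Reg_slots key hy)⟩

/-- An element of `Y` in `Dd + ħ S` lies in `Dd + ħ Y`. -/
theorem Reg_sat (hkr : D.IsKr (one β) kr) (hSP : D.SPr (one β) kr) (hLOW : D.LOWr (one β) kr)
    {y : MvPolynomial (β ⊕ τ) ℂ} (hy : y ∈ D.Y (one β))
    (h : y ∈ D.Dd key (one β) {Finset.univ} ⊔ Ideal.span {D.hb}) :
    ∃ y₁ ∈ D.Y (one β), y - D.hb * y₁ ∈ D.Dd key (one β) {Finset.univ} := by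
  obtain ⟨a, ha, b, hb', h1⟩ := Submodule.mem_sup.1 h
  obtain ⟨z, rfl⟩ := Ideal.mem_span_singleton.1 hb'
  obtain ⟨h2, h3⟩ := D.Reg_Alt_Dd key ha
  have h4 := congrArg (Alt D.lab0) h1
  rw [map_add, Alt_mul (D.Reg_hb_mem _), D.Reg_Alt_Y hy] at h4
  have h5 : Alt D.lab0 z ∈ D.Y (one β) := by
    refine D.sat hkr hSP hLOW ?_
    rw [eq_sub_of_add_eq' h4]
    exact sub_mem (Submodule.smul_mem _ _ hy) h3
  refine ⟨((Wl D.lab0).card : ℂ)⁻¹ • Alt D.lab0 z, Submodule.smul_mem _ _ h5,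
    Reg_smul_mem D.lab0 ?_⟩
  rw [smul_sub, ← mul_smul_comm, smul_smul, mul_inv_cancel₀ (card_Wl_ne_zero _), one_smul, ← h4,
    add_sub_cancel_right]
  exact h2

/-- (GEN) modulo `ħ`. -/
theorem Reg_gen_mod (hk : D.IsKey th key) (hg : D.Gen0 th k₀) {y : MvPolynomial (β ⊕ τ) ℂ}
    (hy : y ∈ D.Y (one β)) : ∃ h ∈ Rinv D.lab0,
      y - h * D.delta ∈ D.Dd key (one β) {Finset.univ} ⊔ Ideal.span {D.hb} := by
  obtain ⟨j, hj, rfl⟩ := hy
  have hj' : j ∈ Ideal.span (Set.range (D.erho (one β))) := hj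
  suffices H : ∀ f, ∃ h ∈ Rinv D.lab0, Alt D.lab0 (f * j) - h * D.delta ∈
      D.Dd key (one β) {Finset.univ} ⊔ Ideal.span {D.hb} by simpa using H 1
  clear hj
  induction hj' using Submodule.span_induction with
  | mem x hx =>
    obtain ⟨ρ, rfl⟩ := hx
    intro f
    by_cases hρ : ∃ k l, ρ k ≠ ρ l
    · refine ⟨0, zero_mem _, ?_⟩
      rw [zero_mul, sub_zero]
      refine Reg_Alt_mem (fun w hw z hz => ?_) (Ideal.mul_mem_left _ f (D.Reg_h0_mem.1 ?_))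
      · obtain ⟨a, ha, b, hb, rfl⟩ := Submodule.mem_sup.1 hz
        obtain ⟨c, rfl⟩ := Ideal.mem_span_singleton.1 hb
        rw [map_add, map_mul, mem_Rinv.1 (D.Reg_hb_mem _) w hw]
        exact Submodule.add_mem_sup (D.rename_mem_Dd Reg_slots key hw ha)
          (Ideal.mul_mem_right _ _ (Ideal.mem_span_singleton_self _))
      · obtain ⟨ε, -, h1⟩ := D.h0_erho ρ
        rw [h1]
        exact Submodule.smul_of_tower_mem _ ε (D.Reg_Kd_le hk hg hρ)
    · have h1 : D.erho (one β) ρ = D.erho (one β) 0 := D.Reg_erho_congr fun k l _ => by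
        have : ρ k = ρ l := by
          by_contra h
          exact hρ ⟨k, l, h⟩
        simp [this]
      obtain ⟨h, hh, h2⟩ := exists_Alt_eq D.lab0 f
      refine ⟨h, hh, ?_⟩
      rw [h1, mul_comm f, Alt_mul D.erho_zero_mem_Rinv, h2, delta,
        show D.erho (one β) 0 * (Dl D.lab0 * h) - h * (Dl D.lab0 * D.erho (one β) 0) = 0 by ring]
      exact zero_mem _
  | zero => exact fun f => ⟨0, zero_mem _, by simp⟩
  | add x z _ _ hx hz =>
    intro f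
    obtain ⟨h, hh, h1⟩ := hx f
    obtain ⟨h', hh', h2⟩ := hz f
    refine ⟨h + h', add_mem hh hh', ?_⟩
    rw [mul_add, map_add, add_mul, add_sub_add_comm]
    exact add_mem h1 h2
  | smul a x _ hx =>
    intro f
    rw [smul_eq_mul, ← mul_assoc]
    exact hx _

theorem Reg_gen_hom (hk : D.IsKey th key) (hg : D.Gen0 th k₀) (hkr : D.IsKr (one β) kr)
    (hSP : D.SPr (one β) kr) (hLOW : D.LOWr (one β) kr) (d : ℕ) :
    ∀ y ∈ D.Y (one β), y.IsHomogeneous d →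
      ∃ h ∈ Rinv D.lab0, y - h * D.delta ∈ D.Dd key (one β) {Finset.univ} := by
  induction d using Nat.strong_induction_on with
  | _ d ih =>
    intro y hy hd
    obtain ⟨h, hh, h1⟩ := D.Reg_gen_mod hk hg hy
    obtain ⟨y₁, hy₁, h2⟩ := D.Reg_sat hkr hSP hLOW
      (sub_mem hy (D.mul_mem_Y hh D.delta_mem_Y)) h1
    have h3 := D.hom_mem_Dd key _ _ h2 d
    rw [map_sub, map_sub, homogeneousComponent_eq_self hd, Artin_hc_mul h D.delta_isHomogeneous,
      mul_comm D.hb, hb, Artin_hc_mul y₁ (isHomogeneous_X ℂ _)] at h3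
    have h4 : (if d < 3 * npos D.lab0 then 0 else
        homogeneousComponent (d - 3 * npos D.lab0) h) ∈ Rinv D.lab0 := by
      split_ifs
      · exact zero_mem _
      · exact homogeneousComponent_mem_Rinv hh _
    by_cases h5 : d < 1
    · rw [if_pos h5, zero_mul, sub_zero] at h3
      exact ⟨_, h4, h3⟩
    · rw [if_neg h5] at h3
      obtain ⟨h', hh', h6⟩ := ih (d - 1) (by omega) _ (D.hom_mem_Y _ hy₁ (d - 1))
        (homogeneousComponent_isHomogeneous _ _)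
      refine ⟨_ + X (Sum.inr D.hh) * h', add_mem h4 (mul_mem (D.X_inr_mem_Rinv _ _) hh'), ?_⟩
      convert add_mem h3 (Ideal.mul_mem_left _ (X (Sum.inr D.hh)) h6) using 1
      ring

theorem Reg_gen (hk : D.IsKey th key) (hg : D.Gen0 th k₀) (hkr : D.IsKr (one β) kr)
    (hSP : D.SPr (one β) kr) (hLOW : D.LOWr (one β) kr) {y : MvPolynomial (β ⊕ τ) ℂ}
    (hy : y ∈ D.Y (one β)) :
    ∃ h ∈ Rinv D.lab0, y - h * D.delta ∈ D.Dd key (one β) {Finset.univ} := by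
  choose h hh h1 using fun d => D.Reg_gen_hom hk hg hkr hSP hLOW d _ (D.hom_mem_Y _ hy d)
    (homogeneousComponent_isHomogeneous d y)
  refine ⟨∑ d ∈ Finset.range (y.totalDegree + 1), h d, sum_mem fun d _ => hh d, ?_⟩
  have h2 := Ideal.sum_mem _ fun d (_ : d ∈ Finset.range (y.totalDegree + 1)) => h1 d
  rwa [Finset.sum_sub_distrib, sum_homogeneousComponent, ← Finset.sum_mul] at h2

/-- (GEN). -/
theorem gen_delta (hk : D.IsKey th key) (hg : D.Gen0 th k₀) (hkr : D.IsKr (one β) kr)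
    (hSP : D.SPr (one β) kr) (hLOW : D.LOWr (one β) kr) {y : MvPolynomial (β ⊕ τ) ℂ}
    (hy : y ∈ D.Y (one β)) {d : ℕ} (hd : y.IsHomogeneous d) :
    ∃ h ∈ Rinv D.lab0, (h = 0 ∨ ∃ e : ℕ, h.IsHomogeneous e ∧ d = e + 3 * npos D.lab0) ∧
      y - h * D.delta ∈ D.Dd key (one β) {Finset.univ} := by
  obtain ⟨h, hh, h1⟩ := D.Reg_gen hk hg hkr hSP hLOW hy
  have h2 := D.hom_mem_Dd key _ _ h1 d
  rw [map_sub, homogeneousComponent_eq_self hd, Artin_hc_mul h D.delta_isHomogeneous] at h2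
  refine ⟨_, ?_, ?_, h2⟩
  · split_ifs
    · exact zero_mem _
    · exact homogeneousComponent_mem_Rinv hh _
  · split_ifs with h3
    · exact Or.inl rfl
    · exact Or.inr ⟨_, homogeneousComponent_isHomogeneous _ _, by omega⟩

theorem Reg_mem_Ann1 (hk : D.IsKey th key) (hg : D.Gen0 th k₀) (hkr : D.IsKr (one β) kr)
    (hSP : D.SPr (one β) kr) (hLOW : D.LOWr (one β) kr) {h : MvPolynomial (β ⊕ τ) ℂ}
    (hh : h ∈ Rinv D.lab0)
    (h1 : h * D.delta ∈ D.Dd key (one β) {Finset.univ} ⊔ Ideal.span {D.hb}) :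
    h ∈ AnnAdd D.lab0 (D.Ann0 key) (Sum.inr D.hh) := by
  obtain ⟨y₁, hy₁, h2⟩ := D.Reg_sat hkr hSP hLOW (D.mul_mem_Y hh D.delta_mem_Y) h1
  obtain ⟨r, hr, h3⟩ := D.Reg_gen hk hg hkr hSP hLOW hy₁
  refine ⟨h - X (Sum.inr D.hh) * r, ⟨sub_mem hh (mul_mem (D.X_inr_mem_Rinv _ _) hr), ?_⟩, r, hr,
    by ring⟩
  convert add_mem h2 (Ideal.mul_mem_left _ D.hb h3) using 1
  rw [hb]
  ring

/-- At `ħ = 0` the ideal `Dd` is contained in `D Kd`. -/
theorem Reg_h0_Dd (hk : D.IsKey th key) {y : MvPolynomial (β ⊕ τ) ℂ}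
    (hy : y ∈ D.Dd key (one β) {Finset.univ}) : D.h0 y ∈ Ideal.span {Dl D.lab0} * D.Kd := by
  rw [Reg_Dd] at hy
  refine D.Reg_Fs_le (K := (Ideal.span {Dl D.lab0} * D.Kd).comap D.h0) (fun q hq hκ ρ => ?_) hy
  obtain ⟨-, -, ⟨k, hkq⟩, ⟨l, hl⟩, -⟩ := hk.split hq hκ
  obtain ⟨ε, -, h1⟩ := D.h0_erho (Reg_shift q ρ)
  rw [Ideal.mem_comap, Reg_alpha_erho, h1, mul_assoc]
  exact Submodule.smul_of_tower_mem _ ε (Ideal.mul_mem_mul (Ideal.mem_span_singleton_self _)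
    (Ideal.subset_span ⟨_, ⟨k, l, (Reg_shift_lt q ρ hkq (Finset.mem_sdiff.1 hl).2).ne⟩, rfl⟩))

theorem mem_Ann1_iff (hk : D.IsKey th key) (hg : D.Gen0 th k₀) (hkr : D.IsKr (one β) kr)
    (hSP : D.SPr (one β) kr) (hLOW : D.LOWr (one β) kr) {h : MvPolynomial (β ⊕ τ) ℂ}
    (hh : h ∈ Rinv D.lab0) : h ∈ AnnAdd D.lab0 (D.Ann0 key) (Sum.inr D.hh) ↔
      D.h0 h * Dl D.lab0 ^ 2 ∈ D.Kd := by
  obtain ⟨ε, hε, h1⟩ := D.Reg_h0_delta
  constructor
  · rintro ⟨a, ha, r, -, rfl⟩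
    have h2 : D.h0 (X (Sum.inr D.hh) * r) = 0 := D.h0_eq_zero_iff.2 (dvd_mul_right _ _)
    obtain ⟨z, hz, h3⟩ := Ideal.mem_span_singleton_mul.1
      (Submodule.smul_of_tower_mem _ ε (D.Reg_h0_Dd hk ha.2))
    rw [map_mul, h1, mul_smul_comm, smul_smul, Reg_eps hε, one_smul] at h3
    rw [map_add, h2, add_zero]
    convert hz using 1
    refine mul_left_cancel₀ (Dl_ne_zero D.lab0) ?_
    rw [h3]
    ring
  · intro h2
    refine D.Reg_mem_Ann1 hk hg hkr hSP hLOW hh (D.Reg_h0_mem.1 ?_)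
    have h3 : ∀ z ∈ D.Kd, Dl D.lab0 * z ∈
        D.Dd key (one β) {Finset.univ} ⊔ Ideal.span {D.hb} := by
      intro z hz
      induction hz using Submodule.span_induction with
      | mem x hx =>
        obtain ⟨ρ, hρ, rfl⟩ := hx
        rw [← mul_assoc]
        exact D.Reg_Kd_le hk hg hρ
      | zero => simp
      | add x z _ _ hx hz =>
        rw [mul_add]
        exact add_mem hx hz
      | smul a x _ hx =>
        rw [mul_smul_comm]
        exact Submodule.smul_mem _ a hx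
    rw [map_mul, h1, mul_smul_comm]
    refine Submodule.smul_of_tower_mem _ ε ?_
    convert h3 _ h2 using 1
    ring

/-! ### The descending induction -/

theorem Reg_rename_aa {sl : β → Λ} (aa : Set (MvPolynomial τ ℂ)) :
    ∀ w ∈ Wl (D.lab sl), ∀ y ∈ Ideal.span (rename Sum.inr '' aa) * D.J sl,
      rename w y ∈ Ideal.span (rename Sum.inr '' aa) * D.J sl := by
  intro w hw y hy
  refine Submodule.mul_induction_on hy (fun m hm n hn => ?_) fun x z hx hz => ?_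
  · rw [map_mul]
    refine Ideal.mul_mem_mul ?_ (D.rename_mem_J hw hn)
    refine (Ideal.span_le (I := (Ideal.span (rename Sum.inr '' aa)).comap (rename w))).2 ?_ hm
    rintro _ ⟨a, ha, rfl⟩
    obtain ⟨g, -, rfl⟩ := D.mem_Wl_lab.1 hw
    refine Ideal.subset_span ⟨a, ha, ?_⟩
    rw [rename_rename]
    rfl
  · rw [map_add]
    exact add_mem hx hz

theorem Reg_step (hk : D.IsKey th key) (aa : Set (MvPolynomial τ ℂ)) (u : τ) {κ : ℤ}
    (hκ : D.last key Finset.univ < κ)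
    (ih : ∀ y ∈ D.Y (one β), X (Sum.inr u) * y ∈ D.Fs key (one β) Finset.univ κ ⊔
      Ideal.span (rename Sum.inr '' aa) * D.J (one β) → y ∈ D.Fs key (one β) Finset.univ κ ⊔
      Ideal.span (rename Sum.inr '' aa) * D.J (one β)) :
    ∀ y ∈ D.Y (one β), X (Sum.inr u) * y ∈ D.Fs key (one β) Finset.univ (κ - 1) ⊔
      Ideal.span (rename Sum.inr '' aa) * D.J (one β) →
      y ∈ D.Fs key (one β) Finset.univ (κ - 1) ⊔
        Ideal.span (rename Sum.inr '' aa) * D.J (one β) := by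
  by_cases hq : ∀ q ⊆ Finset.univ, key (D.dimv q) ≠ κ
  · rwa [D.Fs_step_of_not_key key _ _ hq]
  push Not at hq
  obtain ⟨q, hq, rfl⟩ := hq
  intro y hy h
  obtain ⟨f, hf, a, ha, h1⟩ := Submodule.mem_sup.1 h
  have hu := D.X_inr_mem_Rinv (one β) u
  have hF : ∀ κ z, z ∈ D.Fs key (one β) Finset.univ κ →
      Alt D.lab0 z ∈ D.Fs key (one β) Finset.univ κ := fun κ z hz =>
    Reg_Alt_mem (fun _ hw _ hz => D.rename_mem_Fs Reg_slot key κ hw hz) hz
  have hA : ∀ z, z ∈ Ideal.span (rename Sum.inr '' aa) * D.J (one β) →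
      Alt D.lab0 z ∈ Ideal.span (rename Sum.inr '' aa) * D.J (one β) := fun z hz =>
    Reg_Alt_mem (D.Reg_rename_aa aa) hz
  have h2 := congrArg (Alt D.lab0) h1
  rw [map_add, Alt_mul hu, D.Reg_Alt_Y hy] at h2
  obtain ⟨y', hy', h3⟩ := D.Alt_Fs_step hk Reg_slot hq hf
  have hspan : Ideal.span (rename Sum.inr '' insert (X u) aa) =
      Ideal.span {(X (Sum.inr u) : MvPolynomial (β ⊕ τ) ℂ)} ⊔
        Ideal.span (rename Sum.inr '' aa) := by
    rw [Set.image_insert_eq, Ideal.span_insert, rename_X]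
  have h4 := D.alg hk (t := ∅) (by simp) Reg_slot (by simp) hq hκ (insert (X u) aa) hy' (by
    rw [hspan, Ideal.sup_mul]
    have e : Alt D.lab0 (y' * D.alphaS q (Finset.univ \ q)) =
        -(Alt D.lab0 f - Alt D.lab0 (y' * D.alphaS q (Finset.univ \ q))) +
          (X (Sum.inr u) * ((Wl D.lab0).card : ℂ) • y + -Alt D.lab0 a) := by
      rw [← h2]
      ring
    rw [e]
    exact Submodule.add_mem_sup (Ideal.mem_sup_right (neg_mem h3)) (Submodule.add_mem_sup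
      (Ideal.mul_mem_mul (Ideal.mem_span_singleton_self _)
        (Submodule.smul_of_tower_mem _ _ (D.mem_Y_iff.1 hy).1)) (neg_mem (hA a ha))))
  rw [hspan, Ideal.sup_mul] at h4
  obtain ⟨d', hd', b, hb, h5⟩ := Submodule.mem_sup.1 h4
  obtain ⟨c, hc, a', ha', rfl⟩ := Submodule.mem_sup.1 hb
  obtain ⟨j, hj, rfl⟩ := Ideal.mem_span_singleton_mul.1 hc
  have h6 : d' * D.alphaS q (Finset.univ \ q) ∈ D.Fs key (one β) Finset.univ (key (D.dimv q)) := by
    simpa [Dd] using D.alg_conv hk (t := ∅) (by simp) Reg_slot (by simp) hq hκ hd'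
  have h7 : a' * D.alphaS q (Finset.univ \ q) ∈
      Ideal.span (rename Sum.inr '' aa) * D.J (one β) := by
    refine Ideal.mul_mono_right (D.alphaS_mul_J Reg_slot hq) ?_
    rw [mul_left_comm, mul_comm a']
    exact Ideal.mul_mem_mul (Ideal.mem_span_singleton_self _) ha'
  have h8 : D.alphaS q (Finset.univ \ q) * j ∈
      D.Fs key (one β) Finset.univ (key (D.dimv q) - 1) :=
    D.Reg_mem_Fs key _ hq (sub_one_lt _) hj
  have h9 : Alt D.lab0 (y' * D.alphaS q (Finset.univ \ q)) =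
      Alt D.lab0 (d' * D.alphaS q (Finset.univ \ q)) +
        X (Sum.inr u) * Alt D.lab0 (D.alphaS q (Finset.univ \ q) * j) +
        Alt D.lab0 (a' * D.alphaS q (Finset.univ \ q)) := by
    rw [← Alt_mul hu, ← map_add, ← map_add, ← h5]
    congr 1
    ring
  have k1 := ih (((Wl D.lab0).card : ℂ) • y - Alt D.lab0 (D.alphaS q (Finset.univ \ q) * j))
    (sub_mem (Submodule.smul_mem _ _ hy) (D.Reg_Alt_mem_Y (D.Fs_le_J Reg_slot key _ h8))) (by
      have e : X (Sum.inr u) * (((Wl D.lab0).card : ℂ) • y -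
          Alt D.lab0 (D.alphaS q (Finset.univ \ q) * j)) =
          (Alt D.lab0 f - Alt D.lab0 (y' * D.alphaS q (Finset.univ \ q)) +
            Alt D.lab0 (d' * D.alphaS q (Finset.univ \ q))) +
          (Alt D.lab0 a + Alt D.lab0 (a' * D.alphaS q (Finset.univ \ q))) := by
        rw [mul_sub, ← h2, h9]
        ring
      rw [e]
      exact Submodule.add_mem_sup (add_mem h3 (hF _ _ h6)) (add_mem (hA a ha) (hA _ h7)))
  refine Reg_smul_mem D.lab0 ?_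
  have k2 := add_mem (sup_le_sup_right (D.Fs_anti key _ _ (sub_one_lt _).le) _ k1)
    (Ideal.mem_sup_left (hF _ _ h8))
  rwa [sub_add_cancel] at k2

theorem Reg_desc (hk : D.IsKey th key) (aa : Set (MvPolynomial τ ℂ)) (u : τ)
    (h0 : ∀ y ∈ D.Y (one β), X (Sum.inr u) * y ∈ Ideal.span (rename Sum.inr '' aa) * D.J (one β) →
      y ∈ Ideal.span (rename Sum.inr '' aa) * D.J (one β)) {y : MvPolynomial (β ⊕ τ) ℂ}
    (hy : y ∈ D.Y (one β)) (h : X (Sum.inr u) * y ∈ D.Dd key (one β) {Finset.univ} ⊔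
      Ideal.span (rename Sum.inr '' aa) * D.J (one β)) :
    y ∈ D.Dd key (one β) {Finset.univ} ⊔ Ideal.span (rename Sum.inr '' aa) * D.J (one β) := by
  obtain ⟨M, hM⟩ := Finite.exists_le fun q : Finset β => key (D.dimv q)
  rw [Reg_Dd] at h ⊢
  have main : ∀ κ ≤ max M (D.last key Finset.univ), D.last key Finset.univ ≤ κ →
      ∀ y ∈ D.Y (one β), X (Sum.inr u) * y ∈ D.Fs key (one β) Finset.univ κ ⊔
        Ideal.span (rename Sum.inr '' aa) * D.J (one β) → y ∈ D.Fs key (one β) Finset.univ κ ⊔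
        Ideal.span (rename Sum.inr '' aa) * D.J (one β) := by
    intro κ hκ
    induction κ, hκ using Int.leInductionDown with
    | base =>
      rw [D.Fs_eq_bot key _ _ fun q _ => (hM q).trans (le_max_left _ _), bot_sup_eq]
      exact fun _ => h0
    | pred κ _ ih => exact fun h => D.Reg_step hk aa u (by omega) (ih (by omega))
  exact main _ (le_max_right _ _) le_rfl y hy h

/-- (REG). -/
theorem reg1 (hk : D.IsKey th key) (hg : D.Gen0 th k₀) (hkr : D.IsKr (one β) kr)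
    (hSP : D.SPr (one β) kr) (hLOW : D.LOWr (one β) kr) :
    RegMod D.lab0 (D.Ann0 key) (Sum.inr D.hh) := by
  intro h hh h1
  have h2 := D.Reg_desc hk ∅ D.hh (fun y _ hy => ?_) (D.mul_mem_Y hh D.delta_mem_Y)
    (Ideal.mem_sup_left (by rw [← mul_assoc]; exact h1.2))
  · refine ⟨hh, ?_⟩
    simpa using h2
  · rw [Set.image_empty, Ideal.span_empty, Ideal.bot_mul, Ideal.mem_bot] at hy ⊢
    exact (mul_eq_zero.1 hy).resolve_left D.hb_ne_zero
theorem reg2 (hk : D.IsKey th key) (hg : D.Gen0 th k₀) (hkr : D.IsKr (one β) kr)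
    (hSP : D.SPr (one β) kr) (hLOW : D.LOWr (one β) kr) :
    RegMod D.lab0 (AnnAdd D.lab0 (D.Ann0 key) (Sum.inr D.hh)) (Sum.inr D.bb) := by
  rintro h hh ⟨a, ha, r, hr, h1⟩
  have e : Ideal.span (rename Sum.inr '' {X D.hh}) = Ideal.span {D.hb} := by
    rw [Set.image_singleton, rename_X, hb]
  have h2 := D.Reg_desc hk {X D.hh} D.bb (fun y hy h2 => ?_) (D.mul_mem_Y hh D.delta_mem_Y) ?_
  · rw [e] at h2
    exact D.Reg_mem_Ann1 hk hg hkr hSP hLOW hh (SetLike.le_def.1 (sup_le_sup_left Ideal.mul_le_left _) h2)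
  · rw [e] at h2 ⊢
    obtain ⟨j, hj, h3⟩ := Ideal.mem_span_singleton_mul.1 h2
    have h4 := congrArg (Alt D.lab0) h3
    rw [hb, Alt_mul (D.X_inr_mem_Rinv _ _), Alt_mul (D.X_inr_mem_Rinv _ _), D.Reg_Alt_Y hy] at h4
    obtain ⟨y₂, hy₂, h5⟩ := D.sat_b hkr hSP hLOW (Submodule.smul_mem _ _ hy)
      (D.Reg_Alt_mem_Y hj) h4.symm
    refine Reg_smul_mem D.lab0 ?_
    rw [h5]
    exact Ideal.mul_mem_mul (Ideal.mem_span_singleton_self _) (D.mem_Y_iff.1 hy₂).1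
  · rw [e, ← mul_assoc, h1, add_mul, mul_assoc]
    exact Submodule.add_mem_sup ha.2 (Ideal.mul_mem_mul (Ideal.mem_span_singleton_self _)
      (D.mem_Y_iff.1 (D.mul_mem_Y hr D.delta_mem_Y)).1)
/-! ### The translation derivation -/

/-- The sum of the partial derivatives in the basis variables. -/
def Reg_d (β τ : Type) [Fintype β] :
    Derivation ℂ (MvPolynomial (β ⊕ τ) ℂ) (MvPolynomial (β ⊕ τ) ℂ) :=
  ∑ k : β, pderiv (Sum.inl k)

omit [DecidableEq β] [Fintype τ] [DecidableEq τ] in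
theorem Reg_d_apply (y : MvPolynomial (β ⊕ τ) ℂ) :
    Reg_d β τ y = ∑ k : β, pderiv (Sum.inl k) y := by
  classical
  rw [Reg_d]
  induction (Finset.univ : Finset β) using Finset.induction_on with
  | empty => rfl
  | insert k s hk ih => rw [Finset.sum_insert hk, Finset.sum_insert hk, Derivation.add_apply, ih]

omit [Fintype τ] in
theorem Reg_d_inl (k : β) : Reg_d β τ (X (Sum.inl k)) = 1 := by
  simp [Reg_d_apply, pderiv_X, Pi.single_apply]

omit [Fintype τ] in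
theorem Reg_d_inr (a : τ) : Reg_d β τ (X (Sum.inr a)) = 0 := by
  simp [Reg_d_apply, pderiv_X]

omit [DecidableEq β] [Fintype τ] [DecidableEq τ] in
theorem Reg_d_mul (a b : MvPolynomial (β ⊕ τ) ℂ) :
    Reg_d β τ (a * b) = a * Reg_d β τ b + b * Reg_d β τ a := (Reg_d β τ).leibniz a b

omit [DecidableEq β] [Fintype τ] [DecidableEq τ] in
theorem Reg_d_prod {ι : Type} (s : Finset ι) {f : ι → MvPolynomial (β ⊕ τ) ℂ}
    (h : ∀ i ∈ s, Reg_d β τ (f i) = 0) : Reg_d β τ (∏ i ∈ s, f i) = 0 :=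
  Finset.prod_induction f (fun y => Reg_d β τ y = 0)
    (fun a b ha hb => by rw [Reg_d_mul, ha, hb, mul_zero, mul_zero, add_zero])
    (Reg_d β τ).map_one_eq_zero h

theorem Reg_d_wt (γ : Gam Ar) (l k : β) : Reg_d β τ (D.wt γ l k) = 0 := by
  rw [wt_eq, map_add, map_sub, map_sum, Reg_d_inl, Reg_d_inl, sub_self, zero_add]
  refine Finset.sum_eq_zero fun a _ => ?_
  rw [Reg_d_mul, Reg_d_inr, derivation_C, mul_zero, mul_zero, add_zero]

theorem Reg_d_alpha (k l : β) : Reg_d β τ (D.alpha k l) = 0 :=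
  Reg_d_prod _ fun _ _ => D.Reg_d_wt _ _ _

theorem Reg_d_erho (sl : β → Λ) (ρ : β → ℕ) : Reg_d β τ (D.erho sl ρ) = 0 := by
  refine Reg_d_prod _ fun p _ => ?_
  rw [eps]
  split_ifs
  · exact D.Reg_d_alpha _ _
  · exact D.Reg_d_wt _ _ _
  · exact (Reg_d β τ).map_one_eq_zero

theorem Reg_d_delta : Reg_d β τ D.delta = 0 := by
  have h1 : Reg_d β τ (Dl D.lab0) = 0 := by
    refine Reg_d_prod _ fun p hp => ?_
    simp only [Finset.mem_filter] at hp
    have h2 := hp.2.1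
    obtain ⟨x | x, y | y⟩ := p
    · rw [map_sub, Reg_d_inl, Reg_d_inl, sub_self]
    · exact absurd (D.Reg_lab_inr _ h2) Sum.inl_ne_inr
    · exact absurd (D.Reg_lab_inr _ h2.symm) Sum.inl_ne_inr
    · rw [map_sub, Reg_d_inr, Reg_d_inr, sub_self]
  rw [delta, Reg_d_mul, h1, Reg_d_erho, mul_zero, mul_zero, add_zero]

theorem Reg_d_Fs {key : (I → ℕ) → ℤ} {sl : β → Λ} {p : Finset β} {κ : ℤ}
    {y : MvPolynomial (β ⊕ τ) ℂ} (hy : y ∈ D.Fs key sl p κ) : Reg_d β τ y ∈ D.Fs key sl p κ := by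
  let K : Ideal (MvPolynomial (β ⊕ τ) ℂ) :=
    { carrier := {y | y ∈ D.Fs key sl p κ ∧ Reg_d β τ y ∈ D.Fs key sl p κ}
      add_mem' := fun ha hb => ⟨add_mem ha.1 hb.1, by rw [map_add]; exact add_mem ha.2 hb.2⟩
      zero_mem' := ⟨zero_mem _, by rw [map_zero]; exact zero_mem _⟩
      smul_mem' := fun c x hx => ⟨Submodule.smul_mem _ c hx.1, by
        rw [smul_eq_mul, Reg_d_mul]
        exact add_mem (Ideal.mul_mem_left _ _ hx.2) (Ideal.mul_mem_right _ _ hx.1)⟩ }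
  refine (D.Reg_Fs_le (K := K) (fun q hq hκ ρ =>
    ⟨D.Reg_mem_Fs key sl hq hκ (Ideal.subset_span ⟨ρ, rfl⟩), ?_⟩) hy).2
  rw [Reg_d_mul, Reg_d_erho, alphaS,
    Reg_d_prod _ fun k _ => Reg_d_prod _ fun l _ => D.Reg_d_alpha k l, mul_zero, mul_zero, add_zero]
  exact zero_mem _

theorem Reg_d_Rinv {sl : β → Λ} {y : MvPolynomial (β ⊕ τ) ℂ} (hy : y ∈ Rinv (D.lab sl)) :
    Reg_d β τ y ∈ Rinv (D.lab sl) := by
  refine mem_Rinv.2 fun w hw => ?_
  have h1 : ∀ z, rename w (Reg_d β τ z) = Reg_d β τ (rename w z) := by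
    obtain ⟨g, -, rfl⟩ := D.mem_Wl_lab.1 hw
    intro z
    induction z using MvPolynomial.induction_on with
    | C a => rw [rename_C, derivation_C, map_zero]
    | add a b ha hb => rw [map_add, map_add, map_add, map_add, ha, hb]
    | mul_X a x ha =>
      rw [Reg_d_mul, map_add, map_mul, map_mul, map_mul, Reg_d_mul, ha, rename_X]
      cases x <;> simp [Reg_d_inl, Reg_d_inr]
  rw [h1, mem_Rinv.1 hy w hw]

theorem Reg_d_annAdd {sl : β → Λ} {Ann : Set (MvPolynomial (β ⊕ τ) ℂ)}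
    (h : ∀ a ∈ Ann, Reg_d β τ a ∈ Ann) (u : τ) :
    ∀ a ∈ AnnAdd (D.lab sl) Ann (Sum.inr u), Reg_d β τ a ∈ AnnAdd (D.lab sl) Ann (Sum.inr u) := by
  rintro _ ⟨a, ha, r, hr, rfl⟩
  refine ⟨_, h a ha, _, D.Reg_d_Rinv hr, ?_⟩
  rw [map_add, Reg_d_mul, Reg_d_inr, mul_zero, add_zero]

omit [Fintype I] [DecidableEq I] [Fintype Ar] [DecidableEq Ar] [DecidableEq Λ] in
theorem Reg_nzd {sl : β → Λ} {Ann : Set (MvPolynomial (β ⊕ τ) ℂ)} (hA : IsAnn (D.lab sl) Ann)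
    (hd : ∀ a ∈ Ann, Reg_d β τ a ∈ Ann) {k : β} (hx : X (Sum.inl k) ∈ Rinv (D.lab sl)) :
    RegMod (D.lab sl) Ann (Sum.inl k) := by
  have hs : ∀ (m : ℕ) (h : MvPolynomial (β ⊕ τ) ℂ), ((m : ℂ) + 1) • h ∈ Ann → h ∈ Ann := by
    intro m h hm
    have h1 := hA.mul (C ((m : ℂ) + 1)⁻¹) (Subalgebra.algebraMap_mem _ _) _ hm
    rwa [C_mul', smul_smul, inv_mul_cancel₀ (Nat.cast_add_one_ne_zero m), one_smul] at h1
  have main : ∀ (n m : ℕ) (h : MvPolynomial (β ⊕ τ) ℂ), h.IsHomogeneous n →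
      X (Sum.inl k) * Reg_d β τ h + ((m : ℂ) + 1) • h ∈ Ann → h ∈ Ann := by
    intro n
    induction n with
    | zero =>
      intro m h hh h1
      rw [← totalDegree_zero_iff_isHomogeneous, totalDegree_eq_zero_iff_eq_C] at hh
      have h2 : Reg_d β τ h = 0 := by rw [hh, derivation_C]
      rw [h2, mul_zero, zero_add] at h1
      exact hs m h h1
    | succ n ih =>
      intro m h hh h1
      have h2 : (Reg_d β τ h).IsHomogeneous n := by
        rw [Reg_d_apply]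
        exact IsHomogeneous.sum _ _ _ fun i _ => hh.pderiv
      have h3 := hd _ h1
      rw [map_add, Reg_d_mul, Reg_d_inl, mul_one, Derivation.map_smul, add_assoc] at h3
      have h4 := ih (m + 1) _ h2 (by
        convert h3 using 2
        rw [Nat.cast_add_one, add_smul _ 1, one_smul, add_comm])
      have h5 := hA.add _ h1 _ (hA.mul (-X (Sum.inl k)) (neg_mem hx) _ h4)
      refine hs m h ?_
      convert h5 using 1
      ring
  intro h _ h1
  have h2 : ∀ n, homogeneousComponent n h ∈ Ann := fun n => by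
    refine main n 0 _ (homogeneousComponent_isHomogeneous n h) ?_
    have h3 := hA.hom _ h1 (n + 1)
    rw [mul_comm, Artin_hc_mul h (isHomogeneous_X ℂ _), if_neg (by omega), Nat.add_sub_cancel,
      mul_comm] at h3
    have h4 := hd _ h3
    rw [Reg_d_mul, Reg_d_inl, mul_one] at h4
    simpa using h4
  rw [← sum_homogeneousComponent h]
  exact Finset.sum_induction _ (· ∈ Ann) (fun a b ha hb => hA.add a ha b hb) hA.zero
    fun n _ => h2 n

theorem reg3 (hk : D.IsKey th key) (hg : D.Gen0 th k₀) :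
    RegMod D.lab0 (AnnAdd D.lab0 (AnnAdd D.lab0 (D.Ann0 key) (Sum.inr D.hh)) (Sum.inr D.bb))
      (Sum.inl k₀) := by
  refine D.Reg_nzd (IsAnn.annAdd (IsAnn.annAdd (D.isAnn_Ann0 key) D.Reg_lab_inr) D.Reg_lab_inr)
    (D.Reg_d_annAdd (D.Reg_d_annAdd (Ann := D.Ann0 key)
      (fun a ha => ⟨D.Reg_d_Rinv ha.1, ?_⟩) _) _)
    (X_mem_Rinv fun l hl => ?_)
  · have h1 := ha.2
    rw [Reg_Dd] at h1 ⊢
    have h2 := D.Reg_d_Fs h1
    rwa [Reg_d_mul, Reg_d_delta, mul_zero, zero_add, mul_comm] at h2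
  · cases l with
    | inl l => rw [hg.single l (by simpa [lab] using hl)]
    | inr a => exact absurd (D.Reg_lab_inr _ hl.symm) Sum.inl_ne_inr

end HD

end Pool.Agent.HK
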