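import Pool.Agent.P.MP_1206ce_ag.AH.EV

/-! Saturation of `Y` with respect to `ħ`. -/

noncomputable section

open MvPolynomial

namespace Pool.Agent.HK

/-- Setting one variable to zero. -/
def Sat_kill {V : Type} [DecidableEq V] (x₀ : V) : MvPolynomial V ℂ →ₐ[ℂ] MvPolynomial V ℂ :=
  aeval fun x => if x = x₀ then 0 else X x

theorem Sat_kill_X {V : Type} [DecidableEq V] (x₀ x : V) :
    Sat_kill x₀ (X x) = if x = x₀ then 0 else X x := aeval_X _ _

theorem Sat_dvd_sub_kill {V : Type} [DecidableEq V] (x₀ : V) (y : MvPolynomial V ℂ) :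
    X x₀ ∣ y - Sat_kill x₀ y := by
  have h : (Ideal.Quotient.mkₐ ℂ (Ideal.span {(X x₀ : MvPolynomial V ℂ)})).comp (Sat_kill x₀)
      = Ideal.Quotient.mkₐ ℂ (Ideal.span {(X x₀ : MvPolynomial V ℂ)}) := by
    refine MvPolynomial.algHom_ext fun x => ?_
    rw [AlgHom.comp_apply, Sat_kill_X]
    by_cases hx : x = x₀
    · rw [if_pos hx, map_zero, hx, Ideal.Quotient.mkₐ_eq_mk]
      exact (Ideal.Quotient.eq_zero_iff_mem.2 (Ideal.mem_span_singleton_self _)).symm
    · rw [if_neg hx]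
  have h2 := AlgHom.congr_fun h y
  rw [AlgHom.comp_apply, Ideal.Quotient.mkₐ_eq_mk] at h2
  exact Ideal.mem_span_singleton.1 (Ideal.Quotient.eq.1 h2.symm)

theorem Sat_kill_eq_zero {V : Type} [DecidableEq V] (x₀ : V) {y : MvPolynomial V ℂ} :
    Sat_kill x₀ y = 0 ↔ X x₀ ∣ y := by
  constructor
  · intro h
    have := Sat_dvd_sub_kill x₀ y
    rwa [h, sub_zero] at this
  · rintro ⟨q, rfl⟩
    rw [map_mul, Sat_kill_X, if_pos rfl, zero_mul]

theorem Sat_kill_rename {V V' : Type} [DecidableEq V] [DecidableEq V'] {x₀ : V} {y₀ : V'}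
    {f : V → V'} (hf : ∀ x, f x = y₀ ↔ x = x₀) (y : MvPolynomial V ℂ) :
    Sat_kill y₀ (rename f y) = rename f (Sat_kill x₀ y) := by
  have h : (Sat_kill y₀).comp (rename f) = (rename f).comp (Sat_kill x₀) := by
    refine MvPolynomial.algHom_ext fun x => ?_
    rw [AlgHom.comp_apply, AlgHom.comp_apply, rename_X, Sat_kill_X, Sat_kill_X]
    by_cases hx : x = x₀
    · rw [if_pos hx, if_pos ((hf x).2 hx), map_zero]
    · rw [if_neg hx, if_neg fun h => hx ((hf x).1 h), rename_X]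
  exact AlgHom.congr_fun h y

/-- Equality up to sign. -/
def Sat_PM {R : Type} [CommRing R] (a b : R) : Prop := a = b ∨ a = -b

theorem Sat_PM.refl {R : Type} [CommRing R] (a : R) : Sat_PM a a := Or.inl rfl

theorem Sat_PM.of_eq {R : Type} [CommRing R] {a b : R} (h : a = b) : Sat_PM a b := Or.inl h

theorem Sat_PM.symm {R : Type} [CommRing R] {a b : R} (h : Sat_PM a b) : Sat_PM b a := by
  rcases h with h | h
  · exact Or.inl h.symm
  · exact Or.inr (by rw [h, neg_neg])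

theorem Sat_PM.trans {R : Type} [CommRing R] {a b c : R} (h : Sat_PM a b) (h' : Sat_PM b c) :
    Sat_PM a c := by
  rcases h with h | h <;> rcases h' with h' | h'
  · exact Or.inl (h.trans h')
  · exact Or.inr (h.trans h')
  · exact Or.inr (by rw [h, h'])
  · exact Or.inl (by rw [h, h', neg_neg])

theorem Sat_PM.mul {R : Type} [CommRing R] {a b c d : R} (h : Sat_PM a b) (h' : Sat_PM c d) :
    Sat_PM (a * c) (b * d) := by
  rcases h with h | h <;> rcases h' with h' | h'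
  · exact Or.inl (by rw [h, h'])
  · exact Or.inr (by rw [h, h', mul_neg])
  · exact Or.inr (by rw [h, h', neg_mul])
  · exact Or.inl (by rw [h, h', neg_mul_neg])

theorem Sat_PM.prod {R ι : Type} [CommRing R] {s : Finset ι} {f g : ι → R}
    (h : ∀ i ∈ s, Sat_PM (f i) (g i)) : Sat_PM (∏ i ∈ s, f i) (∏ i ∈ s, g i) := by
  classical
  induction s using Finset.induction_on with
  | empty => exact Sat_PM.refl _
  | insert a s ha ih =>
    rw [Finset.prod_insert ha, Finset.prod_insert ha]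
    exact (h a (Finset.mem_insert_self _ _)).mul
      (ih fun i hi => h i (Finset.mem_insert_of_mem hi))

theorem Sat_PM.sub {R : Type} [CommRing R] (a b : R) : Sat_PM (a - b) (b - a) :=
  Or.inr (by ring)

/-- A product over pairs does not depend on the orientation, up to sign. -/
theorem Sat_orient {R α : Type} [CommRing R] [DecidableEq α] (x : α → R) {S T : Finset (α × α)}
    (hST : ∀ p ∈ S, p ∈ T ∨ p.swap ∈ T) (hTS : ∀ p ∈ T, p ∈ S ∨ p.swap ∈ S)
    (hS : ∀ p ∈ S, p.swap ∉ S) (hT : ∀ p ∈ T, p.swap ∉ T) :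
    Sat_PM (∏ p ∈ S, (x p.1 - x p.2)) (∏ p ∈ T, (x p.1 - x p.2)) := by
  have h : ∏ p ∈ S, (x (if p ∈ T then p else p.swap).1 - x (if p ∈ T then p else p.swap).2)
      = ∏ p ∈ T, (x p.1 - x p.2) := by
    refine Finset.prod_nbij' (fun p => if p ∈ T then p else p.swap)
      (fun p => if p ∈ S then p else p.swap) ?_ ?_ ?_ ?_ fun _ _ => rfl
    · intro p hp
      by_cases h : p ∈ T
      · simp [h]
      · simpa [h] using (hST p hp).resolve_left h
    · intro p hp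
      by_cases h : p ∈ S
      · simp [h]
      · simpa [h] using (hTS p hp).resolve_left h
    · intro p hp
      by_cases h : p ∈ T
      · simp [h, hp]
      · simp [h, hS p hp]
    · intro p hp
      by_cases h : p ∈ S
      · simp [h, hp]
      · simp [h, hT p hp]
  rw [← h]
  refine Sat_PM.prod fun p _ => ?_
  by_cases hp : p ∈ T
  · rw [if_pos hp]
    exact Sat_PM.refl _
  · rw [if_neg hp]
    exact Sat_PM.sub _ _

namespace HD

variable {β I Ar τ Λ Λ' : Type} [Fintype β] [DecidableEq β] [Fintype I] [DecidableEq I] [Fintype Ar]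
  [DecidableEq Ar] [Fintype τ] [DecidableEq τ] [DecidableEq Λ] [DecidableEq Λ'] (D : HD β I Ar τ)

/-- Setting `ħ = 0`. -/
def h0 : MvPolynomial (β ⊕ τ) ℂ →ₐ[ℂ] MvPolynomial (β ⊕ τ) ℂ :=
  aeval fun x => if x = Sum.inr D.hh then 0 else X x

/-- The product of the weights of the doubled quiver between different levels, at `ħ = 0`. -/
def Ar0 (ρ : β → ℕ) : MvPolynomial (β ⊕ τ) ℂ :=
  ∏ p ∈ Finset.univ.filter (fun p : Ar × β × β =>
    D.v p.2.1 = D.t p.1 ∧ D.v p.2.2 = D.s p.1 ∧ ρ p.2.1 ≠ ρ p.2.2),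
    D.wt (some (Sum.inl p.1)) p.2.1 p.2.2

theorem Sat_h0_eq : D.h0 = Sat_kill (Sum.inr D.hh : β ⊕ τ) := rfl

theorem h0_eq_zero_iff {y : MvPolynomial (β ⊕ τ) ℂ} : D.h0 y = 0 ↔ D.hb ∣ y :=
  Sat_kill_eq_zero _
theorem hb_dvd_sub_h0 (y : MvPolynomial (β ⊕ τ) ℂ) : D.hb ∣ y - D.h0 y :=
  Sat_dvd_sub_kill _ y
theorem h0_rename {sl : β → Λ} {w : Equiv.Perm (β ⊕ τ)} (hw : w ∈ Wl (D.lab sl))
    (y : MvPolynomial (β ⊕ τ) ℂ) : D.h0 (rename w y) = rename w (D.h0 y) := by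
  obtain ⟨g, -, rfl⟩ := D.mem_Wl_lab.1 hw
  refine Sat_kill_rename (fun x => ?_) y
  rcases x with k | a <;> simp

theorem Sat_h0_inl (k : β) : D.h0 (X (Sum.inl k)) = X (Sum.inl k) := by
  rw [Sat_h0_eq, Sat_kill_X, if_neg (by simp)]

theorem Sat_h0_inr {a : τ} (ha : a ≠ D.hh) : D.h0 (X (Sum.inr a)) = X (Sum.inr a) := by
  rw [Sat_h0_eq, Sat_kill_X, if_neg (by simpa using ha)]

theorem Sat_h0_hb : D.h0 D.hb = 0 := D.h0_eq_zero_iff.2 dvd_rfl

theorem Sat_h0_C (c : ℂ) : D.h0 (C c) = C c := D.h0.commutes c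

theorem Sat_h0_none (l k : β) : D.h0 (D.wt none l k) = X (Sum.inl l) - X (Sum.inl k) := by
  rw [wt_none, map_sub, map_sub, Sat_h0_inl, Sat_h0_inl, Sat_h0_hb, sub_zero]

theorem Sat_h0_w (h : Ar) : D.h0 (∑ a, C (D.w h a : ℂ) * X (Sum.inr a)) =
    ∑ a, C (D.w h a : ℂ) * X (Sum.inr a) := by
  rw [map_sum]
  refine Finset.sum_congr rfl fun a _ => ?_
  by_cases ha : a = D.hh
  · rw [ha, D.wh]
    simp
  · rw [map_mul, Sat_h0_C, D.Sat_h0_inr ha]

theorem Sat_h0_inl_wt (h : Ar) (l k : β) :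
    D.h0 (D.wt (some (Sum.inl h)) l k) = D.wt (some (Sum.inl h)) l k := by
  rw [wt_eq, map_add, map_sub, Sat_h0_inl, Sat_h0_inl]
  exact congrArg _ (D.Sat_h0_w h)

theorem Sat_h0_inr_wt (h : Ar) (l k : β) :
    D.h0 (D.wt (some (Sum.inr h)) l k) = -D.wt (some (Sum.inl h)) k l := by
  have e : (∑ a, C (D.w3 (some (Sum.inr h)) a : ℂ) * X (Sum.inr a) : MvPolynomial (β ⊕ τ) ℂ)
      = D.hb - ∑ a, C (D.w h a : ℂ) * X (Sum.inr a) := by
    have e1 : (D.hb : MvPolynomial (β ⊕ τ) ℂ) =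
        ∑ a, C (((Pi.single D.hh 1 : τ → ℤ) a : ℤ) : ℂ) * X (Sum.inr a) := by
      rw [Finset.sum_eq_single D.hh]
      · simp [hb]
      · intro a _ ha
        simp [Pi.single_eq_of_ne ha]
      · simp
    rw [e1, ← Finset.sum_sub_distrib]
    refine Finset.sum_congr rfl fun a _ => ?_
    simp only [w3, Pi.sub_apply, Int.cast_sub, map_sub]
    ring
  rw [wt_eq, wt_eq, e, map_add, map_sub, map_sub, Sat_h0_inl, Sat_h0_inl, Sat_h0_hb, Sat_h0_w]
  simp only [w3]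
  ring

/-- The Vandermonde product as a product over pairs of basis vectors. -/
theorem Sat_Dl_lab (sl : β → Λ) : Dl (D.lab sl) =
    ∏ p ∈ Finset.univ.filter (fun p : β × β => D.v p.1 = D.v p.2 ∧ sl p.1 = sl p.2 ∧
      ordV (Sum.inl p.1 : β ⊕ τ) < ordV (Sum.inl p.2 : β ⊕ τ)),
      (X (Sum.inl p.1) - X (Sum.inl p.2)) := by
  unfold Dl
  symm
  refine Finset.prod_nbij (fun p : β × β => ((Sum.inl p.1, Sum.inl p.2) : (β ⊕ τ) × (β ⊕ τ)))
    ?_ ?_ ?_ fun _ _ => rfl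
  · intro p hp
    simp only [Finset.mem_filter, Finset.mem_univ, true_and] at hp ⊢
    refine ⟨?_, hp.2.2⟩
    simp [lab, hp.1, hp.2.1]
  · intro p _ q _ h
    simp only [Prod.mk.injEq, Sum.inl.injEq] at h
    exact Prod.ext h.1 h.2
  · rintro ⟨x, y⟩ hp
    simp only [Finset.coe_filter, Finset.mem_univ, true_and, Set.mem_ofPred_eq] at hp
    obtain ⟨h1, h2⟩ := hp
    rcases x with k | a <;> rcases y with l | b
    · refine ⟨(k, l), ?_, rfl⟩
      simp only [lab, Sum.map_inl, Sum.inl.injEq, Prod.mk.injEq] at h1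
      simp only [Finset.coe_filter, Finset.mem_univ, true_and, Set.mem_ofPred_eq]
      exact ⟨h1.1, h1.2, h2⟩
    · simp [lab] at h1
    · simp [lab] at h1
    · simp only [lab, Sum.map_inr, id, Sum.inr.injEq] at h1
      rw [h1] at h2
      exact absurd h2 (lt_irrefl _)

theorem Sat_h0_Dl (sl : β → Λ) : D.h0 (Dl (D.lab sl)) = Dl (D.lab sl) := by
  rw [Sat_Dl_lab, map_prod]
  refine Finset.prod_congr rfl fun p _ => ?_
  rw [map_sub, Sat_h0_inl, Sat_h0_inl]

theorem Sat_alpha (k l : β) : D.alpha k l =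
    (if D.v l = D.v k then D.wt none l k else 1) *
      ((∏ h, if D.v l = D.t h ∧ D.v k = D.s h then D.wt (some (Sum.inl h)) l k else 1) *
        ∏ h, if D.v l = D.s h ∧ D.v k = D.t h then D.wt (some (Sum.inr h)) l k else 1) := by
  unfold alpha
  rw [Finset.prod_filter, Fintype.prod_option, Fintype.prod_sum_type]
  simp only [ok, decide_eq_true_eq]

/-- The product of the weights of the arrows from `b` to `a`. -/
def Sat_G (a b : β) : MvPolynomial (β ⊕ τ) ℂ :=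
  ∏ h, if D.v a = D.t h ∧ D.v b = D.s h then D.wt (some (Sum.inl h)) a b else 1

theorem Sat_h0_alpha (k l : β) : Sat_PM (D.h0 (D.alpha k l))
    ((if D.v l = D.v k then X (Sum.inl l) - X (Sum.inl k) else 1) *
      (D.Sat_G l k * D.Sat_G k l)) := by
  rw [Sat_alpha, map_mul, map_mul, map_prod, map_prod]
  refine Sat_PM.mul (Sat_PM.of_eq ?_) (Sat_PM.mul (Sat_PM.of_eq ?_) (Sat_PM.prod fun h _ => ?_))
  · split_ifs
    · exact D.Sat_h0_none l k
    · exact map_one _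
  · refine Finset.prod_congr rfl fun h _ => ?_
    split_ifs
    · exact D.Sat_h0_inl_wt h l k
    · exact map_one _
  · by_cases hc : D.v l = D.s h ∧ D.v k = D.t h
    · rw [if_pos hc, if_pos hc.symm]
      exact Or.inr (D.Sat_h0_inr_wt h l k)
    · rw [if_neg hc, if_neg fun h' => hc h'.symm]
      exact Sat_PM.of_eq (map_one _)

theorem Sat_h0_eps (ρ : β → ℕ) (k l : β) : Sat_PM (D.h0 (D.eps ρ k l))
    ((if ρ k < ρ l ∧ D.v l = D.v k then X (Sum.inl l) - X (Sum.inl k) else 1) *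
      (if ρ k = ρ l ∧ D.v l = D.v k then X (Sum.inl l) - X (Sum.inl k) else 1) *
      (if ρ k < ρ l then D.Sat_G l k * D.Sat_G k l else 1)) := by
  unfold eps
  by_cases h1 : ρ k < ρ l
  · rw [if_pos h1, if_pos h1, if_neg (fun h : ρ k = ρ l ∧ D.v l = D.v k => h1.ne h.1), mul_one]
    refine (D.Sat_h0_alpha k l).trans (Sat_PM.of_eq ?_)
    simp only [h1, true_and]
  · rw [if_neg h1, if_neg h1, if_neg (fun h : ρ k < ρ l ∧ D.v l = D.v k => h1 h.1), one_mul,
      mul_one]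
    refine Sat_PM.of_eq ?_
    split_ifs
    · exact D.Sat_h0_none l k
    · exact map_one _

theorem Sat_Ar0_eq (ρ : β → ℕ) : D.Ar0 ρ =
    ∏ p : β × β, if ρ p.1 < ρ p.2 then D.Sat_G p.2 p.1 * D.Sat_G p.1 p.2 else 1 := by
  have e1 : D.Ar0 ρ = ∏ p : β × β, if ρ p.1 ≠ ρ p.2 then D.Sat_G p.1 p.2 else 1 := by
    unfold Ar0 Sat_G
    rw [Finset.prod_filter, Fintype.prod_prod_type, Finset.prod_comm]
    refine Finset.prod_congr rfl fun p _ => ?_
    by_cases hp : ρ p.1 ≠ ρ p.2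
    · simp only [hp, and_true, ne_eq, not_false_eq_true, if_true]
    · simp only [hp, and_false, if_false, Finset.prod_const_one]
  have e2 : ∏ p : β × β, (if ρ p.2 < ρ p.1 then D.Sat_G p.1 p.2 else 1)
      = ∏ p : β × β, if ρ p.1 < ρ p.2 then D.Sat_G p.2 p.1 else 1 :=
    Fintype.prod_equiv (Equiv.prodComm β β) _ _ fun _ => rfl
  have e3 : ∀ p : β × β, (if ρ p.1 ≠ ρ p.2 then D.Sat_G p.1 p.2 else 1) =
      (if ρ p.2 < ρ p.1 then D.Sat_G p.1 p.2 else 1) *
        (if ρ p.1 < ρ p.2 then D.Sat_G p.1 p.2 else 1) := by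
    intro p
    rcases lt_trichotomy (ρ p.1) (ρ p.2) with h | h | h
    · rw [if_pos h.ne, if_neg h.not_gt, if_pos h, one_mul]
    · rw [if_neg (not_not.2 h), if_neg h.not_gt, if_neg h.not_lt, one_mul]
    · rw [if_pos h.ne', if_pos h, if_neg h.not_gt, mul_one]
  rw [e1, Finset.prod_congr rfl fun p _ => e3 p, Finset.prod_mul_distrib, e2,
    ← Finset.prod_mul_distrib]
  refine Finset.prod_congr rfl fun p _ => ?_
  split_ifs
  · rfl
  · exact one_mul _

theorem Sat_ord_ne {k l : β} (h : k ≠ l) :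
    ordV (Sum.inl k : β ⊕ τ) < ordV (Sum.inl l : β ⊕ τ) ∨
      ordV (Sum.inl l : β ⊕ τ) < ordV (Sum.inl k : β ⊕ τ) :=
  lt_or_gt_of_ne fun e => h (Sum.inl_injective (ordV_injective e))

theorem Sat_vander (ρ : β → ℕ) : Sat_PM
    ((∏ p ∈ Finset.univ.filter (fun p : β × β => ρ p.1 < ρ p.2 ∧ D.v p.2 = D.v p.1),
        (X (Sum.inl p.2) - X (Sum.inl p.1) : MvPolynomial (β ⊕ τ) ℂ)) *
      ∏ p ∈ Finset.univ.filter (fun p : β × β => p.1 ≠ p.2 ∧ ρ p.1 = ρ p.2 ∧ D.v p.2 = D.v p.1),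
        (X (Sum.inl p.2) - X (Sum.inl p.1) : MvPolynomial (β ⊕ τ) ℂ))
    (Dl D.lab0 * Dl (D.labr (one β) ρ)) := by
  set x : β → MvPolynomial (β ⊕ τ) ℂ := fun k => X (Sum.inl k) with hx
  set o : β → ℕ := fun k => ordV (Sum.inl k : β ⊕ τ) with ho
  have hor : ∀ {k l : β}, k ≠ l → o k < o l ∨ o l < o k := fun h => Sat_ord_ne h
  have hr : Dl (D.labr (one β) ρ) = ∏ p ∈ Finset.univ.filter
      (fun p : β × β => D.v p.1 = D.v p.2 ∧ ρ p.1 = ρ p.2 ∧ o p.1 < o p.2), (x p.1 - x p.2) := by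
    rw [Sat_Dl_lab]
    refine Finset.prod_congr ?_ fun _ _ => rfl
    ext p
    simp [ho]
  have h0 : Dl D.lab0 = (∏ p ∈ Finset.univ.filter
      (fun p : β × β => D.v p.1 = D.v p.2 ∧ ρ p.1 ≠ ρ p.2 ∧ o p.1 < o p.2), (x p.1 - x p.2)) *
      Dl (D.labr (one β) ρ) := by
    rw [hr, Sat_Dl_lab, ← Finset.prod_filter_not_mul_prod_filter _ (fun p : β × β => ρ p.1 = ρ p.2),
      Finset.filter_filter, Finset.filter_filter]
    congr 1
    · refine Finset.prod_congr ?_ fun _ _ => rfl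
      ext p
      simp only [Finset.mem_filter, Finset.mem_univ, true_and, ho, ne_eq]
      tauto
    · refine Finset.prod_congr ?_ fun _ _ => rfl
      ext p
      simp only [Finset.mem_filter, Finset.mem_univ, true_and, ho]
      tauto
  have hA : Sat_PM
      (∏ p ∈ Finset.univ.filter (fun p : β × β => ρ p.1 < ρ p.2 ∧ D.v p.2 = D.v p.1),
        (x p.2 - x p.1))
      (∏ p ∈ Finset.univ.filter
        (fun p : β × β => D.v p.1 = D.v p.2 ∧ ρ p.1 ≠ ρ p.2 ∧ o p.1 < o p.2), (x p.1 - x p.2)) := by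
    refine (Sat_PM.prod fun p _ => Sat_PM.sub _ _).trans (Sat_orient x ?_ ?_ ?_ ?_)
    · intro p hp
      simp only [Finset.mem_filter, Finset.mem_univ, true_and, Prod.fst_swap, Prod.snd_swap] at hp ⊢
      have hne : p.1 ≠ p.2 := fun e => hp.1.ne (by rw [e])
      rcases hor hne with h | h
      · exact Or.inl ⟨hp.2.symm, hp.1.ne, h⟩
      · exact Or.inr ⟨hp.2, hp.1.ne', h⟩
    · intro p hp
      simp only [Finset.mem_filter, Finset.mem_univ, true_and, Prod.fst_swap, Prod.snd_swap] at hp ⊢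
      rcases lt_or_gt_of_ne hp.2.1 with h | h
      · exact Or.inl ⟨h, hp.1.symm⟩
      · exact Or.inr ⟨h, hp.1⟩
    · intro p hp
      simp only [Finset.mem_filter, Finset.mem_univ, true_and, Prod.fst_swap, Prod.snd_swap] at hp ⊢
      exact fun h => lt_asymm hp.1 h.1
    · intro p hp
      simp only [Finset.mem_filter, Finset.mem_univ, true_and, Prod.fst_swap, Prod.snd_swap] at hp ⊢
      exact fun h => lt_asymm hp.2.2 h.2.2
  have hB : Sat_PM
      (∏ p ∈ Finset.univ.filter (fun p : β × β => p.1 ≠ p.2 ∧ ρ p.1 = ρ p.2 ∧ D.v p.2 = D.v p.1),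
        (x p.2 - x p.1))
      (Dl (D.labr (one β) ρ) * Dl (D.labr (one β) ρ)) := by
    refine (Sat_PM.prod fun p _ => Sat_PM.sub _ _).trans ?_
    rw [← Finset.prod_filter_mul_prod_filter_not _ (fun p : β × β => o p.1 < o p.2),
      Finset.filter_filter, Finset.filter_filter, hr]
    refine Sat_PM.mul (Sat_PM.of_eq (Finset.prod_congr ?_ fun _ _ => rfl)) (Sat_orient x ?_ ?_ ?_ ?_)
    · ext p
      simp only [Finset.mem_filter, Finset.mem_univ, true_and]
      constructor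
      · rintro ⟨⟨-, h2, h3⟩, h4⟩
        exact ⟨h3.symm, h2, h4⟩
      · rintro ⟨h1, h2, h3⟩
        exact ⟨⟨fun e => h3.ne (by rw [e]), h2, h1.symm⟩, h3⟩
    · intro p hp
      simp only [Finset.mem_filter, Finset.mem_univ, true_and, Prod.fst_swap, Prod.snd_swap] at hp ⊢
      exact Or.inr ⟨hp.1.2.2, hp.1.2.1.symm, (hor hp.1.1).resolve_left hp.2⟩
    · intro p hp
      simp only [Finset.mem_filter, Finset.mem_univ, true_and, Prod.fst_swap, Prod.snd_swap] at hp ⊢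
      exact Or.inr ⟨⟨fun e => hp.2.2.ne (by rw [e]), hp.2.1.symm, hp.1⟩, hp.2.2.not_gt⟩
    · intro p hp
      simp only [Finset.mem_filter, Finset.mem_univ, true_and, Prod.fst_swap, Prod.snd_swap] at hp ⊢
      exact fun h => h.2 ((hor hp.1.1).resolve_left hp.2)
    · intro p hp
      simp only [Finset.mem_filter, Finset.mem_univ, true_and, Prod.fst_swap, Prod.snd_swap] at hp ⊢
      exact fun h => lt_asymm hp.2.2 h.2.2
  refine (hA.mul hB).trans (Sat_PM.of_eq ?_)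
  rw [h0]
  ring

theorem h0_erho (ρ : β → ℕ) : ∃ ε : ℂ, (ε = 1 ∨ ε = -1) ∧
    D.h0 (D.erho (one β) ρ) = ε • (Dl D.lab0 * Dl (D.labr (one β) ρ) * D.Ar0 ρ) := by
  have key : Sat_PM (D.h0 (D.erho (one β) ρ))
      (Dl D.lab0 * Dl (D.labr (one β) ρ) * D.Ar0 ρ) := by
    unfold erho
    rw [map_prod]
    refine (Sat_PM.prod fun p _ => D.Sat_h0_eps ρ p.1 p.2).trans ?_
    rw [Finset.prod_mul_distrib, Finset.prod_mul_distrib]
    refine Sat_PM.mul ((Sat_PM.of_eq ?_).trans (D.Sat_vander ρ)) (Sat_PM.of_eq ?_)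
    · rw [← Finset.prod_filter, ← Finset.prod_filter, Finset.filter_filter, Finset.filter_filter]
      congr 1
      · refine Finset.prod_congr ?_ fun _ _ => rfl
        ext p
        simp only [Finset.mem_filter, Finset.mem_univ, true_and, and_true]
        exact ⟨fun h => h.2, fun h => ⟨fun e => h.1.ne (by rw [e]), h⟩⟩
      · refine Finset.prod_congr ?_ fun _ _ => rfl
        ext p
        simp only [Finset.mem_filter, Finset.mem_univ, true_and, and_true]
    · rw [Sat_Ar0_eq, Finset.prod_filter]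
      refine Finset.prod_congr rfl fun p _ => ?_
      by_cases hp : ρ p.1 < ρ p.2
      · rw [if_pos ⟨fun e => hp.ne (by rw [e]), rfl⟩]
      · rw [if_neg hp, ite_self]
  rcases key with h | h
  · exact ⟨1, Or.inl rfl, by rw [h, one_smul]⟩
  · exact ⟨-1, Or.inr rfl, by rw [h, neg_one_smul]⟩

/-- Level functions that are injective on the strings of `ρ`. -/
theorem Sat_str {sl : β → Λ} {ρ : β → ℕ} {bot : β → β} (hs : D.IsStr sl ρ bot) {ρ' : β → ℕ}
    (hinj : ∀ k l, bot k = bot l → ρ' k = ρ' l → k = l) :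
    ∃ σ : Equiv.Perm β, (∀ k, bot (σ k) = bot k) ∧ ∀ k, ρ (σ k) ≤ ρ' k := by
  set r : β → ℕ := fun k => (Finset.univ.filter fun l => bot l = bot k ∧ ρ' l < ρ' k).card with hr
  have h1 : ∀ k, r k ≤ ρ' k := by
    intro k
    have := Finset.card_le_card_of_injOn (s := Finset.univ.filter fun l => bot l = bot k ∧ ρ' l < ρ' k)
      (t := Finset.range (ρ' k)) ρ' (fun l hl => by
        simp only [Finset.coe_filter, Finset.mem_univ, true_and, Set.mem_ofPred_eq] at hl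
        simpa using hl.2) (fun l hl m hm e => by
        simp only [Finset.coe_filter, Finset.mem_univ, true_and, Set.mem_ofPred_eq] at hl hm
        exact hinj l m (hl.1.trans hm.1.symm) e)
    simpa using this
  have h2 : ∀ k l, bot k = bot l → ρ' k < ρ' l → r k < r l := by
    intro k l hb hlt
    refine Finset.card_lt_card ⟨fun m hm => ?_, fun h => ?_⟩
    · simp only [Finset.mem_filter, Finset.mem_univ, true_and] at hm ⊢
      exact ⟨hm.1.trans hb, hm.2.trans hlt⟩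
    · have : k ∈ Finset.univ.filter fun m => bot m = bot l ∧ ρ' m < ρ' l := by
        simp only [Finset.mem_filter, Finset.mem_univ, true_and]
        exact ⟨hb, hlt⟩
      have := h this
      simp at this
  have h3 : ∀ k, ∃ l, bot l = bot k ∧ ρ l = r k := by
    intro k
    by_contra hn
    have hlt : ∀ l, bot l = bot k → ρ l < r k := by
      intro l hl
      by_contra hge
      obtain ⟨m, hm1, hm2⟩ := hs.gap l (r k) (not_lt.1 hge)
      exact hn ⟨m, hm1.trans hl, hm2⟩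
    have ha := Finset.card_le_card_of_injOn (s := Finset.univ.filter fun l => bot l = bot k)
      (t := Finset.range (r k)) ρ (fun l hl => by
        simp only [Finset.coe_filter, Finset.mem_univ, true_and, Set.mem_ofPred_eq] at hl
        simpa using hlt l hl) (fun l hl m hm e => by
        simp only [Finset.coe_filter, Finset.mem_univ, true_and, Set.mem_ofPred_eq] at hl hm
        exact hs.inj l m (hl.trans hm.symm) e)
    have hb : r k < (Finset.univ.filter fun l => bot l = bot k).card := by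
      refine Finset.card_lt_card ⟨fun m hm => ?_, fun h => ?_⟩
      · simp only [Finset.mem_filter, Finset.mem_univ, true_and] at hm ⊢
        exact hm.1
      · have : k ∈ Finset.univ.filter fun m => bot m = bot k := by simp
        have := h this
        simp at this
    rw [Finset.card_range] at ha
    omega
  choose f hf1 hf2 using h3
  have hfi : Function.Injective f := by
    intro k l e
    have hb : bot k = bot l := by rw [← hf1 k, e, hf1 l]
    have hr' : r k = r l := by rw [← hf2 k, e, hf2 l]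
    rcases lt_trichotomy (ρ' k) (ρ' l) with h | h | h
    · exact absurd hr' (h2 k l hb h).ne
    · exact hinj k l hb h
    · exact absurd hr' (h2 l k hb.symm h).ne'
  refine ⟨Equiv.ofBijective f (Finite.injective_iff_bijective.1 hfi), hf1, fun k => ?_⟩
  change ρ (f k) ≤ ρ' k
  rw [hf2]
  exact h1 k

theorem Sat_str_eq {ρ ρ' : β → ℕ} {σ : Equiv.Perm β} (h : ∀ k, ρ (σ k) ≤ ρ' k)
    (hle : ∑ k, ρ' k ≤ ∑ k, ρ k) (k : β) : ρ' k = ρ (σ k) := by
  have e : ∑ k, ρ (σ k) = ∑ k, ρ k := Equiv.sum_comp σ ρ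
  have h2 : ∑ k, ρ (σ k) = ∑ k, ρ' k :=
    le_antisymm (Finset.sum_le_sum fun k _ => h k) (by rw [e]; exact hle)
  exact ((Finset.sum_eq_sum_iff_of_le fun k _ => h k).1 h2 k (Finset.mem_univ _)).symm

theorem Sat_str_v {sl : β → Λ} {ρ : β → ℕ} {bot : β → β} (hs : D.IsStr sl ρ bot) {k l : β}
    (h : bot k = bot l) : D.v k = D.v l := by
  rw [← hs.vx k, h, hs.vx l]

/-- Survivors of the substitution `x_k ↦ x_{bot k}`. -/
theorem Sat_surv {ρ ρ' : β → ℕ} {bot : β → β} (hs : D.IsStr (one β) ρ bot) {g : Equiv.Perm β}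
    (hg : ∀ k, D.v (g k) = D.v k)
    (h : rename (Sum.map bot id : β ⊕ τ → β ⊕ τ)
      (rename (Equiv.sumCongr g (Equiv.refl τ)) (Dl (D.labr (one β) ρ'))) ≠ 0) :
    ∃ σ : Equiv.Perm β, (∀ k, bot (σ k) = bot k) ∧ ∀ k, ρ (σ k) ≤ ρ' (g⁻¹ k) := by
  refine D.Sat_str hs fun k l hb hρ => ?_
  by_contra hne
  apply h
  have hne' : g⁻¹ k ≠ g⁻¹ l := fun e => hne (g⁻¹.injective e)
  have hv : D.v (g⁻¹ k) = D.v (g⁻¹ l) := by
    rw [← hg (g⁻¹ k), ← hg (g⁻¹ l)]
    simpa using D.Sat_str_v hs hb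
  rw [Sat_Dl_lab, map_prod, map_prod]
  rcases Sat_ord_ne (τ := τ) hne' with ho | ho
  · refine Finset.prod_eq_zero (i := (g⁻¹ k, g⁻¹ l)) ?_ ?_
    · simp only [Finset.mem_filter, Finset.mem_univ, true_and, Prod.mk.injEq]
      exact ⟨hv, hρ, ho⟩
    · simp [hb]
  · refine Finset.prod_eq_zero (i := (g⁻¹ l, g⁻¹ k)) ?_ ?_
    · simp only [Finset.mem_filter, Finset.mem_univ, true_and, Prod.mk.injEq]
      exact ⟨hv.symm, hρ.symm, ho⟩
    · simp [hb]

theorem Sat_h0_Alt (y : MvPolynomial (β ⊕ τ) ℂ) :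
    D.h0 (Alt D.lab0 y) = Alt D.lab0 (D.h0 y) := by
  rw [Alt_apply, Alt_apply, map_sum]
  refine Finset.sum_congr rfl fun w hw => ?_
  rw [map_smul, D.h0_rename hw]

theorem Sat_h0_gen (ρ : β → ℕ) (g : MvPolynomial (β ⊕ τ) ℂ) : ∃ ε : ℂ, ε ≠ 0 ∧
    D.h0 (D.gen (one β) ρ g) = Dl D.lab0 * (ε • Sym D.lab0
      (D.h0 g * Dl (D.labr (one β) ρ) * D.Ar0 ρ * Dl (D.labr (one β) ρ))) := by
  obtain ⟨ε, hε, h⟩ := D.h0_erho ρ
  refine ⟨ε, by rcases hε with e | e <;> simp [e], ?_⟩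
  unfold gen
  rw [Sat_h0_Alt, map_mul D.h0, map_mul D.h0, h, Sat_h0_Dl, mul_smul_comm, map_smul, mul_smul_comm,
    ← Alt_Dl_mul]
  congr 2
  ring

theorem Sat_wrho (g : Equiv.Perm β) (ρ : β → ℕ) (k : β) :
    wrho (Equiv.sumCongr g (Equiv.refl τ)) ρ k = ρ (g k) := rfl

/-- (EV0), lower generators. -/
theorem Sat_low {kr : (β → ℕ) → ℕ} (hk : D.IsKr (one β) kr) {ρ : β → ℕ} {bot : β → β}
    (hs : D.IsStr (one β) ρ bot) {z : MvPolynomial (β ⊕ τ) ℂ}
    (hz : z ∈ D.Ylt (one β) kr (kr ρ)) :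
    ∃ s, D.h0 z = Dl D.lab0 * s ∧ rename (Sum.map bot id : β ⊕ τ → β ⊕ τ) s = 0 := by
  induction hz using Submodule.span_induction with
  | mem y hy =>
    obtain ⟨ρ', g, -, hlt, -, rfl⟩ := hy
    obtain ⟨ε, -, h⟩ := D.Sat_h0_gen ρ' g
    refine ⟨_, h, ?_⟩
    rw [map_smul, Sym_apply, map_sum, Finset.sum_eq_zero, smul_zero]
    intro w hw
    obtain ⟨u, hu, rfl⟩ := D.mem_Wl_lab.1 hw
    rw [map_mul, map_mul]
    refine mul_eq_zero_of_right _ ?_
    by_contra hne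
    obtain ⟨σ, hσ1, hσ2⟩ := D.Sat_surv hs (fun k => (hu k).1) hne
    have hsum : ∑ k, ρ' (u⁻¹ k) = ∑ k, ρ' k := Equiv.sum_comp u⁻¹ ρ'
    by_cases hle : ∑ k, ρ' k ≤ ∑ k, ρ k
    · have he := Sat_str_eq (ρ' := fun k => ρ' (u⁻¹ k)) hσ2 (by rw [hsum]; exact hle)
      have : kr ρ = kr ρ' := by
        refine (hk.eq_iff ρ ρ').2 ⟨Equiv.sumCongr (σ * u) (Equiv.refl τ),
          D.mem_Wl_lab.2 ⟨σ * u, fun k => ⟨?_, rfl⟩, rfl⟩, funext fun k => ?_⟩
        · rw [Equiv.Perm.mul_apply, D.Sat_str_v hs (hσ1 (u k)), (hu k).1]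
        · rw [Sat_wrho, Equiv.Perm.mul_apply, ← he (u k)]
          simp
      omega
    · have := hk.lt ρ ρ' (not_le.1 hle)
      omega
  | zero => exact ⟨0, by rw [map_zero, mul_zero], map_zero _⟩
  | add x y _ _ hx hy =>
    obtain ⟨s, h1, h2⟩ := hx
    obtain ⟨t, h3, h4⟩ := hy
    exact ⟨s + t, by rw [map_add, h1, h3, mul_add], by rw [map_add, h2, h4, add_zero]⟩
  | smul a x _ hx =>
    obtain ⟨s, h1, h2⟩ := hx
    exact ⟨a • s, by rw [map_smul, h1, mul_smul_comm], by rw [map_smul, h2, smul_zero]⟩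

theorem Sat_rename_Ar0 {ρ : β → ℕ} {g : Equiv.Perm β} (hv : ∀ k, D.v (g k) = D.v k)
    (hρ : ∀ k, ρ (g k) = ρ k) :
    rename (Equiv.sumCongr g (Equiv.refl τ)) (D.Ar0 ρ) = D.Ar0 ρ := by
  unfold Ar0
  rw [map_prod]
  refine Finset.prod_equiv ((Equiv.refl Ar).prodCongr (g.prodCongr g)) (fun p => ?_) fun p _ => ?_
  · simp [hv, hρ]
  · rw [rename_wt]
    rfl

theorem Sat_evb_Dl {ρ : β → ℕ} {bot : β → β} (hs : D.IsStr (one β) ρ bot) :
    rename (Sum.map bot id : β ⊕ τ → β ⊕ τ) (Dl (D.labr (one β) ρ)) ≠ 0 := by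
  rw [Sat_Dl_lab, map_prod]
  refine Finset.prod_ne_zero_iff.2 fun p hp => ?_
  simp only [Finset.mem_filter, Finset.mem_univ, true_and, Prod.mk.injEq] at hp
  rw [map_sub, rename_X, rename_X]
  refine sub_ne_zero.2 fun e => ?_
  have e1 : bot p.1 = bot p.2 := Sum.inl_injective (X_injective e)
  have e2 := hs.inj _ _ e1 hp.2.1
  exact hp.2.2.ne (by rw [e2])

theorem Sat_evb_Ar0 (ρ : β → ℕ) (bot : β → β) :
    rename (Sum.map bot id : β ⊕ τ → β ⊕ τ) (D.Ar0 ρ) ≠ 0 := by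
  unfold Ar0
  rw [map_prod]
  refine Finset.prod_ne_zero_iff.2 fun p _ => fun e => ?_
  have h := congrArg (eval (Sum.elim 0 (Pi.single D.bb 1) : β ⊕ τ → ℂ)) e
  rw [wt_eq, eval_rename, map_zero, map_add, map_sub, map_sum, Finset.sum_eq_single D.bb] at h
  · simp [w3, D.wb] at h
  · intro a _ ha
    rw [map_mul, eval_X]
    exact mul_eq_zero_of_right _ (Pi.single_eq_of_ne ha _)
  · simp

/-- (EV0), the generator of type `ρ`. -/
theorem Sat_top {ρ : β → ℕ} {bot : β → β} (hs : D.IsStr (one β) ρ bot)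
    {g : MvPolynomial (β ⊕ τ) ℂ} (hg : g ∈ Rinv (D.labr (one β) ρ))
    (h : rename (Sum.map bot id : β ⊕ τ → β ⊕ τ) (Sym D.lab0
      (D.h0 g * Dl (D.labr (one β) ρ) * D.Ar0 ρ * Dl (D.labr (one β) ρ))) = 0) :
    rename (Sum.map bot id : β ⊕ τ → β ⊕ τ) (D.h0 g) = 0 := by
  classical
  set F := D.h0 g * Dl (D.labr (one β) ρ) * D.Ar0 ρ * Dl (D.labr (one β) ρ) with hF
  have hinv : ∀ π : Equiv.Perm β, (∀ k, D.v (π k) = D.v k) → (∀ k, ρ (π k) = ρ k) →
      rename (Equiv.sumCongr π (Equiv.refl τ)) F = F := by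
    intro π h1 h2
    have hw : Equiv.sumCongr π (Equiv.refl τ) ∈ Wl (D.labr (one β) ρ) :=
      D.mem_Wl_lab.2 ⟨π, fun k => ⟨h1 k, by rw [h2 k]⟩, rfl⟩
    rw [hF, map_mul, map_mul, map_mul, ← D.h0_rename hw, mem_Rinv.1 hg _ hw, rename_Dl hw,
      D.Sat_rename_Ar0 h1 h2, mul_smul_comm, mul_smul_comm, smul_mul_assoc, smul_mul_assoc,
      smul_smul, sgn_mul_self, one_smul]
  have hterm : ∀ w ∈ Wl D.lab0, rename (Sum.map bot id : β ⊕ τ → β ⊕ τ) (rename w F) = 0 ∨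
      rename (Sum.map bot id : β ⊕ τ → β ⊕ τ) (rename w F) =
        rename (Sum.map bot id : β ⊕ τ → β ⊕ τ) F := by
    intro w hw
    obtain ⟨u, hu, rfl⟩ := D.mem_Wl_lab.1 hw
    by_cases hne : rename (Sum.map bot id : β ⊕ τ → β ⊕ τ)
        (rename (Equiv.sumCongr u (Equiv.refl τ)) (Dl (D.labr (one β) ρ))) = 0
    · left
      rw [hF, map_mul, map_mul, hne, mul_zero]
    · right
      obtain ⟨σ, hσ1, hσ2⟩ := D.Sat_surv hs (fun k => (hu k).1) hne
      have he := Sat_str_eq (ρ' := fun k => ρ (u⁻¹ k)) hσ2 (Equiv.sum_comp u⁻¹ ρ).le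
      have h1 := hinv (σ * u) (fun k => by
        rw [Equiv.Perm.mul_apply, D.Sat_str_v hs (hσ1 (u k)), (hu k).1]) (fun k => by
        rw [Equiv.Perm.mul_apply, ← he (u k)]
        simp)
      conv_rhs => rw [← h1]
      rw [rename_rename, rename_rename]
      have e : (Sum.map bot id : β ⊕ τ → β ⊕ τ) ∘ (Equiv.sumCongr u (Equiv.refl τ)) =
          (Sum.map bot id : β ⊕ τ → β ⊕ τ) ∘ (Equiv.sumCongr (σ * u) (Equiv.refl τ)) := by
        funext x
        rcases x with k | a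
        · simp [hσ1]
        · rfl
      rw [e]
  have hQ : rename (Sum.map bot id : β ⊕ τ → β ⊕ τ) F = 0 := by
    by_contra hQ
    set Q := rename (Sum.map bot id : β ⊕ τ → β ⊕ τ) F with hQd
    rw [Sym_apply, map_sum, ← Finset.sum_filter_add_sum_filter_not _
      (fun w : Equiv.Perm (β ⊕ τ) => rename (Sum.map bot id : β ⊕ τ → β ⊕ τ) (rename w F) = Q),
      Finset.sum_eq_zero (s := Finset.filter (fun w : Equiv.Perm (β ⊕ τ) =>
        ¬ rename (Sum.map bot id : β ⊕ τ → β ⊕ τ) (rename w F) = Q) (Wl D.lab0))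
        (fun w hw => (hterm w (Finset.mem_filter.1 hw).1).resolve_right (Finset.mem_filter.1 hw).2),
      add_zero, Finset.sum_congr rfl (fun w hw => (Finset.mem_filter.1 hw).2), Finset.sum_const,
      nsmul_eq_mul] at h
    rcases mul_eq_zero.1 h with h1 | h1
    · rw [Nat.cast_eq_zero, Finset.card_eq_zero] at h1
      have : (1 : Equiv.Perm (β ⊕ τ)) ∈ Finset.filter (fun w : Equiv.Perm (β ⊕ τ) =>
          rename (Sum.map bot id : β ⊕ τ → β ⊕ τ) (rename w F) = Q) (Wl D.lab0) :=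
        Finset.mem_filter.2 ⟨one_mem_Wl _, by simp [hQd]⟩
      rw [h1] at this
      exact absurd this (Finset.notMem_empty _)
    · exact hQ h1
  rw [hF, map_mul, map_mul, map_mul] at hQ
  have a1 := D.Sat_evb_Dl hs
  have a2 := D.Sat_evb_Ar0 ρ bot
  simpa [a1, a2] using hQ

theorem Sat_h0_ev (ρ : β → ℕ) (bot : β → β) (g : MvPolynomial (β ⊕ τ) ℂ) :
    D.h0 (D.ev ρ bot g) = rename (Sum.map bot id : β ⊕ τ → β ⊕ τ) (D.h0 g) := by
  have h : D.h0.comp (D.ev ρ bot) = (rename (Sum.map bot id : β ⊕ τ → β ⊕ τ)).comp D.h0 := by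
    refine MvPolynomial.algHom_ext fun x => ?_
    rw [AlgHom.comp_apply, AlgHom.comp_apply, ev, aeval_X]
    rcases x with k | a
    · rw [Sum.elim_inl, map_sub, map_mul, Sat_h0_hb, mul_zero, sub_zero, Sat_h0_inl, Sat_h0_inl,
        rename_X]
      rfl
    · rw [Sum.elim_inr]
      by_cases ha : a = D.hh
      · have e : (X (Sum.inr a) : MvPolynomial (β ⊕ τ) ℂ) = D.hb := by rw [ha]; rfl
        rw [e, Sat_h0_hb, map_zero]
      · rw [D.Sat_h0_inr ha, rename_X]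
        rfl
  exact AlgHom.congr_fun h g

theorem Sat_ev_hb (ρ : β → ℕ) (bot : β → β) : D.ev ρ bot D.hb = D.hb := by
  rw [ev, hb, aeval_X]
  rfl

theorem Sat_onto {ρ : β → ℕ} {bot : β → β} (hs : D.IsStr (one β) ρ bot)
    {r : MvPolynomial ({k // bot k = k} ⊕ τ) ℂ} (hr : r ∈ Rinv (D.labb (one β) bot)) :
    ∃ g ∈ Rinv (D.labr (one β) ρ), D.ev ρ bot g = rename (Sum.map Subtype.val id) r := by
  have h : ∀ d, ∃ g ∈ Rinv (D.labr (one β) ρ),
      D.ev ρ bot g = rename (Sum.map Subtype.val id) (homogeneousComponent d r) := fun d => by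
    obtain ⟨g, h1, -, h2⟩ := D.ev_onto hs (homogeneousComponent_mem_Rinv hr d)
      (homogeneousComponent_isHomogeneous d r)
    exact ⟨g, h1, h2⟩
  choose g hg1 hg2 using h
  refine ⟨∑ d ∈ Finset.range (r.totalDegree + 1), g d, Subalgebra.sum_mem _ fun d _ => hg1 d, ?_⟩
  rw [map_sum, Finset.sum_congr rfl fun d _ => hg2 d, ← map_sum, sum_homogeneousComponent]

/-- Division by `ħ` modulo the kernel of the evaluation. -/
theorem Sat_div {ρ : β → ℕ} {bot : β → β} (hs : D.IsStr (one β) ρ bot)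
    {g : MvPolynomial (β ⊕ τ) ℂ} (hg : g ∈ Rinv (D.labr (one β) ρ))
    (h : D.h0 (D.ev ρ bot g) = 0) :
    ∃ g₁ ∈ Rinv (D.labr (one β) ρ), D.ev ρ bot (g - D.hb * g₁) = 0 := by
  obtain ⟨r, hr, he, -⟩ := D.ev_mem hs hg
  have hι : Function.Injective (Sum.map Subtype.val id : {k // bot k = k} ⊕ τ → β ⊕ τ) :=
    Subtype.val_injective.sumMap Function.injective_id
  have h1 : Sat_kill (Sum.inr D.hh : {k // bot k = k} ⊕ τ) r = 0 := by
    rw [he, Sat_h0_eq, Sat_kill_rename (x₀ := (Sum.inr D.hh : {k // bot k = k} ⊕ τ))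
      (fun x => by rcases x with k | a <;> simp)] at h
    exact rename_injective _ hι (by rw [h, map_zero])
  obtain ⟨r₁, hr₁⟩ := (Sat_kill_eq_zero _).1 h1
  have hr₁m : r₁ ∈ Rinv (D.labb (one β) bot) := by
    refine mem_Rinv.2 fun w hw => ?_
    have e := mem_Rinv.1 hr w hw
    have hw' : w (Sum.inr D.hh) = Sum.inr D.hh := by
      have := mem_Wl.1 hw (Sum.inr D.hh)
      rcases hx : w (Sum.inr D.hh) with k | a
      · rw [hx] at this
        simp [labb] at this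
      · rw [hx] at this
        simpa [labb] using this
    rw [hr₁, map_mul, rename_X, hw'] at e
    exact mul_left_cancel₀ (X_ne_zero _) e
  obtain ⟨g₁, hg₁, he₁⟩ := D.Sat_onto hs hr₁m
  refine ⟨g₁, hg₁, ?_⟩
  rw [map_sub, map_mul, Sat_ev_hb, he, he₁, hr₁, map_mul, rename_X]
  exact sub_self _

theorem Sat_main {kr : (β → ℕ) → ℕ} (hk : D.IsKr (one β) kr) (hLOW : D.LOWr (one β) kr) (c : ℕ) :
    ∀ z ∈ D.Ylt (one β) kr c, D.h0 z = 0 → ∃ y ∈ D.Y (one β), z = D.hb * y := by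
  induction c with
  | zero =>
    intro z hz _
    rw [Ylt_zero, Submodule.mem_bot] at hz
    exact ⟨0, Submodule.zero_mem _, by rw [hz, mul_zero]⟩
  | succ c ih =>
    intro z hz h0z
    by_cases hex : ∃ ρ, D.Decr (one β) ρ ∧ kr ρ = c
    · obtain ⟨ρ, hρ, rfl⟩ := hex
      obtain ⟨bot, hs⟩ := D.exists_str hρ
      obtain ⟨g, hg, hz'⟩ := D.mem_Ylt_succ hk hz
      obtain ⟨s, hs1, hs2⟩ := D.Sat_low hk hs hz'
      obtain ⟨ε, hε, hgen⟩ := D.Sat_h0_gen ρ g
      rw [map_sub, h0z, hgen, zero_sub, ← mul_neg] at hs1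
      have hs3 := mul_left_cancel₀ (Dl_ne_zero _) hs1
      rw [← hs3, map_neg, neg_eq_zero, map_smul, smul_eq_zero] at hs2
      have htop := D.Sat_top hs hg (hs2.resolve_left hε)
      rw [← D.Sat_h0_ev ρ] at htop
      obtain ⟨g₁, hg₁, hev⟩ := D.Sat_div hs hg htop
      have hlow := hLOW ρ bot (g - D.hb * g₁) hρ hs
        (Subalgebra.sub_mem _ hg (Subalgebra.mul_mem _ (D.X_inr_mem_Rinv _ D.hh) hg₁)) hev
      have hsplit : D.gen (one β) ρ (g - D.hb * g₁) =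
          D.gen (one β) ρ g - D.hb * D.gen (one β) ρ g₁ := by
        unfold gen
        rw [hb, ← Alt_mul (D.X_inr_mem_Rinv (one β) D.hh), ← map_sub]
        congr 1
        ring
      have hmem : z - D.hb * D.gen (one β) ρ g₁ ∈ D.Ylt (one β) kr (kr ρ) := by
        have := Submodule.add_mem _ hz' hlow
        have e : z - D.gen (one β) ρ g + D.gen (one β) ρ (g - D.hb * g₁) =
            z - D.hb * D.gen (one β) ρ g₁ := by
          rw [hsplit]
          ring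
        rwa [← e]
      obtain ⟨y, hy, hy'⟩ := ih _ hmem (by rw [map_sub, map_mul, h0z, Sat_h0_hb, zero_mul, sub_zero])
      refine ⟨y + D.gen (one β) ρ g₁, Submodule.add_mem _ hy (D.gen_mem_Y _ _ _), ?_⟩
      rw [mul_add, ← hy']
      ring
    · rw [D.Ylt_succ_eq (one β) kr fun ρ h1 h2 => hex ⟨ρ, h1, h2⟩] at hz
      exact ih z hz h0z

/-- (S). -/
theorem sat {kr : (β → ℕ) → ℕ} (hk : D.IsKr (one β) kr) (hSP : D.SPr (one β) kr)
    (hLOW : D.LOWr (one β) kr) {y : MvPolynomial (β ⊕ τ) ℂ} (hy : D.hb * y ∈ D.Y (one β)) :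
    y ∈ D.Y (one β) := by
  obtain ⟨c, hc⟩ := hSP _ hy
  obtain ⟨y', hy', e⟩ := D.Sat_main hk hLOW c _ hc (by rw [map_mul, Sat_h0_hb, zero_mul])
  rwa [mul_left_cancel₀ D.hb_ne_zero e]

/-- (S) modulo `ħ` for the variable `b`. -/
theorem sat_b {kr : (β → ℕ) → ℕ} (hk : D.IsKr (one β) kr) (hSP : D.SPr (one β) kr)
    (hLOW : D.LOWr (one β) kr) {y y₁ : MvPolynomial (β ⊕ τ) ℂ} (hy : y ∈ D.Y (one β))
    (hy₁ : y₁ ∈ D.Y (one β)) (h : X (Sum.inr D.bb) * y = D.hb * y₁) :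
    ∃ y₂ ∈ D.Y (one β), y = D.hb * y₂ := by
  have _ := hy₁
  have h1 := congrArg D.h0 h
  rw [map_mul, map_mul, Sat_h0_hb, zero_mul, D.Sat_h0_inr D.bh] at h1
  obtain ⟨y₂, rfl⟩ := D.h0_eq_zero_iff.1 ((mul_eq_zero.1 h1).resolve_left (X_ne_zero _))
  exact ⟨y₂, D.sat hk hSP hLOW hy, rfl⟩

end HD

end Pool.Agent.HK
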